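import Pool.Agent.Lib.MP_bafc89_co.KP.Spec

/-!
# MP_bafc89_co, module ALF: a model of K5 minus an edge gives a core
-/

set_option autoImplicit false

namespace Pool.Agent.Lib.MPbafc89.KP

open SimpleGraph
open Pool.Agent.Lib.MPbafc89.BQ (Jn Cn)
open Pool.Agent.Lib.MPbafc89.KE (Tch qg IsMinor IsInducedMinor)

universe u

theorem specALF (hMIN : SpecMIN.{u}) (hMP1 : SpecMP1.{u}) (hMP3 : SpecMP3.{u})
    (hMPC : SpecMPC.{u}) (hMPR : SpecMPR.{u}) (hMPD : SpecMPD.{u}) : SpecALF.{u} := by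
  intro V G hNo P Q A B C hK
  obtain ⟨P', Q', A', B', C', h⟩ := hMIN V G P Q A B C hK
  obtain ⟨p, rfl⟩ := hMP1 V G hNo P' Q' A' B' C' h
  obtain ⟨q, rfl⟩ := hMP1 V G hNo Q' {p} A' B' C' h.swapPQ
  have s1 : Sm G {p} {q} A' B' C' := hMP3 V G hNo {p} {q} A' B' C' h
  have s2 : Sm G {p} {q} A' C' B' := hMP3 V G hNo {p} {q} A' C' B' h.swapBC
  have s3 : Sm G {p} {q} B' C' A' := hMP3 V G hNo {p} {q} B' C' A' h.swapAB.swapBC
  refine ⟨{p} ∪ {q} ∪ A' ∪ B' ∪ C', ?_, ?_, ?_, ?_⟩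
  · exact hMPR V G p q A' B' C' h.k s1 s2 s3
  · exact hMPC V G p q A' B' C' h.k s1 s2 s3
  · exact (hMPD V G p q A' B' C' h.k s1 s2 s3).1
  · exact (hMPD V G p q A' B' C' h.k s1 s2 s3).2

end Pool.Agent.Lib.MPbafc89.KP
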