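import Pool.Agent.Lib.MP_bafc89_co.KP.Spec

/-! BLK: the closure of a core is a `Bl`. -/

set_option autoImplicit false

namespace Pool.Agent.Lib.MPbafc89.KP

open SimpleGraph
open Pool.Agent.Lib.MPbafc89.BQ (Jn Cn)

universe u

namespace BLKM

theorem step {V : Type u} {G : SimpleGraph V} {a b : V} (h : a = b ∨ G.Adj a b) :
    G.edist a b ≤ 1 := by
  rcases h with rfl | h
  · rw [SimpleGraph.edist_self]
    exact zero_le_one
  · exact (SimpleGraph.edist_eq_one_iff_adj.2 h).le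

theorem tri {V : Type u} {G : SimpleGraph V} {a b c : V} {m n : ℕ∞} (h1 : G.edist a b ≤ m)
    (h2 : G.edist b c ≤ n) : G.edist a c ≤ m + n :=
  (SimpleGraph.edist_triangle).trans (add_le_add h1 h2)

end BLKM

open BLKM in
/-- The closure of a core is a `Bl`. -/
theorem specBLK (hCLO : SpecCLO.{u}) (hDIS : SpecDIS.{u}) (hTWO : SpecTWO.{u}) : SpecBLK.{u} := by
  intro V G hG D hD
  refine ⟨hTWO V G D hD.con, hCLO V G hG D hD.rk, ?_⟩
  intro x hx y hy
  obtain ⟨d, hd, x', hxx', hx'd⟩ := hDIS V G hG D hD.rk x hx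
  obtain ⟨e, he, y', hyy', hy'e⟩ := hDIS V G hG D hD.rk y hy
  obtain ⟨a, _, b, _, h1, h2, h3⟩ := hD.dia d hd e he
  have hxd : G.edist x d ≤ 1 + 1 := tri (step hxx') (step hx'd)
  have hye : G.edist y e ≤ 1 + 1 := tri (step hyy') (step hy'e)
  have hey : G.edist e y ≤ 1 + 1 := by
    rw [SimpleGraph.edist_comm]
    exact hye
  have hde : G.edist d e ≤ 1 + 1 + 1 := tri (tri (step h1) (step h2)) (step h3)
  refine (tri (tri hxd hde) hey).trans (le_of_eq ?_)
  norm_num

end Pool.Agent.Lib.MPbafc89.KP
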