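import Pool.Agent.Lib.MP_bafc89_co.KP.Spec

/-!
# CLO: the closure is attached at single vertices
-/

set_option autoImplicit false

namespace Pool.Agent.Lib.MPbafc89.KP

open SimpleGraph
open Pool.Agent.Lib.MPbafc89.BQ (Jn Cn)
open Pool.Agent.Lib.MPbafc89.KE (Tch qg IsMinor IsInducedMinor)

universe u

namespace CLOM

variable {V : Type u} {G : SimpleGraph V}

lemma sub_cl (D : Set V) : D ⊆ cl G D := Set.subset_union_left

lemma lev_mono (D : Set V) : Monotone (lev G D) :=
  monotone_nat_of_le_succ fun n => sub_cl (lev G D n)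

end CLOM

open CLOM in
theorem specCLO (hGRW : SpecGRW.{u}) (hONE : SpecONE.{u}) : SpecCLO.{u} := by
  intro V G hNT D hD C hC hdis a ha b hb hca hcb
  by_contra hab
  have hrk : ∀ n, RK G (lev G D n) := by
    intro n
    induction n with
    | zero => exact hD
    | succ n ih => exact hGRW V G (lev G D n) (cl G (lev G D n)) ih (sub_cl _) le_rfl
  obtain ⟨n, hn⟩ := Set.mem_iUnion.1 ha
  obtain ⟨m, hm⟩ := Set.mem_iUnion.1 hb
  have ha' : a ∈ lev G D (max n m) := lev_mono D (le_max_left n m) hn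
  have hb' : b ∈ lev G D (max n m) := lev_mono D (le_max_right n m) hm
  have hd : Disjoint C (lev G D (max n m)) :=
    hdis.mono_right (Set.subset_iUnion (lev G D) (max n m))
  obtain ⟨c, hc, x, hx, y, hy, hxy, h1, h2⟩ :=
    hONE V G hNT (lev G D (max n m)) C (hrk _) hC hd a ha' b hb' hab hca hcb
  have hc' : c ∈ lev G D (max n m + 1) := Or.inr ⟨x, hx, y, hy, hxy, h1, h2⟩
  exact Set.disjoint_left.1 hdis hc (Set.mem_iUnion.2 ⟨_, hc'⟩)

end Pool.Agent.Lib.MPbafc89.KP
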