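import Pool.Agent.Lib.MP_bafc89_co.KP.Spec

/-!
# Module CNB: every element of the closure of a core has a neighbour in the closure
-/

set_option autoImplicit false

namespace Pool.Agent.Lib.MPbafc89.KP

open SimpleGraph
open Pool.Agent.Lib.MPbafc89.BQ (Jn Cn)

universe u

namespace CNBM

theorem two {V : Type u} (D : Set V) (h : (5 : ℕ∞) ≤ D.encard) (x : V) :
    ∃ s ∈ D, s ≠ x ∧ ∃ z ∈ D, z ≠ x ∧ z ≠ s := by
  have h1 : ¬ D ⊆ {x} := by
    intro hs
    have h2 := h.trans ((Set.encard_le_encard hs).trans (le_of_eq (Set.encard_singleton x)))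
    exact absurd h2 (by decide)
  obtain ⟨s, hs, hsx⟩ := Set.not_subset.mp h1
  have h3 : ¬ D ⊆ {x, s} := by
    intro hs
    have h4 : ({x, s} : Set V).encard ≤ 2 := by
      have := Set.encard_insert_le ({s} : Set V) x
      rw [Set.encard_singleton] at this
      exact this.trans (le_of_eq (by norm_num))
    exact absurd (h.trans ((Set.encard_le_encard hs).trans h4)) (by decide)
  obtain ⟨z, hz, hzx⟩ := Set.not_subset.mp h3
  rw [Set.mem_insert_iff, Set.mem_singleton_iff, not_or] at hzx
  exact ⟨s, hs, hsx, z, hz, hzx.1, hzx.2⟩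

end CNBM

theorem specCNB : SpecCNB.{u} := by
  intro V G D hD x hx
  have hlev : ∀ n, ∀ x ∈ lev G D n, ∃ y ∈ Uc G D, G.Adj x y := by
    intro n
    induction n with
    | zero =>
      intro x hx
      have hxD : x ∈ D := hx
      obtain ⟨s, hs, hsx, z, hz, hzx, hzs⟩ := CNBM.two D hD.big x
      have hxS : x ∈ D \ {s, s} := ⟨hxD, fun h => by
        rcases h with h | h
        · exact hsx h.symm
        · exact hsx (Set.mem_singleton_iff.mp h).symm⟩
      have hzS : z ∈ D \ {s, s} := ⟨hz, fun h => by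
        rcases h with h | h
        · exact hzs h
        · exact hzs (Set.mem_singleton_iff.mp h)⟩
      obtain ⟨w, hw⟩ := (hD.con s s).2 x hxS z hzS
      cases w with
      | nil => exact absurd rfl hzx
      | @cons _ b _ hab p =>
        have hb : b ∈ D \ {s, s} := hw b (by simp)
        exact ⟨b, Set.mem_iUnion.mpr ⟨0, hb.1⟩, hab⟩
    | succ n ih =>
      intro x hx
      rcases hx with hx | ⟨a, ha, b, hb, hab, hxa, hxb⟩
      · exact ih x hx
      · exact ⟨a, Set.mem_iUnion.mpr ⟨n, ha⟩, hxa⟩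
  obtain ⟨n, hn⟩ := Set.mem_iUnion.mp hx
  exact hlev n x hn

end Pool.Agent.Lib.MPbafc89.KP
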