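import Pool.Agent.Lib.MP_bafc89_co.KP.Spec

/-!
# MP_bafc89_co: module DIS (the closure is close to the set)

Every element of the closure of a rooted set `D` is in `D` or has a neighbour in `D`.
-/

set_option autoImplicit false

namespace Pool.Agent.Lib.MPbafc89.KP

open SimpleGraph
open Pool.Agent.Lib.MPbafc89.BQ (Jn Cn)
open Pool.Agent.Lib.MPbafc89.KE (Tch qg IsMinor IsInducedMinor)

universe u

namespace DISM

variable {V : Type u} {G : SimpleGraph V} {D S : Set V}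

theorem sub_cl (S : Set V) : S ⊆ cl G S := fun _ h => Or.inl h

theorem mem_cl {c a b : V} (ha : a ∈ S) (hb : b ∈ S) (hab : a ≠ b) (h1 : G.Adj c a)
    (h2 : G.Adj c b) : c ∈ cl G S := Or.inr ⟨a, ha, b, hb, hab, h1, h2⟩

theorem lev_mono {m n : ℕ} (h : m ≤ n) : lev G D m ⊆ lev G D n := by
  induction h with
  | refl => exact fun _ h => h
  | step _ ih => exact ih.trans (sub_cl _)

theorem rk_lev (hGRW : SpecGRW.{u}) (h : RK G D) : ∀ n, RK G (lev G D n)
  | 0 => h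
  | n + 1 => hGRW V G (lev G D n) (lev G D (n + 1)) (rk_lev hGRW h n) (sub_cl _) (fun _ h => h)

/-- the third neighbour -/
theorem ex3 (hEX2 : SpecEX2.{u}) (hN : NoT G) (hR : RK G S) {x a b : V} (hx : x ∉ S) (ha : a ∈ S)
    (hb : b ∈ S) (hab : a ≠ b) (h1 : G.Adj x a) (h2 : G.Adj x b) :
    ∃ z ∈ S, z ≠ a ∧ z ≠ b ∧ G.Adj x z := by
  obtain ⟨z, hz, hza, hzb, c, hc, hcz⟩ := hEX2 V G hN S {x} hR (Cn.singleton x)
    (Set.disjoint_singleton_left.mpr hx) a ha b hb hab ⟨x, rfl, h1⟩ ⟨x, rfl, h2⟩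
  rw [Set.mem_singleton_iff] at hc
  subst hc
  exact ⟨z, hz, hza, hzb, hcz⟩

/-- a vertex of the closure outside `S` is in the closure of `S` minus a point -/
theorem cl_del (hEX2 : SpecEX2.{u}) (hN : NoT G) (hR : RK G S) {c z : V} (hc : c ∈ cl G S)
    (hcz : c ≠ z) : c ∈ cl G (S \ {z}) := by
  by_cases hcS : c ∈ S
  · exact Or.inl ⟨hcS, hcz⟩
  · rcases hc with hc | ⟨a, ha, b, hb, hab, h1, h2⟩
    · exact absurd hc hcS
    · obtain ⟨w, hw, hwa, hwb, h3⟩ := ex3 hEX2 hN hR hcS ha hb hab h1 h2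
      by_cases haz : a = z
      · subst haz
        exact mem_cl ⟨hb, fun h => hab h.symm⟩ ⟨hw, hwa⟩ (Ne.symm hwb) h2 h3
      · by_cases hbz : b = z
        · subst hbz
          exact mem_cl ⟨ha, haz⟩ ⟨hw, hwb⟩ (Ne.symm hwa) h1 h3
        · exact mem_cl ⟨ha, haz⟩ ⟨hb, hbz⟩ hab h1 h2

/-- a point which is not in `D` can be removed from all later levels -/
theorem rk_del (hGRW : SpecGRW.{u}) (hEX2 : SpecEX2.{u}) (hN : NoT G) (h : RK G D) {z : V} {j : ℕ}
    (hz : z ∉ lev G D j) : ∀ i, RK G (lev G D (j + 1 + i) \ {z})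
  | 0 => by
    refine hGRW V G (lev G D j) _ (rk_lev hGRW h j) (fun x hx => ⟨sub_cl _ hx, fun h => hz ?_⟩)
      (fun x hx => hx.1)
    rw [Set.mem_singleton_iff] at h
    exact h ▸ hx
  | i + 1 => by
    refine hGRW V G (lev G D (j + 1 + i) \ {z}) _ (rk_del hGRW hEX2 hN h hz i)
      (fun x hx => ⟨sub_cl _ hx.1, hx.2⟩)
      (fun x hx => cl_del hEX2 hN (rk_lev hGRW h _) hx.1 hx.2)

/-- two vertices of the closure which are the only neighbours of `x`: impossible -/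
theorem two_only (hGRW : SpecGRW.{u}) (hEX2 : SpecEX2.{u}) (hN : NoT G) (hR : RK G S) {x e f : V}
    (hx : x ∉ S) (he : e ∈ cl G S) (hf : f ∈ cl G S) (hef : e ≠ f) (h1 : G.Adj x e)
    (h2 : G.Adj x f) (h0 : ∀ z ∈ S, ¬ G.Adj x z) : False := by
  have hR2 : RK G (S ∪ {e, f}) := by
    refine hGRW V G S _ hR Set.subset_union_left ?_
    rintro y (hy | hy | hy)
    · exact sub_cl _ hy
    · exact hy ▸ he
    · rw [Set.mem_singleton_iff] at hy
      exact hy ▸ hf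
  have hx2 : x ∉ S ∪ {e, f} := by
    rintro (hy | hy | hy)
    · exact hx hy
    · exact h1.ne hy
    · exact h2.ne hy
  obtain ⟨z, hz, hze, hzf, h3⟩ := ex3 hEX2 hN hR2 hx2 (a := e) (b := f) (Or.inr (Or.inl rfl))
    (Or.inr (Or.inr rfl)) hef h1 h2
  rcases hz with hz | hz | hz
  · exact h0 z hz h3
  · exact hze hz
  · exact hzf hz

/-- two neighbours in the last level -/
theorem two_new (hEX2 : SpecEX2.{u}) (hN : NoT G) {T : Set V} (hR : RK G T) {x : V}
    (hx : x ∈ cl G T) (hxT : x ∉ T) (hu : ∀ p ∈ S, ∀ q ∈ S, G.Adj x p → G.Adj x q → p = q) :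
    ∃ e ∈ T, ∃ f ∈ T, e ∉ S ∧ f ∉ S ∧ e ≠ f ∧ G.Adj x e ∧ G.Adj x f := by
  rcases hx with hx | ⟨a, ha, b, hb, hab, h1, h2⟩
  · exact absurd hx hxT
  · obtain ⟨w, hw, hwa, hwb, h3⟩ := ex3 hEX2 hN hR hxT ha hb hab h1 h2
    by_cases haS : a ∈ S
    · exact ⟨b, hb, w, hw, fun h => hab (hu a haS b h h1 h2), fun h => hwa (hu w h a haS h3 h1),
        Ne.symm hwb, h2, h3⟩
    · by_cases hbS : b ∈ S
      · exact ⟨a, ha, w, hw, haS, fun h => hwb (hu w h b hbS h3 h2), Ne.symm hwa, h1, h3⟩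
      · exact ⟨a, ha, b, hb, haS, hbS, hab, h1, h2⟩

/-- every element of the closure is in `D` or has a neighbour in `D` -/
theorem near (hGRW : SpecGRW.{u}) (hEX2 : SpecEX2.{u}) (hN : NoT G) (h : RK G D) {x : V}
    (hx : x ∈ Uc G D) : x ∈ D ∨ ∃ d ∈ D, G.Adj x d := by
  classical
  have hex : ∃ n, x ∈ lev G D n := Set.mem_iUnion.mp hx
  obtain ⟨k, hk, hmin⟩ : ∃ k, x ∈ lev G D k ∧ ∀ m < k, x ∉ lev G D m :=
    ⟨Nat.find hex, Nat.find_spec hex, fun m hm => Nat.find_min hex hm⟩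
  match k, hk, hmin with
  | 0, hk, _ => exact Or.inl hk
  | 1, hk, hmin =>
    rcases hk with hk | ⟨a, ha, b, hb, hab, h1, h2⟩
    · exact Or.inl hk
    · exact Or.inr ⟨a, ha, h1⟩
  | m + 2, hk, hmin =>
    have hxm : x ∉ lev G D m := hmin m (by omega)
    have hxm1 : x ∉ lev G D (m + 1) := hmin (m + 1) (by omega)
    have hu : ∀ p ∈ lev G D m, ∀ q ∈ lev G D m, G.Adj x p → G.Adj x q → p = q := by
      intro p hp q hq h1 h2
      by_contra hpq
      exact hxm1 (mem_cl hp hq hpq h1 h2)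
    obtain ⟨e, he, f, hf, heS, hfS, hef, h1, h2⟩ :=
      two_new (S := lev G D m) hEX2 hN (rk_lev hGRW h (m + 1)) hk hxm1 hu
    by_cases hz : ∃ z ∈ lev G D m, G.Adj x z
    · obtain ⟨z, hz, hxz⟩ := hz
      by_cases hzD : z ∈ D
      · exact Or.inr ⟨z, hzD, hxz⟩
      · exfalso
        have hexz : ∃ n, z ∈ lev G D n := ⟨m, hz⟩
        obtain ⟨j, hj, hjm⟩ : ∃ j, z ∉ lev G D j ∧ j + 1 ≤ m := by
          have hfs := Nat.find_spec hexz
          have hle : Nat.find hexz ≤ m := Nat.find_min' hexz hz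
          have hne : Nat.find hexz ≠ 0 := by
            intro h0
            rw [h0] at hfs
            exact hzD hfs
          exact ⟨Nat.find hexz - 1, Nat.find_min hexz (by omega), by omega⟩
        obtain ⟨i, rfl⟩ := Nat.exists_eq_add_of_le hjm
        have hRS : RK G (lev G D (j + 1 + i) \ {z}) := rk_del hGRW hEX2 hN h hj i
        have hRL := rk_lev hGRW h (j + 1 + i)
        refine two_only hGRW hEX2 hN hRS (fun hy => hxm hy.1)
          (cl_del hEX2 hN hRL he (fun hy => heS (hy ▸ hz)))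
          (cl_del hEX2 hN hRL hf (fun hy => hfS (hy ▸ hz))) hef h1 h2 ?_
        intro y hy hxy
        exact hy.2 (hu y hy.1 z hz hxy hxz)
    · exfalso
      exact two_only hGRW hEX2 hN (rk_lev hGRW h m) hxm he hf hef h1 h2
        (fun z hz' hxz => hz ⟨z, hz', hxz⟩)

end DISM

theorem specDIS (hGRW : SpecGRW.{u}) (hEX2 : SpecEX2.{u}) : SpecDIS.{u} := by
  intro V G hN D hR x hx
  rcases DISM.near hGRW hEX2 hN hR hx with h | ⟨d, hd, hxd⟩
  · exact ⟨x, h, x, Or.inl rfl, Or.inl rfl⟩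
  · exact ⟨d, hd, x, Or.inl rfl, Or.inr hxd⟩

end Pool.Agent.Lib.MPbafc89.KP

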