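import Pool.Agent.Lib.MP_bafc89_co.KP.Spec

/-!
# MP_bafc89_co, module EX2
-/

set_option autoImplicit false

namespace Pool.Agent.Lib.MPbafc89.KP

open SimpleGraph
open Pool.Agent.Lib.MPbafc89.BQ (Jn Cn)
open Pool.Agent.Lib.MPbafc89.KE (Tch qg IsMinor IsInducedMinor)

universe u

theorem specEX2 : SpecEX2.{u} := by
  intro V G hNo D C hD hC hCD a ha b hb hab hca hcb
  obtain ⟨A, B, C', E, hK, hA, hB, hC', hE, haA, hbB⟩ := hD a ha b hb hab
  obtain ⟨c, hc, hadj⟩ := hca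
  obtain ⟨c', hc', hadj'⟩ := hcb
  rcases hNo A B C' E C hK hC (hCD.mono_right hA) (hCD.mono_right hB) (hCD.mono_right hC')
    (hCD.mono_right hE) ⟨c, hc, a, haA, hadj⟩ ⟨c', hc', b, hbB, hadj'⟩ with h | h
  · obtain ⟨x, hx, z, hz, hxz⟩ := h
    refine ⟨z, hC' hz, ?_, ?_, x, hx, hxz⟩
    · rintro rfl
      exact Set.disjoint_left.1 hK.dAC haA hz
    · rintro rfl
      exact Set.disjoint_left.1 hK.dBC hbB hz
  · obtain ⟨x, hx, z, hz, hxz⟩ := h
    refine ⟨z, hE hz, ?_, ?_, x, hx, hxz⟩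
    · rintro rfl
      exact Set.disjoint_left.1 hK.dAD haA hz
    · rintro rfl
      exact Set.disjoint_left.1 hK.dBD hbB hz

end Pool.Agent.Lib.MPbafc89.KP
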