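import Pool.Agent.Lib.MP_bafc89_co.KP.Spec

/-!
# MP_bafc89_co, KP, module GAT: the gate has at most one element
-/

set_option autoImplicit false

namespace Pool.Agent.Lib.MPbafc89.KP

open SimpleGraph
open Pool.Agent.Lib.MPbafc89.BQ (Jn Cn)
open Pool.Agent.Lib.MPbafc89.KE (Tch qg IsMinor IsInducedMinor)

universe u v

namespace GATM

variable {V : Type u} {G : SimpleGraph V}

/-- the part of the complement of `U` joined to `r` is connected -/
theorem comp_cn {S : Set V} {r : V} (hr : r ∈ S) : Cn G {y | Jn G S r y} := by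
  refine Cn.of_center (c := r) (Jn.refl hr) ?_
  intro y hy
  have hy' : Jn G S r y := hy
  refine (hy'.induct (fun z => Jn G S r z ∧ Jn G {y | Jn G S r y} r z)
    ⟨Jn.refl hr, Jn.refl (Jn.refl hr)⟩ ?_).2
  rintro a b ha hb hab ⟨h1, h2⟩
  have h3 : Jn G S r b := h1.trans (Jn.adj ha hb hab)
  exact ⟨h3, h2.trans (Jn.adj h1 h3 hab)⟩

theorem rt_eq {z z' : V} (h : G.edist z z' ≤ 7) : rt G z = rt G z' := by
  have h1 : G.edist z z' ≠ ⊤ := by
    intro h2
    rw [h2] at h
    exact absurd h (by decide)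
  have h2 : G.Reachable z z' := SimpleGraph.edist_ne_top_iff_reachable.1 h1
  have h3 : G.connectedComponentMk z = G.connectedComponentMk z' :=
    SimpleGraph.ConnectedComponent.eq.2 h2
  unfold rt
  rw [h3]

end GATM

theorem specGAT : SpecGAT.{u} := by
  intro V G U hU z hz z' hz'
  obtain ⟨hzU, hz2⟩ := hz
  obtain ⟨hzU', hz2'⟩ := hz'
  have hr : rt G z = rt G z' := GATM.rt_eq (hU.dia z hzU z' hzU')
  rcases hz2 with hz2 | ⟨y, hy, hyz⟩
  · rcases hz2' with hz2' | ⟨y', hy', -⟩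
    · rw [hz2, hz2', hr]
    · exfalso
      have h1 : rt G z' ∈ Uᶜ := hy'.left
      rw [← hr, ← hz2] at h1
      exact h1 hzU
  · rcases hz2' with hz2' | ⟨y', hy', hyz'⟩
    · exfalso
      have h1 : rt G z ∈ Uᶜ := hy.left
      rw [hr, ← hz2'] at h1
      exact h1 hzU'
    · have hr1 : rt G z ∈ Uᶜ := hy.left
      rw [← hr] at hy'
      refine hU.clo {y | Jn G Uᶜ (rt G z) y} (GATM.comp_cn hr1) ?_ z hzU z' hzU'
        ⟨y, hy, hyz⟩ ⟨y', hy', hyz'⟩
      rw [Set.disjoint_left]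
      intro c hc hcU
      have hc' : Jn G Uᶜ (rt G z) c := hc
      exact hc'.right hcU

end Pool.Agent.Lib.MPbafc89.KP
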