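import Pool.Agent.Lib.MP_bafc89_co.KP.Spec

/-!
# MP_bafc89_co, module GRW: adding vertices with at least two neighbours keeps `RK`
-/

set_option autoImplicit false

namespace Pool.Agent.Lib.MPbafc89.KP

open SimpleGraph
open Pool.Agent.Lib.MPbafc89.BQ (Jn Cn)
open Pool.Agent.Lib.MPbafc89.KE (Tch qg IsMinor IsInducedMinor)

universe u

namespace GRWM

variable {V : Type u} {G : SimpleGraph V}

theorem swapAB {A B C E : Set V} (h : K4 G A B C E) : K4 G B A C E :=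
  ⟨h.cB, h.cA, h.cC, h.cD, h.dAB.symm, h.dBC, h.dBD, h.dAC, h.dAD, h.dCD, h.tAB.symm, h.tBC,
    h.tBD, h.tAC, h.tAD, h.tCD⟩

theorem insA {A B C E : Set V} (h : K4 G A B C E) {a a' : V} (ha' : a' ∈ A)
    (h1 : a = a' ∨ G.Adj a a') (nB : a ∉ B) (nC : a ∉ C) (nE : a ∉ E) :
    K4 G (insert a A) B C E := by
  have hc : Cn G (insert a A) := by
    rcases h1 with rfl | h1
    · rw [Set.insert_eq_of_mem ha']
      exact h.cA
    · have h2 := Cn.union_adj (Cn.singleton (G := G) a) h.cA (Set.mem_singleton a) ha' h1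
      rwa [Set.singleton_union] at h2
  refine ⟨hc, h.cB, h.cC, h.cD, ?_, ?_, ?_, h.dBC, h.dBD, h.dCD,
    h.tAB.mono (Set.subset_insert _ _) le_rfl, h.tAC.mono (Set.subset_insert _ _) le_rfl,
    h.tAD.mono (Set.subset_insert _ _) le_rfl, h.tBC, h.tBD, h.tCD⟩
  · exact Set.disjoint_insert_left.mpr ⟨nB, h.dAB⟩
  · exact Set.disjoint_insert_left.mpr ⟨nC, h.dAC⟩
  · exact Set.disjoint_insert_left.mpr ⟨nE, h.dAD⟩

theorem pick {D : Set V} {x y : V} (hx : x ∈ cl G D) (hxy : x ≠ y) :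
    ∃ x' ∈ D, x' ≠ y ∧ (x = x' ∨ (x ∉ D ∧ G.Adj x x')) := by
  by_cases hD : x ∈ D
  · exact ⟨x, hD, hxy, Or.inl rfl⟩
  · rcases hx with h | ⟨p, hp, q, hq, hpq, hxp, hxq⟩
    · exact absurd h hD
    · by_cases hpy : p = y
      · exact ⟨q, hq, fun h => hpq (hpy.trans h.symm), Or.inr ⟨hD, hxq⟩⟩
      · exact ⟨p, hp, hpy, Or.inr ⟨hD, hxp⟩⟩

end GRWM

theorem specGRW : SpecGRW.{u} := by
  intro V G D S hD hDS hS a ha b hb hab
  obtain ⟨a', ha'D, ha'b, ha1⟩ := GRWM.pick (hS ha) hab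
  obtain ⟨b', hb'D, hb'a, hb1⟩ := GRWM.pick (hS hb) (Ne.symm ha'b)
  obtain ⟨A, B, C, E, hK, hA, hB, hC, hE, haA, hbB⟩ := hD a' ha'D b' hb'D (Ne.symm hb'a)
  have nB : a ∉ B := by
    rcases ha1 with rfl | ⟨h, -⟩
    · exact Set.disjoint_left.mp hK.dAB haA
    · exact fun h' => h (hB h')
  have nC : a ∉ C := by
    rcases ha1 with rfl | ⟨h, -⟩
    · exact Set.disjoint_left.mp hK.dAC haA
    · exact fun h' => h (hC h')
  have nE : a ∉ E := by
    rcases ha1 with rfl | ⟨h, -⟩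
    · exact Set.disjoint_left.mp hK.dAD haA
    · exact fun h' => h (hE h')
  have mA : b ∉ A := by
    rcases hb1 with rfl | ⟨h, -⟩
    · exact Set.disjoint_right.mp hK.dAB hbB
    · exact fun h' => h (hA h')
  have mC : b ∉ C := by
    rcases hb1 with rfl | ⟨h, -⟩
    · exact Set.disjoint_left.mp hK.dBC hbB
    · exact fun h' => h (hC h')
  have mE : b ∉ E := by
    rcases hb1 with rfl | ⟨h, -⟩
    · exact Set.disjoint_left.mp hK.dBD hbB
    · exact fun h' => h (hE h')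
  have k1 : K4 G (insert a A) B C E := GRWM.insA hK haA (ha1.imp id And.right) nB nC nE
  have k2 : K4 G (insert b B) (insert a A) C E := by
    refine GRWM.insA (GRWM.swapAB k1) hbB (hb1.imp id And.right) ?_ mC mE
    rintro (h | h)
    · exact hab h.symm
    · exact mA h
  refine ⟨insert a A, insert b B, C, E, GRWM.swapAB k2, ?_, ?_, hC.trans hDS, hE.trans hDS,
    Set.mem_insert _ _, Set.mem_insert _ _⟩
  · exact Set.insert_subset ha (hA.trans hDS)
  · exact Set.insert_subset hb (hB.trans hDS)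

end Pool.Agent.Lib.MPbafc89.KP
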