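import Pool.Agent.Lib.MP_bafc89_co.KP.Spec

/-!
# Module INT: two different blocks have at most one common vertex
-/

set_option autoImplicit false

namespace Pool.Agent.Lib.MPbafc89.KP

open SimpleGraph
open Pool.Agent.Lib.MPbafc89.BQ (Jn Cn)
open Pool.Agent.Lib.MPbafc89.KE (Tch qg IsMinor IsInducedMinor)

universe u v

namespace INTM

variable {V : Type u} {G : SimpleGraph V}

theorem cn_reach {S : Set V} {z : V} (hz : z ∈ S) : Cn G {c | Jn G S z c} := by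
  have hzC : z ∈ {c | Jn G S z c} := Jn.refl hz
  refine Cn.of_center hzC ?_
  intro c hc
  have hc' : Jn G S z c := hc
  refine hc'.induct (P := fun b => Jn G {c | Jn G S z c} z b) (Jn.refl hzC) ?_
  intro a b ha hb hab hPa
  have haC : Jn G S z a := hPa.right
  have hbC : Jn G S z b := haC.trans (Jn.adj ha hb hab)
  exact hPa.trans (Jn.adj (show a ∈ {c | Jn G S z c} from haC) hbC hab)

/-- Along a walk in `U' \ {x}` from `z` to a vertex of `U` one leaves the component of `z`. -/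
theorem leave {U U' : Set V} {x y z : V} (hzU : z ∉ U) (hz : z ∈ U') (hyU : y ∈ U)
    (h : Jn G (U' \ {x}) z y) : ∃ c, Jn G (U' \ U) z c ∧ ∃ a ∈ U, a ≠ x ∧ G.Adj c a := by
  have key : Jn G (U' \ U) z y ∨ ∃ c, Jn G (U' \ U) z c ∧ ∃ a ∈ U, a ≠ x ∧ G.Adj c a := by
    refine h.induct (P := fun b => Jn G (U' \ U) z b ∨
      ∃ c, Jn G (U' \ U) z c ∧ ∃ a ∈ U, a ≠ x ∧ G.Adj c a) (Or.inl (Jn.refl ⟨hz, hzU⟩)) ?_
    intro a b ha hb hab hPa
    rcases hPa with hPa | hPa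
    · by_cases hbU : b ∈ U
      · exact Or.inr ⟨a, hPa, b, hbU, hb.2, hab⟩
      · exact Or.inl (hPa.trans (Jn.adj hPa.right ⟨hb.1, hbU⟩ hab))
    · exact Or.inr hPa
  rcases key with h | h
  · exact absurd hyU h.right.2
  · exact h

theorem sub {U U' : Set V} (hU : Bl G U) (hU' : Bl G U') {x y : V} (hx : x ∈ U) (hx' : x ∈ U')
    (hy : y ∈ U) (hy' : y ∈ U') (hxy : x ≠ y) : U' ⊆ U := by
  intro z hz
  by_contra hzU
  have hzx : z ≠ x := fun h => hzU (h ▸ hx)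
  have hC : Cn G {c | Jn G (U' \ U) z c} := cn_reach ⟨hz, hzU⟩
  have hdis : Disjoint {c | Jn G (U' \ U) z c} U := by
    rw [Set.disjoint_left]
    intro c hc hcU
    exact (Jn.right hc).2 hcU
  obtain ⟨c, hc, a, haU, hax, hca⟩ := leave hzU hz hy
    ((hU'.two x).2 z ⟨hz, hzx⟩ y ⟨hy', hxy.symm⟩)
  have hza : z ≠ a := fun h => hzU (h ▸ haU)
  obtain ⟨c', hc', b, hbU, hba, hcb⟩ := leave hzU hz hx
    ((hU'.two a).2 z ⟨hz, hza⟩ x ⟨hx', hax.symm⟩)
  exact hba (hU.clo _ hC hdis a haU b hbU ⟨c, hc, hca⟩ ⟨c', hc', hcb⟩).symm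

end INTM

open INTM in
theorem specINT : SpecINT.{u} := by
  intro V G U U' hU hU' hne x y hx hx' hy hy'
  by_contra hxy
  exact hne (Set.Subset.antisymm (sub hU' hU hx' hx hy' hy hxy) (sub hU hU' hx hx' hy hy' hxy))

end Pool.Agent.Lib.MPbafc89.KP
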