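import Pool.Agent.Lib.MP_bafc89_co.KP.Spec

/-! MAJ: the main theorem in the language of the specification. -/

set_option autoImplicit false

namespace Pool.Agent.Lib.MPbafc89.KP

open SimpleGraph
open Pool.Agent.Lib.MPbafc89.BQ (Jn Cn)
open Pool.Agent.Lib.MPbafc89.KE (Tch qg IsMinor IsInducedMinor)

universe u

namespace MAJM

lemma cn_diff {V : Type u} {G : SimpleGraph V} {U T : Set V} (hU : Bl G U)
    (hT : T.Subsingleton) (hnb : ∀ x ∈ U, ∃ y ∈ U, G.Adj x y) {x : V} (hx : x ∈ U) :
    Cn G (U \ T) := by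
  rcases T.eq_empty_or_nonempty with h | ⟨t, ht⟩
  · rw [h, Set.diff_empty]
    obtain ⟨y, hy, hxy⟩ := hnb x hx
    have h1 : Cn G ((U \ {x}) ∪ {x}) :=
      Cn.union_adj (hU.two x) (Cn.singleton x) (c := y) (d := x)
        ⟨hy, fun h => hxy.ne (Set.mem_singleton_iff.1 h).symm⟩ (Set.mem_singleton x) hxy.symm
    have e : (U \ {x}) ∪ {x} = U := by
      rw [Set.diff_union_self]
      exact Set.union_eq_self_of_subset_right (Set.singleton_subset_iff.2 hx)
    rwa [e] at h1
  · have e : T = {t} := hT.eq_singleton_of_mem ht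
    rw [e]
    exact hU.two t

end MAJM

open MAJM in
/-- The main theorem. -/
theorem specMAJ (hBLK : SpecBLK.{u}) (hCNB : SpecCNB.{u}) (hINT : SpecINT.{u})
    (hGAT : SpecGAT.{u}) (hUNI : SpecUNI.{u}) (hSTD : SpecSTD.{u}) (hQI7 : SpecQI7.{u})
    (hQNT : SpecQNT.{u}) (hNM5 : SpecNM5.{u}) : SpecMAJ.{u} := by
  intro V G hG
  have hBl : ∀ U, (∃ D, Core G D ∧ U = Uc G D) → Bl G U := by
    rintro U ⟨D, hD, rfl⟩
    exact hBLK V G hG D hD
  have hnb : ∀ U, (∃ D, Core G D ∧ U = Uc G D) → ∀ x ∈ U, ∃ y ∈ U, G.Adj x y := by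
    rintro U ⟨D, hD, rfl⟩
    exact hCNB V G D hD
  have hdis : ∀ U U' v, (∃ D, Core G D ∧ U = Uc G D) → (∃ D, Core G D ∧ U' = Uc G D) → U ≠ U' →
      v ∈ U → v ∈ U' → v ∈ gate G U ∨ v ∈ gate G U' := fun U U' v hU hU' hne hv hv' =>
    hUNI V G U U' (hBl U hU) (hBl U' hU') hne (hnb U hU) (hnb U' hU') v hv hv'
  have hgt : ∀ U, (∃ D, Core G D ∧ U = Uc G D) → (gate G U).Subsingleton :=
    fun U hU => hGAT V G U (hBl U hU)
  obtain ⟨s, hs⟩ := hSTD V (fun U => ∃ D, Core G D ∧ U = Uc G D) (gate G) hdis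
  have hcl : ∀ x, Cn G {y | s x y} := by
    intro x
    by_cases h : ∃ U, (∃ D, Core G D ∧ U = Uc G D) ∧ x ∈ U \ gate G U
    · obtain ⟨U, hU, hx⟩ := h
      have e : {y | s x y} = U \ gate G U := by
        ext y
        constructor
        · intro hy
          rcases (hs x y).1 hy with rfl | ⟨U', hU', hx', hy'⟩
          · exact hx
          · by_cases hne : U = U'
            · subst hne
              exact hy'
            · rcases hdis U U' x hU hU' hne hx.1 hx'.1 with h1 | h1
              · exact absurd h1 hx.2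
              · exact absurd h1 hx'.2
        · intro hy
          exact (hs x y).2 (Or.inr ⟨U, hU, hx, hy⟩)
      rw [e]
      exact cn_diff (hBl U hU) (hgt U hU) (hnb U hU) hx.1
    · have e : {y | s x y} = {x} := by
        ext y
        constructor
        · intro hy
          rcases (hs x y).1 hy with rfl | ⟨U', hU', hx', hy'⟩
          · rfl
          · exact absurd ⟨U', hU', hx'⟩ h
        · intro hy
          rw [Set.mem_singleton_iff] at hy
          subst hy
          exact (hs y y).2 (Or.inl rfl)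
      rw [e]
      exact Cn.singleton x
  have hdia : ∀ x y, s x y → G.edist x y ≤ 7 := by
    intro x y h
    rcases (hs x y).1 h with rfl | ⟨U, hU, hx, hy⟩
    · rw [SimpleGraph.edist_self]
      exact zero_le
    · exact (hBl U hU).dia x hx.1 y hy.1
  exact ⟨Quotient s, qg G s, Quotient.mk s, Quotient.mk_surjective,
    fun x y => (hQI7 V G s hdia x y).1, fun x y => (hQI7 V G s hdia x y).2,
    hQNT V G s hcl hG, hNM5 V G hG s (gate G) hcl hs hdis hgt
      (fun U U' hU hU' hne x y h1 h2 h3 h4 =>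
        hINT V G U U' (hBl U hU) (hBl U' hU') hne x y h1 h2 h3 h4)⟩

end Pool.Agent.Lib.MPbafc89.KP
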