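import Pool.Agent.Lib.MP_bafc89_co.KP.Spec

/-!
# MP_bafc89_co, module MIN: a smallest model of `K_5` minus an edge
-/

set_option autoImplicit false

namespace Pool.Agent.Lib.MPbafc89.KP

open SimpleGraph
open Pool.Agent.Lib.MPbafc89.BQ (Jn Cn)
open Pool.Agent.Lib.MPbafc89.KE (Tch qg IsMinor IsInducedMinor)

universe u

theorem specMIN (hSH5 : SpecSH5.{u}) : SpecMIN.{u} := by
  classical
  intro V G P Q A B C hk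
  obtain ⟨P₀, Q₀, A₀, B₀, C₀, hk₀, fP₀, fQ₀, fA₀, fB₀, fC₀⟩ := hSH5 V G P Q A B C hk
  have hex : ∃ n : ℕ, ∃ P' Q' A' B' C' : Set V, K5m G P' Q' A' B' C' ∧ P'.Finite ∧ Q'.Finite ∧
      A'.Finite ∧ B'.Finite ∧ C'.Finite ∧
      P'.ncard + Q'.ncard + A'.ncard + B'.ncard + C'.ncard = n :=
    ⟨_, P₀, Q₀, A₀, B₀, C₀, hk₀, fP₀, fQ₀, fA₀, fB₀, fC₀, rfl⟩
  obtain ⟨P₁, Q₁, A₁, B₁, C₁, hk₁, fP, fQ, fA, fB, fC, hn⟩ := Nat.find_spec hex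
  refine ⟨P₁, Q₁, A₁, B₁, C₁, hk₁, fP, fQ, fA, fB, fC, ?_⟩
  intro P' Q' A' B' C' k p q a b c
  rw [hn]
  exact Nat.find_min' hex ⟨P', Q', A', B', C', k, p, q, a, b, c, rfl⟩

end Pool.Agent.Lib.MPbafc89.KP
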