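import Pool.Agent.Lib.MP_bafc89_co.KP.Spec

/-!
# MMT: with `NoT G` a minor model of `H` gives a model of `K_5` minus an edge
-/

set_option autoImplicit false

namespace Pool.Agent.Lib.MPbafc89.KP

open SimpleGraph
open Pool.Agent.Lib.MPbafc89.BQ (Jn Cn)
open Pool.Agent.Lib.MPbafc89.KE (Tch qg IsMinor IsInducedMinor)

universe u v

namespace MMTM

theorem two_more {α : Type v} (hfin : Finite α) (hcard : Nat.card α = 5) (a b c : α)
    (hab : a ≠ b) (hac : a ≠ c) (hbc : b ≠ c) :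
    ∃ d e : α, d ≠ e ∧ d ≠ a ∧ d ≠ b ∧ d ≠ c ∧ e ≠ a ∧ e ≠ b ∧ e ≠ c := by
  classical
  haveI : Fintype α := Fintype.ofFinite α
  have hcardF : Fintype.card α = 5 := by rw [← Nat.card_eq_fintype_card, hcard]
  have h3 : ({a, b, c} : Finset α).card = 3 := by
    rw [Finset.card_insert_of_notMem, Finset.card_pair hbc]
    simp [hab, hac]
  have h2 : (Finset.univ \ ({a, b, c} : Finset α)).card = 2 := by
    rw [Finset.card_sdiff_of_subset (Finset.subset_univ _), Finset.card_univ, hcardF, h3]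
  obtain ⟨d, e, hde, hs⟩ := Finset.card_eq_two.1 h2
  have hd : d ∈ Finset.univ \ ({a, b, c} : Finset α) := by rw [hs]; simp
  have he : e ∈ Finset.univ \ ({a, b, c} : Finset α) := by rw [hs]; simp
  simp only [Finset.mem_sdiff, Finset.mem_univ, Finset.mem_insert, Finset.mem_singleton, true_and,
    not_or] at hd he
  exact ⟨d, e, hde, hd.1, hd.2.1, hd.2.2, he.1, he.2.1, he.2.2⟩

end MMTM

theorem specMMT : SpecMMT.{u, v} := by
  intro V G α H hH hNoT hM
  obtain ⟨hfin, hcard, a, b, c, hab, hac, hbc, hadj⟩ := hH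
  obtain ⟨M, hMc, hdis, htch⟩ := hM
  obtain ⟨d, e, hde, hda, hdb, hdc, hea, heb, hec⟩ :=
    MMTM.two_more hfin hcard a b c hab hac hbc
  have hcn : ∀ x, Cn G (M x) := fun x => BQ.cn_iff.2 (hMc x)
  have hT : ∀ x y : α, x ≠ y → ¬ (x = a ∧ y = b) → ¬ (x = b ∧ y = a) → ¬ (x = a ∧ y = c) →
      ¬ (x = c ∧ y = a) → Tch G (M x) (M y) := fun x y h0 h1 h2 h3 h4 =>
    htch x y ((hadj x y).2 ⟨h0, h1, h2, h3, h4⟩)
  have tde : Tch G (M d) (M e) := hT d e hde (fun h => hda h.1) (fun h => hdb h.1)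
    (fun h => hda h.1) (fun h => hdc h.1)
  have tdb : Tch G (M d) (M b) := hT d b hdb (fun h => hda h.1) (fun h => hdb h.1)
    (fun h => hda h.1) (fun h => hdc h.1)
  have tdc : Tch G (M d) (M c) := hT d c hdc (fun h => hda h.1) (fun h => hdb h.1)
    (fun h => hda h.1) (fun h => hdc h.1)
  have teb : Tch G (M e) (M b) := hT e b heb (fun h => hea h.1) (fun h => heb h.1)
    (fun h => hea h.1) (fun h => hec h.1)
  have tec : Tch G (M e) (M c) := hT e c hec (fun h => hea h.1) (fun h => heb h.1)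
    (fun h => hea h.1) (fun h => hec h.1)
  have tad : Tch G (M a) (M d) := hT a d hda.symm (fun h => hdb h.2) (fun h => hda h.2)
    (fun h => hdc h.2) (fun h => hda h.2)
  have tae : Tch G (M a) (M e) := hT a e hea.symm (fun h => heb h.2) (fun h => hea h.2)
    (fun h => hec h.2) (fun h => hea h.2)
  have tbc : Tch G (M b) (M c) := hT b c hbc (fun h => hab h.1.symm) (fun h => hac h.2.symm)
    (fun h => hab h.1.symm) (fun h => hbc h.1)
  have hK : K4 G (M d) (M e) (M b) (M c) :=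
    ⟨hcn d, hcn e, hcn b, hcn c, hdis d e hde, hdis d b hdb, hdis d c hdc, hdis e b heb,
      hdis e c hec, hdis b c hbc, tde, tdb, tdc, teb, tec, tbc⟩
  rcases hNoT (M d) (M e) (M b) (M c) (M a) hK (hcn a) (hdis a d hda.symm) (hdis a e hea.symm)
    (hdis a b hab) (hdis a c hac) tad tae with h | h
  · exact ⟨M a, M c, M d, M e, M b,
      ⟨hcn a, hcn c, hcn d, hcn e, hcn b, hdis a c hac, hdis a d hda.symm, hdis a e hea.symm,
        hdis a b hab, hdis c d hdc.symm, hdis c e hec.symm, hdis c b hbc.symm, hdis d e hde,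
        hdis d b hdb, hdis e b heb, tad, tae, h, tdc.symm, tec.symm, tbc.symm, tde, tdb, teb⟩⟩
  · exact ⟨M a, M b, M d, M e, M c,
      ⟨hcn a, hcn b, hcn d, hcn e, hcn c, hdis a b hab, hdis a d hda.symm, hdis a e hea.symm,
        hdis a c hac, hdis b d hdb.symm, hdis b e heb.symm, hdis b c hbc, hdis d e hde,
        hdis d c hdc, hdis e c hec, tad, tae, h, tdb.symm, teb.symm, tbc, tde, tdc, tec⟩⟩

end Pool.Agent.Lib.MPbafc89.KP
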