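import Pool.Agent.Lib.MP_bafc89_co.KP.Spec

/-! MP_bafc89_co, module MNT: `NoT G` is the exclusion of the induced minor `K_5` minus two adjacent
edges (helper64). -/

set_option autoImplicit false

namespace Pool.Agent.Lib.MPbafc89.KP

open SimpleGraph
open Pool.Agent.Lib.MPbafc89.BQ (Jn Cn cn_iff)
open Pool.Agent.Lib.MPbafc89.KE (Tch qg IsMinor IsInducedMinor)

universe u v

namespace MNTM

/-- the adjacency of `H` on the numbers of the vertices -/
def A5 (i j : Fin 5) : Prop :=
  i ≠ j ∧ ¬ (i = 0 ∧ j = 1) ∧ ¬ (i = 1 ∧ j = 0) ∧ ¬ (i = 0 ∧ j = 2) ∧ ¬ (i = 2 ∧ j = 0)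

instance : DecidableRel A5 := fun i j => by unfold A5; infer_instance

/-- a numbering of the vertices -/
theorem exists_num {α : Type v} {H : SimpleGraph α} (h : IsFiveMinusPath H) :
    ∃ g : Fin 5 → α, Function.Bijective g ∧ ∀ i j, H.Adj (g i) (g j) ↔ A5 i j := by
  classical
  obtain ⟨hf, hc, a, b, c, hab, hac, hbc, hadj⟩ := h
  have := Fintype.ofFinite α
  have h1 : Fintype.card α = 5 := by rw [← Nat.card_eq_fintype_card]; exact hc
  have h2 : ((((Finset.univ : Finset α).erase a).erase b).erase c).card = 2 := by
    rw [Finset.card_erase_of_mem (by simp [hac.symm, hbc.symm]),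
      Finset.card_erase_of_mem (by simp [hab.symm]),
      Finset.card_erase_of_mem (Finset.mem_univ a), Finset.card_univ, h1]
  obtain ⟨d, e, hde, h3⟩ := Finset.card_eq_two.1 h2
  have hd : d ∈ (((Finset.univ : Finset α).erase a).erase b).erase c := by rw [h3]; simp
  have he : e ∈ (((Finset.univ : Finset α).erase a).erase b).erase c := by rw [h3]; simp
  simp only [Finset.mem_erase, Finset.mem_univ, and_true] at hd he
  obtain ⟨hdc, hdb, hda⟩ := hd
  obtain ⟨hec, heb, hea⟩ := he
  have hinj : Function.Injective ![a, b, c, d, e] := by
    intro i j hij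
    fin_cases i <;> fin_cases j <;>
      first
        | rfl
        | exact absurd hij hab
        | exact absurd hij hab.symm
        | exact absurd hij hac
        | exact absurd hij hac.symm
        | exact absurd hij hbc
        | exact absurd hij hbc.symm
        | exact absurd hij hdc
        | exact absurd hij hdc.symm
        | exact absurd hij hdb
        | exact absurd hij hdb.symm
        | exact absurd hij hda
        | exact absurd hij hda.symm
        | exact absurd hij hec
        | exact absurd hij hec.symm
        | exact absurd hij heb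
        | exact absurd hij heb.symm
        | exact absurd hij hea
        | exact absurd hij hea.symm
        | exact absurd hij hde
        | exact absurd hij hde.symm
  refine ⟨![a, b, c, d, e], (Fintype.bijective_iff_injective_and_card _).2
    ⟨hinj, by rw [h1, Fintype.card_fin]⟩, fun i j => ?_⟩
  have e0 : ∀ i, ![a, b, c, d, e] i = a ↔ i = 0 := fun i => hinj.eq_iff' rfl
  have e1 : ∀ i, ![a, b, c, d, e] i = b ↔ i = 1 := fun i => hinj.eq_iff' rfl
  have e2 : ∀ i, ![a, b, c, d, e] i = c ↔ i = 2 := fun i => hinj.eq_iff' rfl
  rw [hadj, e0, e0, e1, e1, e2, e2, hinj.ne_iff]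
  rfl

end MNTM

theorem specMNT : SpecMNT.{u, v} := by
  intro V G α H hH
  obtain ⟨g, hg, hadj⟩ := MNTM.exists_num hH
  constructor
  · rintro hN ⟨C, hcn, hdis, htch⟩
    have hc : ∀ i, Cn G (C (g i)) := fun i => cn_iff.2 (hcn _)
    have hd : ∀ i j, i ≠ j → Disjoint (C (g i)) (C (g j)) := fun i j hij =>
      hdis _ _ (hg.1.ne hij)
    have ht : ∀ i j, MNTM.A5 i j → Tch G (C (g i)) (C (g j)) := fun i j hij =>
      (htch _ _ (hg.1.ne hij.1)).1 ((hadj i j).2 hij)
    have hn : ∀ i j, i ≠ j → Tch G (C (g i)) (C (g j)) → MNTM.A5 i j := fun i j hij h =>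
      (hadj i j).1 ((htch _ _ (hg.1.ne hij)).2 h)
    have h4 : K4 G (C (g 3)) (C (g 4)) (C (g 1)) (C (g 2)) :=
      ⟨hc 3, hc 4, hc 1, hc 2, hd _ _ (by decide), hd _ _ (by decide), hd _ _ (by decide),
        hd _ _ (by decide), hd _ _ (by decide), hd _ _ (by decide), ht _ _ (by decide),
        ht _ _ (by decide), ht _ _ (by decide), ht _ _ (by decide), ht _ _ (by decide),
        ht _ _ (by decide)⟩
    rcases hN _ _ _ _ (C (g 0)) h4 (hc 0) (hd _ _ (by decide)) (hd _ _ (by decide))
      (hd _ _ (by decide)) (hd _ _ (by decide)) (ht _ _ (by decide)) (ht _ _ (by decide)) with h | h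
    · exact absurd (hn 0 1 (by decide) h) (by decide)
    · exact absurd (hn 0 2 (by decide) h) (by decide)
  · intro hM
    by_contra hN
    unfold NoT at hN
    push Not at hN
    obtain ⟨A, B, C, D, E, hK, cE, dEA, dEB, dEC, dED, tEA, tEB, nEC, nED⟩ := hN
    apply hM
    obtain ⟨F, hF⟩ : ∃ F : Fin 5 → Set V, F = ![E, C, D, A, B] := ⟨_, rfl⟩
    have hFc : ∀ i, Cn G (F i) := by
      intro i
      rw [hF]
      fin_cases i
      · exact cE
      · exact hK.cC
      · exact hK.cD
      · exact hK.cA
      · exact hK.cB
    have hFd : ∀ i j, i ≠ j → Disjoint (F i) (F j) := by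
      intro i j hij
      rw [hF]
      fin_cases i <;> fin_cases j <;>
        first
          | exact absurd rfl hij
          | exact dEA
          | exact dEA.symm
          | exact dEB
          | exact dEB.symm
          | exact dEC
          | exact dEC.symm
          | exact dED
          | exact dED.symm
          | exact hK.dAB
          | exact hK.dAB.symm
          | exact hK.dAC
          | exact hK.dAC.symm
          | exact hK.dAD
          | exact hK.dAD.symm
          | exact hK.dBC
          | exact hK.dBC.symm
          | exact hK.dBD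
          | exact hK.dBD.symm
          | exact hK.dCD
          | exact hK.dCD.symm
    have hFt : ∀ i j, i ≠ j → (MNTM.A5 i j ↔ Tch G (F i) (F j)) := by
      intro i j hij
      rw [hF]
      fin_cases i <;> fin_cases j <;>
        first
          | exact absurd rfl hij
          | exact iff_of_true (by decide) tEA
          | exact iff_of_true (by decide) tEA.symm
          | exact iff_of_true (by decide) tEB
          | exact iff_of_true (by decide) tEB.symm
          | exact iff_of_false (by decide) nEC
          | exact iff_of_false (by decide) (fun h => nEC (Tch.symm h))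
          | exact iff_of_false (by decide) nED
          | exact iff_of_false (by decide) (fun h => nED (Tch.symm h))
          | exact iff_of_true (by decide) hK.tAB
          | exact iff_of_true (by decide) hK.tAB.symm
          | exact iff_of_true (by decide) hK.tAC
          | exact iff_of_true (by decide) hK.tAC.symm
          | exact iff_of_true (by decide) hK.tAD
          | exact iff_of_true (by decide) hK.tAD.symm
          | exact iff_of_true (by decide) hK.tBC
          | exact iff_of_true (by decide) hK.tBC.symm
          | exact iff_of_true (by decide) hK.tBD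
          | exact iff_of_true (by decide) hK.tBD.symm
          | exact iff_of_true (by decide) hK.tCD
          | exact iff_of_true (by decide) hK.tCD.symm
    obtain ⟨e, he⟩ : ∃ e : Fin 5 ≃ α, ∀ i, e i = g i := ⟨Equiv.ofBijective g hg, fun i => rfl⟩
    refine ⟨fun x => F (e.symm x), fun x => cn_iff.1 (hFc _), fun x y hxy => hFd _ _ ?_,
      fun x y hxy => ?_⟩
    · exact fun h => hxy (e.symm.injective h)
    · have h1 : e.symm x ≠ e.symm y := fun h => hxy (e.symm.injective h)
      have h2 := hFt _ _ h1
      rw [← hadj, ← he, ← he, e.apply_symm_apply, e.apply_symm_apply] at h2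
      exact h2

end Pool.Agent.Lib.MPbafc89.KP
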