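import Pool.Agent.Lib.MP_bafc89_co.KP.Spec

/-!
# MP_bafc89_co, module MP1: in a smallest model `P` has one element
-/

set_option autoImplicit false

namespace Pool.Agent.Lib.MPbafc89.KP

open SimpleGraph
open Pool.Agent.Lib.MPbafc89.BQ (Jn Cn)
open Pool.Agent.Lib.MPbafc89.KE (Tch qg IsMinor IsInducedMinor)

universe u v

namespace MP1M

variable {V : Type u} {G : SimpleGraph V}

/-- `P` is split into two touching connected sets -/
structure Spl (G : SimpleGraph V) (P Y Z : Set V) : Prop where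
  cY : Cn G Y
  cZ : Cn G Z
  un : Y ∪ Z = P
  dis : Disjoint Y Z
  tch : Tch G Y Z

theorem Spl.symm {P Y Z : Set V} (s : Spl G P Y Z) : Spl G P Z Y :=
  ⟨s.cZ, s.cY, by rw [Set.union_comm]; exact s.un, s.dis.symm, s.tch.symm⟩

theorem Spl.subY {P Y Z : Set V} (s : Spl G P Y Z) : Y ⊆ P := by
  rw [← s.un]; exact Set.subset_union_left

theorem Spl.subZ {P Y Z : Set V} (s : Spl G P Y Z) : Z ⊆ P := by
  rw [← s.un]; exact Set.subset_union_right

theorem Spl.card {P Y Z : Set V} (s : Spl G P Y Z) (hP : P.Finite) :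
    P.ncard = Y.ncard + Z.ncard ∧ 1 ≤ Y.ncard ∧ 1 ≤ Z.ncard := by
  have fY := hP.subset s.subY
  have fZ := hP.subset s.subZ
  refine ⟨?_, (Set.ncard_pos fY).mpr s.cY.1, (Set.ncard_pos fZ).mpr s.cZ.1⟩
  rw [← s.un]
  exact Set.ncard_union_eq s.dis fY fZ

theorem Spl.touch {P Y Z S : Set V} (s : Spl G P Y Z) (h : Tch G P S) : Tch G Y S ∨ Tch G Z S := by
  obtain ⟨x, hx, y, hy, hxy⟩ := h
  rw [← s.un] at hx
  rcases hx with hx | hx
  · exact Or.inl ⟨x, hx, y, hy, hxy⟩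
  · exact Or.inr ⟨x, hx, y, hy, hxy⟩

/-- not all three bags are touched -/
theorem nf {P Q A B C Y Z : Set V} (h : Mn5 G P Q A B C) (s : Spl G P Y Z)
    (hA : Tch G Y A) (hB : Tch G Y B) (hC : Tch G Y C) : False := by
  have k := h.k
  have k' : K5m G Y Q A B C :=
    ⟨s.cY, k.cQ, k.cA, k.cB, k.cC, k.dPQ.mono_left s.subY, k.dPA.mono_left s.subY,
      k.dPB.mono_left s.subY, k.dPC.mono_left s.subY, k.dQA, k.dQB, k.dQC, k.dAB, k.dAC, k.dBC,
      hA, hB, hC, k.tQA, k.tQB, k.tQC, k.tAB, k.tAC, k.tBC⟩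
  have h1 := h.mn Y Q A B C k' (h.fP.subset s.subY) h.fQ h.fA h.fB h.fC
  obtain ⟨h2, h3, h4⟩ := s.card h.fP
  omega

/-- a part which touches `A` and `B` touches `Q` -/
theorem tq {P Q A B C Y Z : Set V} (hN : NoT G) (h : Mn5 G P Q A B C) (s : Spl G P Y Z)
    (hA : Tch G Y A) (hB : Tch G Y B) : Tch G Y Q := by
  have k := h.k
  have k4 : K4 G A B C Q :=
    ⟨k.cA, k.cB, k.cC, k.cQ, k.dAB, k.dAC, k.dQA.symm, k.dBC, k.dQB.symm, k.dQC.symm,
      k.tAB, k.tAC, k.tQA.symm, k.tBC, k.tQB.symm, k.tQC.symm⟩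
  rcases hN A B C Q Y k4 s.cY (k.dPA.mono_left s.subY) (k.dPB.mono_left s.subY)
    (k.dPC.mono_left s.subY) (k.dPQ.mono_left s.subY) hA hB with h1 | h1
  · exact (nf h s hA hB h1).elim
  · exact h1

/-- the case where `Z` touches `A` -/
theorem keyA {P Q A B C Y Z : Set V} (hN : NoT G) (h : Mn5 G P Q A B C) (s : Spl G P Y Z)
    (hA : Tch G Y A) (hB : Tch G Y B) (hZA : Tch G Z A) : False := by
  have k := h.k
  have hQ := tq hN h s hA hB
  have hZC : Tch G Z C := (s.touch k.tPC).resolve_left fun hc => nf h s hA hB hc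
  have hZQ : Tch G Z Q := tq hN h.swapBC s.symm hZA hZC
  have k' : K5m G Z B Y Q A :=
    ⟨s.cZ, k.cB, s.cY, k.cQ, k.cA, k.dPB.mono_left s.subZ, s.dis.symm, k.dPQ.mono_left s.subZ,
      k.dPA.mono_left s.subZ, (k.dPB.mono_left s.subY).symm, k.dQB.symm, k.dAB.symm,
      k.dPQ.mono_left s.subY, k.dPA.mono_left s.subY, k.dQA,
      s.tch.symm, hZQ, hZA, hB.symm, k.tQB.symm, k.tAB.symm, hQ, hA, k.tQA⟩
  have h1 := h.mn Z B Y Q A k' (h.fP.subset s.subZ) h.fB (h.fP.subset s.subY) h.fQ h.fA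
  obtain ⟨h2, h3, h4⟩ := s.card h.fP
  have h5 : 1 ≤ C.ncard := (Set.ncard_pos h.fC).mpr k.cC.1
  omega

/-- a part does not touch two of the bags -/
theorem key {P Q A B C Y Z : Set V} (hN : NoT G) (h : Mn5 G P Q A B C) (s : Spl G P Y Z)
    (hA : Tch G Y A) (hB : Tch G Y B) : False := by
  have k := h.k
  have hQ := tq hN h s hA hB
  have hZC : Tch G Z C := (s.touch k.tPC).resolve_left fun hc => nf h s hA hB hc
  have cQY : Cn G (Q ∪ Y) := by
    obtain ⟨y, hy, q, hq, hyq⟩ := hQ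
    exact Cn.union_adj k.cQ s.cY hq hy hyq.symm
  have k4 : K4 G (Q ∪ Y) C A B :=
    ⟨cQY, k.cC, k.cA, k.cB,
      Set.disjoint_union_left.mpr ⟨k.dQC, k.dPC.mono_left s.subY⟩,
      Set.disjoint_union_left.mpr ⟨k.dQA, k.dPA.mono_left s.subY⟩,
      Set.disjoint_union_left.mpr ⟨k.dQB, k.dPB.mono_left s.subY⟩,
      k.dAC.symm, k.dBC.symm, k.dAB,
      k.tQC.mono Set.subset_union_left subset_rfl, k.tQA.mono Set.subset_union_left subset_rfl,
      k.tQB.mono Set.subset_union_left subset_rfl, k.tAC.symm, k.tBC.symm, k.tAB⟩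
  rcases hN (Q ∪ Y) C A B Z k4 s.cZ
    (Set.disjoint_union_right.mpr ⟨k.dPQ.mono_left s.subZ, s.dis.symm⟩)
    (k.dPC.mono_left s.subZ) (k.dPA.mono_left s.subZ) (k.dPB.mono_left s.subZ)
    (s.tch.symm.mono subset_rfl Set.subset_union_right) hZC with h1 | h1
  · exact keyA hN h s hA hB h1
  · exact keyA hN h.swapAB s hB hA h1

end MP1M

open MP1M in
/-- Module MP1. -/
theorem specMP1 (hNC2 : SpecNC2.{u}) : SpecMP1.{u} := by
  intro V G hN P Q A B C h
  have k := h.k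
  rcases k.cP.1.exists_eq_singleton_or_nontrivial with h1 | h1
  · exact h1
  exfalso
  obtain ⟨v, hv, w, hw, hvw, hcv, -⟩ := hNC2 V G P k.cP h.fP h1
  have hadj : ∃ x ∈ P \ {v}, G.Adj v x := by
    obtain ⟨W, hW⟩ := k.cP.2 v hv w hw
    cases W with
    | nil => exact absurd rfl hvw
    | @cons _ b _ hab p =>
      exact ⟨b, ⟨hW b (by simp), fun hb => hab.ne (Set.mem_singleton_iff.mp hb).symm⟩, hab⟩
  obtain ⟨x, hx, hvx⟩ := hadj
  have s : Spl G P {v} (P \ {v}) := by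
    refine ⟨Cn.singleton v, hcv, ?_, disjoint_sdiff_self_right, ⟨v, rfl, x, hx, hvx⟩⟩
    rw [Set.union_sdiff_self]
    exact Set.union_eq_self_of_subset_left (Set.singleton_subset_iff.mpr hv)
  have s' := s.symm
  by_cases vA : Tch G {v} A
  · by_cases vB : Tch G {v} B
    · exact key hN h s vA vB
    · have xB := (s.touch k.tPB).resolve_left vB
      by_cases vC : Tch G {v} C
      · exact key hN h.swapBC s vA vC
      · exact key hN h.swapAB.swapBC s' xB ((s.touch k.tPC).resolve_left vC)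
  · have xA := (s.touch k.tPA).resolve_left vA
    by_cases vB : Tch G {v} B
    · by_cases vC : Tch G {v} C
      · exact key hN h.swapAB.swapBC s vB vC
      · exact key hN h.swapBC s' xA ((s.touch k.tPC).resolve_left vC)
    · exact key hN h s' xA ((s.touch k.tPB).resolve_left vB)

end Pool.Agent.Lib.MPbafc89.KP
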