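import Pool.Agent.Lib.MP_bafc89_co.KP.Spec

/-!
# MP_bafc89_co, module MP2: two parts of a bag of a smallest model
-/

set_option autoImplicit false

namespace Pool.Agent.Lib.MPbafc89.KP

open SimpleGraph
open Pool.Agent.Lib.MPbafc89.BQ (Jn Cn)
open Pool.Agent.Lib.MPbafc89.KE (Tch qg IsMinor IsInducedMinor)

universe u v

namespace MP2M

/-- the bag `C` of a smallest model is split into `Y`, `Z` -/
structure Sit {V : Type u} (G : SimpleGraph V) (P Q A B Y Z : Set V) : Prop where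
  nt : NoT G
  cP : Cn G P
  cQ : Cn G Q
  cA : Cn G A
  cB : Cn G B
  cY : Cn G Y
  cZ : Cn G Z
  dPQ : Disjoint P Q
  dPA : Disjoint P A
  dPB : Disjoint P B
  dQA : Disjoint Q A
  dQB : Disjoint Q B
  dAB : Disjoint A B
  dYP : Disjoint Y P
  dYQ : Disjoint Y Q
  dYA : Disjoint Y A
  dYB : Disjoint Y B
  dZP : Disjoint Z P
  dZQ : Disjoint Z Q
  dZA : Disjoint Z A
  dZB : Disjoint Z B
  dYZ : Disjoint Y Z
  tPA : Tch G P A
  tPB : Tch G P B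
  tQA : Tch G Q A
  tQB : Tch G Q B
  tAB : Tch G A B
  tYZ : Tch G Y Z
  vP : Tch G Y P ∨ Tch G Z P
  vQ : Tch G Y Q ∨ Tch G Z Q
  vA : Tch G Y A ∨ Tch G Z A
  vB : Tch G Y B ∨ Tch G Z B
  fP : P.Finite
  fQ : Q.Finite
  fA : A.Finite
  fB : B.Finite
  fY : Y.Finite
  fZ : Z.Finite
  mn : ∀ P' Q' A' B' C' : Set V, K5m G P' Q' A' B' C' → P'.Finite → Q'.Finite → A'.Finite →
    B'.Finite → C'.Finite → P.ncard + Q.ncard + A.ncard + B.ncard + Y.ncard + Z.ncard ≤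
      P'.ncard + Q'.ncard + A'.ncard + B'.ncard + C'.ncard

variable {V : Type u} {G : SimpleGraph V} {P Q A B Y Z : Set V}

theorem Sit.swapPQ (h : Sit G P Q A B Y Z) : Sit G Q P A B Y Z where
  nt := h.nt
  cP := h.cQ
  cQ := h.cP
  cA := h.cA
  cB := h.cB
  cY := h.cY
  cZ := h.cZ
  dPQ := h.dPQ.symm
  dPA := h.dQA
  dPB := h.dQB
  dQA := h.dPA
  dQB := h.dPB
  dAB := h.dAB
  dYP := h.dYQ
  dYQ := h.dYP
  dYA := h.dYA
  dYB := h.dYB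
  dZP := h.dZQ
  dZQ := h.dZP
  dZA := h.dZA
  dZB := h.dZB
  dYZ := h.dYZ
  tPA := h.tQA
  tPB := h.tQB
  tQA := h.tPA
  tQB := h.tPB
  tAB := h.tAB
  tYZ := h.tYZ
  vP := h.vQ
  vQ := h.vP
  vA := h.vA
  vB := h.vB
  fP := h.fQ
  fQ := h.fP
  fA := h.fA
  fB := h.fB
  fY := h.fY
  fZ := h.fZ
  mn := fun P' Q' A' B' C' k p q a b c => by
    have := h.mn P' Q' A' B' C' k p q a b c
    omega

theorem Sit.swapAB (h : Sit G P Q A B Y Z) : Sit G P Q B A Y Z where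
  nt := h.nt
  cP := h.cP
  cQ := h.cQ
  cA := h.cB
  cB := h.cA
  cY := h.cY
  cZ := h.cZ
  dPQ := h.dPQ
  dPA := h.dPB
  dPB := h.dPA
  dQA := h.dQB
  dQB := h.dQA
  dAB := h.dAB.symm
  dYP := h.dYP
  dYQ := h.dYQ
  dYA := h.dYB
  dYB := h.dYA
  dZP := h.dZP
  dZQ := h.dZQ
  dZA := h.dZB
  dZB := h.dZA
  dYZ := h.dYZ
  tPA := h.tPB
  tPB := h.tPA
  tQA := h.tQB
  tQB := h.tQA
  tAB := h.tAB.symm
  tYZ := h.tYZ
  vP := h.vP
  vQ := h.vQ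
  vA := h.vB
  vB := h.vA
  fP := h.fP
  fQ := h.fQ
  fA := h.fB
  fB := h.fA
  fY := h.fY
  fZ := h.fZ
  mn := fun P' Q' A' B' C' k p q a b c => by
    have := h.mn P' Q' A' B' C' k p q a b c
    omega

theorem Sit.swapYZ (h : Sit G P Q A B Y Z) : Sit G P Q A B Z Y where
  nt := h.nt
  cP := h.cP
  cQ := h.cQ
  cA := h.cA
  cB := h.cB
  cY := h.cZ
  cZ := h.cY
  dPQ := h.dPQ
  dPA := h.dPA
  dPB := h.dPB
  dQA := h.dQA
  dQB := h.dQB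
  dAB := h.dAB
  dYP := h.dZP
  dYQ := h.dZQ
  dYA := h.dZA
  dYB := h.dZB
  dZP := h.dYP
  dZQ := h.dYQ
  dZA := h.dYA
  dZB := h.dYB
  dYZ := h.dYZ.symm
  tPA := h.tPA
  tPB := h.tPB
  tQA := h.tQA
  tQB := h.tQB
  tAB := h.tAB
  tYZ := h.tYZ.symm
  vP := h.vP.symm
  vQ := h.vQ.symm
  vA := h.vA.symm
  vB := h.vB.symm
  fP := h.fP
  fQ := h.fQ
  fA := h.fA
  fB := h.fB
  fY := h.fZ
  fZ := h.fY
  mn := fun P' Q' A' B' C' k p q a b c => by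
    have := h.mn P' Q' A' B' C' k p q a b c
    omega

theorem Sit.zpos (h : Sit G P Q A B Y Z) : 0 < Z.ncard :=
  (Set.ncard_pos h.fZ).2 h.cZ.1

/-- the part `Y` does not touch all four bags -/
theorem Sit.r0 (h : Sit G P Q A B Y Z) (h1 : Tch G Y P) (h2 : Tch G Y Q) (h3 : Tch G Y A)
    (h4 : Tch G Y B) : False := by
  have h5 := h.mn P Q A B Y ⟨h.cP, h.cQ, h.cA, h.cB, h.cY, h.dPQ, h.dPA, h.dPB, h.dYP.symm,
    h.dQA, h.dQB, h.dYQ.symm, h.dAB, h.dYA.symm, h.dYB.symm, h.tPA, h.tPB, h1.symm, h.tQA, h.tQB,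
    h2.symm, h.tAB, h3.symm, h4.symm⟩ h.fP h.fQ h.fA h.fB h.fY
  have h6 := h.zpos
  omega

theorem Sit.pqa (h : Sit G P Q A B Y Z) (t : Tch G P Q) (h1 : Tch G Y P) (h2 : Tch G Y Q)
    (h3 : Tch G Y A) : False := by
  have h5 := h.mn Y B P Q A ⟨h.cY, h.cB, h.cP, h.cQ, h.cA, h.dYB, h.dYP, h.dYQ, h.dYA,
    h.dPB.symm, h.dQB.symm, h.dAB.symm, h.dPQ, h.dPA, h.dQA, h1, h2, h3, h.tPB.symm, h.tQB.symm,
    h.tAB.symm, t, h.tPA, h.tQA⟩ h.fY h.fB h.fP h.fQ h.fA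
  have h6 := h.zpos
  omega

theorem Sit.pab (h : Sit G P Q A B Y Z) (t : Tch G P Q) (h1 : Tch G Y P) (h2 : Tch G Y A)
    (h3 : Tch G Y B) : False := by
  have h5 := h.mn Y Q P A B ⟨h.cY, h.cQ, h.cP, h.cA, h.cB, h.dYQ, h.dYP, h.dYA, h.dYB,
    h.dPQ.symm, h.dQA, h.dQB, h.dPA, h.dPB, h.dAB, h1, h2, h3, t.symm, h.tQA,
    h.tQB, h.tPA, h.tPB, h.tAB⟩ h.fY h.fQ h.fP h.fA h.fB
  have h6 := h.zpos
  omega

theorem Sit.pq (h : Sit G P Q A B Y Z) (t : Tch G P Q) (h1 : Tch G Y P) (h2 : Tch G Y Q) :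
    False := by
  have h3 := h.nt P Q A B Y ⟨h.cP, h.cQ, h.cA, h.cB, h.dPQ, h.dPA, h.dPB, h.dQA, h.dQB, h.dAB,
    t, h.tPA, h.tPB, h.tQA, h.tQB, h.tAB⟩ h.cY h.dYP h.dYQ h.dYA h.dYB h1 h2
  rcases h3 with h3 | h3
  · exact h.pqa t h1 h2 h3
  · exact h.swapAB.pqa t h1 h2 h3

theorem Sit.pa (h : Sit G P Q A B Y Z) (t : Tch G P Q) (h1 : Tch G Y P) (h2 : Tch G Y A) :
    False := by
  have h3 := h.nt P A Q B Y ⟨h.cP, h.cA, h.cQ, h.cB, h.dPA, h.dPQ, h.dPB, h.dQA.symm, h.dAB,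
    h.dQB, h.tPA, t, h.tPB, h.tQA.symm, h.tAB, h.tQB⟩ h.cY h.dYP h.dYA h.dYQ h.dYB h1 h2
  rcases h3 with h3 | h3
  · exact h.pqa t h1 h3 h2
  · exact h.pab t h1 h2 h3

theorem Sit.ab (h : Sit G P Q A B Y Z) (t : Tch G P Q) (h1 : Tch G Y A) (h2 : Tch G Y B) :
    False := by
  have h3 := h.nt A B P Q Y ⟨h.cA, h.cB, h.cP, h.cQ, h.dAB, h.dPA.symm, h.dQA.symm, h.dPB.symm,
    h.dQB.symm, h.dPQ, h.tAB, h.tPA.symm, h.tQA.symm, h.tPB.symm, h.tQB.symm, t⟩ h.cY h.dYA h.dYB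
    h.dYP h.dYQ h1 h2
  rcases h3 with h3 | h3
  · exact h.pab t h3 h1 h2
  · exact h.swapPQ.pab t.symm h3 h1 h2

/-- `P` and `Q` do not touch -/
theorem Sit.npq (h : Sit G P Q A B Y Z) : ¬ Tch G P Q := by
  intro t
  have y1 := h.pq t
  have y2 := h.pa t
  have y3 := h.swapAB.pa t
  have y4 := h.swapPQ.pa t.symm
  have y5 := h.swapPQ.swapAB.pa t.symm
  have y6 := h.ab t
  have z1 := h.swapYZ.pq t
  have z2 := h.swapYZ.pa t
  have z3 := h.swapYZ.swapAB.pa t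
  have z4 := h.swapYZ.swapPQ.pa t.symm
  have z5 := h.swapYZ.swapPQ.swapAB.pa t.symm
  have z6 := h.swapYZ.ab t
  rcases h.vP with a | a <;> rcases h.vQ with b | b <;> rcases h.vA with c | c
  · exact y1 a b
  · exact y1 a b
  · exact y2 a c
  · exact z4 b c
  · exact y4 b c
  · exact z2 a c
  · exact z1 a b
  · exact z1 a b

/-- (R2) -/
theorem Sit.r2 (h : Sit G P Q A B Y Z) (h1 : Tch G Y P) (h2 : Tch G Y A) (h3 : Tch G Y B) :
    False := by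
  have h4 := h.nt A B Y P Q ⟨h.cA, h.cB, h.cY, h.cP, h.dAB, h.dYA.symm, h.dPA.symm, h.dYB.symm,
    h.dPB.symm, h.dYP, h.tAB, h2.symm, h.tPA.symm, h3.symm, h.tPB.symm, h1⟩ h.cQ h.dQA h.dQB
    h.dYQ.symm h.dPQ.symm h.tQA h.tQB
  rcases h4 with h4 | h4
  · exact h.r0 h1 h4.symm h2 h3
  · exact h.npq h4.symm

/-- (R3) -/
theorem Sit.r3 (h : Sit G P Q A B Y Z) (h1 : Tch G Y A) (h2 : Tch G Z Q) (h3 : Tch G Z B) :
    Tch G Z P := by
  have hc : Cn G (A ∪ Y) := by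
    obtain ⟨y, hy, a, ha, hya⟩ := h1
    exact h.cA.union_adj h.cY ha hy hya.symm
  have h4 := h.nt (A ∪ Y) B Q Z P ⟨hc, h.cB, h.cQ, h.cZ,
    Set.disjoint_union_left.2 ⟨h.dAB, h.dYB⟩, Set.disjoint_union_left.2 ⟨h.dQA.symm, h.dYQ⟩,
    Set.disjoint_union_left.2 ⟨h.dZA.symm, h.dYZ⟩, h.dQB.symm, h.dZB.symm, h.dZQ.symm,
    h.tAB.mono Set.subset_union_left subset_rfl, h.tQA.symm.mono Set.subset_union_left subset_rfl,
    h.tYZ.mono Set.subset_union_right subset_rfl, h.tQB.symm, h3.symm, h2.symm⟩ h.cP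
    (Set.disjoint_union_right.2 ⟨h.dPA, h.dYP.symm⟩) h.dPB h.dPQ h.dZP.symm
    (h.tPA.mono subset_rfl Set.subset_union_left) h.tPB
  rcases h4 with h4 | h4
  · exact absurd h4 h.npq
  · exact h4.symm

theorem Sit.r4k (h : Sit G P Q A B Y Z) (h1 : Tch G Z P) (h2 : Tch G Z Q) :
    K4 G (P ∪ Z) Q A B := by
  have hc : Cn G (P ∪ Z) := by
    obtain ⟨z, hz, p, hp, hzp⟩ := h1
    exact h.cP.union_adj h.cZ hp hz hzp.symm
  exact ⟨hc, h.cQ, h.cA, h.cB, Set.disjoint_union_left.2 ⟨h.dPQ, h.dZQ⟩,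
    Set.disjoint_union_left.2 ⟨h.dPA, h.dZA⟩, Set.disjoint_union_left.2 ⟨h.dPB, h.dZB⟩, h.dQA,
    h.dQB, h.dAB, h2.mono Set.subset_union_right subset_rfl,
    h.tPA.mono Set.subset_union_left subset_rfl, h.tPB.mono Set.subset_union_left subset_rfl,
    h.tQA, h.tQB, h.tAB⟩

/-- (R4), the bag `Q` -/
theorem Sit.r4q (h : Sit G P Q A B Y Z) (h1 : Tch G Z P) (h2 : Tch G Z Q) (h3 : Tch G Y Q) :
    Tch G Y A ∨ Tch G Y B :=
  h.nt (P ∪ Z) Q A B Y (h.r4k h1 h2) h.cY (Set.disjoint_union_right.2 ⟨h.dYP, h.dYZ⟩) h.dYQ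
    h.dYA h.dYB (h.tYZ.mono subset_rfl Set.subset_union_right) h3

/-- (R4), the bag `A` -/
theorem Sit.r4a (h : Sit G P Q A B Y Z) (h1 : Tch G Z P) (h2 : Tch G Z Q) (h3 : Tch G Y A) :
    Tch G Y Q ∨ Tch G Y B := by
  have k := h.r4k h1 h2
  exact h.nt (P ∪ Z) A Q B Y ⟨k.cA, k.cC, k.cB, k.cD, k.dAC, k.dAB, k.dAD, k.dBC.symm, k.dCD,
    k.dBD, k.tAC, k.tAB, k.tAD, k.tBC.symm, k.tCD, k.tBD⟩ h.cY
    (Set.disjoint_union_right.2 ⟨h.dYP, h.dYZ⟩) h.dYA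
    h.dYQ h.dYB (h.tYZ.mono subset_rfl Set.subset_union_right) h3

/-- the finite case distinction -/
theorem logic (pY qY aY bY pZ qZ aZ bZ : Prop)
    (vP : pY ∨ pZ) (vQ : qY ∨ qZ) (vA : aY ∨ aZ) (vB : bY ∨ bZ)
    (y2 : pY → aY → bY → False) (y2' : qY → aY → bY → False)
    (z2 : pZ → aZ → bZ → False) (z2' : qZ → aZ → bZ → False)
    (y3 : aY → qZ → bZ → pZ) (y3a : bY → qZ → aZ → pZ) (y3b : aY → pZ → bZ → qZ)
    (y3c : bY → pZ → aZ → qZ)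
    (y4a : pZ → qZ → aY → qY ∨ bY) (y4b : pZ → qZ → bY → qY ∨ aY)
    (y4c : pZ → qZ → aY → pY ∨ bY) (y4d : pZ → qZ → bY → pY ∨ aY) :
    (pY ∧ qY ∧ ¬ (aY ∧ bY)) ∨ (aY ∧ bY ∧ ¬ pY ∧ ¬ qY) := by
  by_cases h1 : pY <;> by_cases h2 : qY <;> by_cases h3 : aY <;> by_cases h4 : bY <;> simp_all

theorem Sit.pat (h : Sit G P Q A B Y Z) : Pat G P Q A B Y :=
  logic _ _ _ _ _ _ _ _ h.vP h.vQ h.vA h.vB h.r2 h.swapPQ.r2 h.swapYZ.r2 h.swapYZ.swapPQ.r2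
    h.r3 (fun a b c => h.swapAB.r3 a b c) (fun a b c => h.swapPQ.r3 a b c)
    (fun a b c => h.swapPQ.swapAB.r3 a b c)
    (fun a b c => h.r4a a b c) (fun a b c => h.swapAB.r4a a b c)
    (fun a b c => h.swapPQ.r4a b a c) (fun a b c => h.swapPQ.swapAB.r4a b a c)

end MP2M

open MP2M in
theorem specMP2 : SpecMP2.{u} := by
  intro V G hN P Q A B C hM v X hC hv hX hadj
  obtain ⟨x, hx, hvx⟩ := hadj
  have hk := hM.k
  have hfX : X.Finite := hM.fC.subset (by rw [hC]; exact Set.subset_insert v X)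
  have hvC : ({v} : Set V) ⊆ C := by
    rw [hC, Set.singleton_subset_iff]
    exact Set.mem_insert v X
  have hXC : X ⊆ C := by rw [hC]; exact Set.subset_insert v X
  have hcov : ∀ S : Set V, Tch G S C → Tch G ({v} : Set V) S ∨ Tch G X S := by
    rintro S ⟨s, hs, c, hc, hsc⟩
    rw [hC] at hc
    rcases hc with rfl | hc
    · exact Or.inl ⟨c, rfl, s, hs, hsc.symm⟩
    · exact Or.inr ⟨c, hc, s, hs, hsc.symm⟩
  have hcard : C.ncard = X.ncard + 1 := by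
    rw [hC, Set.ncard_insert_of_notMem hv hfX]
  have hS : Sit G P Q A B {v} X :=
    { nt := hN
      cP := hk.cP
      cQ := hk.cQ
      cA := hk.cA
      cB := hk.cB
      cY := Cn.singleton v
      cZ := hX
      dPQ := hk.dPQ
      dPA := hk.dPA
      dPB := hk.dPB
      dQA := hk.dQA
      dQB := hk.dQB
      dAB := hk.dAB
      dYP := (hk.dPC.mono_right hvC).symm
      dYQ := (hk.dQC.mono_right hvC).symm
      dYA := (hk.dAC.mono_right hvC).symm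
      dYB := (hk.dBC.mono_right hvC).symm
      dZP := (hk.dPC.mono_right hXC).symm
      dZQ := (hk.dQC.mono_right hXC).symm
      dZA := (hk.dAC.mono_right hXC).symm
      dZB := (hk.dBC.mono_right hXC).symm
      dYZ := Set.disjoint_singleton_left.2 hv
      tPA := hk.tPA
      tPB := hk.tPB
      tQA := hk.tQA
      tQB := hk.tQB
      tAB := hk.tAB
      tYZ := ⟨v, rfl, x, hx, hvx⟩
      vP := hcov P hk.tPC
      vQ := hcov Q hk.tQC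
      vA := hcov A hk.tAC
      vB := hcov B hk.tBC
      fP := hM.fP
      fQ := hM.fQ
      fA := hM.fA
      fB := hM.fB
      fY := Set.finite_singleton v
      fZ := hfX
      mn := fun P' Q' A' B' C' k p q a b c => by
        have h1 := hM.mn P' Q' A' B' C' k p q a b c
        rw [Set.ncard_singleton]
        omega }
  exact ⟨hS.npq, hS.pat, hS.swapYZ.pat⟩

end Pool.Agent.Lib.MPbafc89.KP
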