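import Pool.Agent.Lib.MP_bafc89_co.KP.Spec

/-!
# MP_bafc89_co, module MP3: the third bag of a smallest model
-/

set_option autoImplicit false

namespace Pool.Agent.Lib.MPbafc89.KP

open SimpleGraph
open Pool.Agent.Lib.MPbafc89.BQ (Jn Cn)
open Pool.Agent.Lib.MPbafc89.KE (Tch qg IsMinor IsInducedMinor)

universe u

namespace MP3M

variable {V : Type u} {G : SimpleGraph V}

theorem tch_union {A B S : Set V} (h : Tch G (A ∪ B) S) : Tch G A S ∨ Tch G B S := by
  obtain ⟨x, hx, y, hy, hxy⟩ := h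
  rcases hx with hx | hx
  · exact Or.inl ⟨x, hx, y, hy, hxy⟩
  · exact Or.inr ⟨x, hx, y, hy, hxy⟩

theorem tch_insert {v : V} {X S : Set V} (h : Tch G (insert v X) S) :
    Tch G {v} S ∨ Tch G X S := by
  rw [Set.insert_eq] at h
  exact tch_union h

theorem tch_single {v w : V} (h : Tch G ({v} : Set V) {w}) : G.Adj v w := by
  obtain ⟨x, hx, y, hy, hxy⟩ := h
  rw [Set.mem_singleton_iff] at hx hy
  subst hx
  subst hy
  exact hxy

theorem cn_union {A B : Set V} (hA : Cn G A) (hB : Cn G B) (h : Tch G A B) : Cn G (A ∪ B) := by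
  obtain ⟨x, hx, y, hy, hxy⟩ := h
  exact hA.union_adj hB hx hy hxy

/-- an element of a connected set with another element has a neighbour in it -/
theorem exists_adj {C : Set V} (hC : Cn G C) {v w : V} (hv : v ∈ C) (hw : w ∈ C) (hvw : v ≠ w) :
    ∃ x ∈ C \ {v}, G.Adj v x := by
  have key : w = v ∨ ∃ x ∈ C \ {v}, G.Adj v x := by
    refine (hC.2 v hv w hw).induct (fun b => b = v ∨ ∃ x ∈ C \ {v}, G.Adj v x) (Or.inl rfl) ?_
    intro a b _ hb hab h
    rcases h with h | h
    · subst h
      exact Or.inr ⟨b, ⟨hb, fun h2 => hab.ne (Set.mem_singleton_iff.mp h2).symm⟩, hab⟩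
    · exact Or.inr h
  rcases key with h | h
  · exact absurd h.symm hvw
  · exact h

theorem insert_diff {C : Set V} {v : V} (hv : v ∈ C) : C = insert v (C \ {v}) := by
  rw [Set.insert_sdiff_singleton, Set.insert_eq_of_mem hv]

/-- case (i): `w` touches exactly `A`, `B` and `v` touches `P`, `Q` -/
theorem case1 (hN : NoT G) {P Q A B C : Set V} (k : K5m G P Q A B C) {v w : V} (hv : v ∈ C)
    (hw : w ∈ C) (hvw : v ≠ w) (hn : ¬ G.Adj v w) (vP : Tch G {v} P) (vQ : Tch G {v} Q)
    (wA : Tch G {w} A) (wB : Tch G {w} B) (wP : ¬ Tch G {w} P) (wQ : ¬ Tch G {w} Q) : False := by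
  have sub : ({v} : Set V) ⊆ C := Set.singleton_subset_iff.mpr hv
  have subw : ({w} : Set V) ⊆ C := Set.singleton_subset_iff.mpr hw
  have hdA : Disjoint A (P ∪ {v}) :=
    Set.disjoint_union_right.mpr ⟨k.dPA.symm, Set.disjoint_of_subset_right sub k.dAC⟩
  have hdB : Disjoint B (P ∪ {v}) :=
    Set.disjoint_union_right.mpr ⟨k.dPB.symm, Set.disjoint_of_subset_right sub k.dBC⟩
  have hdQ : Disjoint (P ∪ {v}) Q :=
    Set.disjoint_union_left.mpr ⟨k.dPQ, Set.disjoint_of_subset_left sub k.dQC.symm⟩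
  have hK : K4 G A B (P ∪ {v}) Q :=
    { cA := k.cA
      cB := k.cB
      cC := cn_union k.cP (Cn.singleton v) vP.symm
      cD := k.cQ
      dAB := k.dAB
      dAC := hdA
      dAD := k.dQA.symm
      dBC := hdB
      dBD := k.dQB.symm
      dCD := hdQ
      tAB := k.tAB
      tAC := k.tPA.symm.mono (Set.Subset.refl _) Set.subset_union_left
      tAD := k.tQA.symm
      tBC := k.tPB.symm.mono (Set.Subset.refl _) Set.subset_union_left
      tBD := k.tQB.symm
      tCD := vQ.mono Set.subset_union_right (Set.Subset.refl _) }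
  have hdw : Disjoint ({w} : Set V) (P ∪ {v}) := by
    refine Set.disjoint_union_right.mpr ⟨Set.disjoint_of_subset_left subw k.dPC.symm, ?_⟩
    exact Set.disjoint_singleton.mpr hvw.symm
  rcases hN A B (P ∪ {v}) Q {w} hK (Cn.singleton w) (Set.disjoint_of_subset_left subw k.dAC.symm)
    (Set.disjoint_of_subset_left subw k.dBC.symm) hdw
    (Set.disjoint_of_subset_left subw k.dQC.symm) wA wB with h | h
  · rcases tch_union h.symm with h | h
    · exact wP h.symm
    · exact hn (tch_single h)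
  · exact wQ h

/-- case (ii): `v` touches `P`, `Q`, not `B`; `w` touches `P`, `Q`, `B` -/
theorem case2 (hN : NoT G) {P Q A B C : Set V} (k : K5m G P Q A B C) {v w : V} (hv : v ∈ C)
    (hw : w ∈ C) (hvw : v ≠ w) (hn : ¬ G.Adj v w) (vP : Tch G {v} P) (vQ : Tch G {v} Q)
    (vB : ¬ Tch G {v} B) (wP : Tch G {w} P) (wQ : Tch G {w} Q) (wB : Tch G {w} B) : False := by
  have sub : ({v} : Set V) ⊆ C := Set.singleton_subset_iff.mpr hv
  have subw : ({w} : Set V) ⊆ C := Set.singleton_subset_iff.mpr hw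
  have hK : K4 G (P ∪ A) Q B {w} :=
    { cA := cn_union k.cP k.cA k.tPA
      cB := k.cQ
      cC := k.cB
      cD := Cn.singleton w
      dAB := Set.disjoint_union_left.mpr ⟨k.dPQ, k.dQA.symm⟩
      dAC := Set.disjoint_union_left.mpr ⟨k.dPB, k.dAB⟩
      dAD := Set.disjoint_union_left.mpr ⟨Set.disjoint_of_subset_right subw k.dPC,
        Set.disjoint_of_subset_right subw k.dAC⟩
      dBC := k.dQB
      dBD := Set.disjoint_of_subset_right subw k.dQC
      dCD := Set.disjoint_of_subset_right subw k.dBC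
      tAB := k.tQA.symm.mono Set.subset_union_right (Set.Subset.refl _)
      tAC := k.tPB.mono Set.subset_union_left (Set.Subset.refl _)
      tAD := wP.symm.mono Set.subset_union_left (Set.Subset.refl _)
      tBC := k.tQB
      tBD := wQ.symm
      tCD := wB.symm }
  have hd1 : Disjoint ({v} : Set V) (P ∪ A) :=
    Set.disjoint_union_right.mpr ⟨Set.disjoint_of_subset_left sub k.dPC.symm,
      Set.disjoint_of_subset_left sub k.dAC.symm⟩
  rcases hN (P ∪ A) Q B {w} {v} hK (Cn.singleton v) hd1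
    (Set.disjoint_of_subset_left sub k.dQC.symm) (Set.disjoint_of_subset_left sub k.dBC.symm)
    (Set.disjoint_singleton.mpr hvw) (vP.mono (Set.Subset.refl _) Set.subset_union_left) vQ
    with h | h
  · exact vB h
  · exact hn (tch_single h)

/-- the model with the third bag `{v, w}` -/
theorem model {P Q A B C : Set V} (k : K5m G P Q A B C) {v w : V} (hv : v ∈ C)
    (hw : w ∈ C) (ha : G.Adj v w)
    (hP : Tch G {v} P ∨ Tch G {w} P) (hQ : Tch G {v} Q ∨ Tch G {w} Q)
    (hA : Tch G {v} A ∨ Tch G {w} A) (hB : Tch G {v} B ∨ Tch G {w} B) :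
    K5m G P Q A B {v, w} := by
  have sub : ({v, w} : Set V) ⊆ C := by
    rintro x (hx | hx)
    · rw [hx]; exact hv
    · rw [Set.mem_singleton_iff.mp hx]; exact hw
  have s1 : ({v} : Set V) ⊆ {v, w} := by
    rintro x hx
    exact Or.inl hx
  have s2 : ({w} : Set V) ⊆ {v, w} := by
    rintro x hx
    exact Or.inr hx
  have cv : Cn G ({v, w} : Set V) := by
    have h1 : Cn G ({v} ∪ {w} : Set V) :=
      (Cn.singleton v).union_adj (Cn.singleton w) rfl rfl ha
    exact h1
  have aux : ∀ S : Set V, Tch G {v} S ∨ Tch G {w} S → Tch G S {v, w} := by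
    intro S h
    rcases h with h | h
    · exact h.symm.mono (Set.Subset.refl _) s1
    · exact h.symm.mono (Set.Subset.refl _) s2
  exact
    { cP := k.cP
      cQ := k.cQ
      cA := k.cA
      cB := k.cB
      cC := cv
      dPQ := k.dPQ
      dPA := k.dPA
      dPB := k.dPB
      dPC := Set.disjoint_of_subset_right sub k.dPC
      dQA := k.dQA
      dQB := k.dQB
      dQC := Set.disjoint_of_subset_right sub k.dQC
      dAB := k.dAB
      dAC := Set.disjoint_of_subset_right sub k.dAC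
      dBC := Set.disjoint_of_subset_right sub k.dBC
      tPA := k.tPA
      tPB := k.tPB
      tPC := aux P hP
      tQA := k.tQA
      tQB := k.tQB
      tQC := aux Q hQ
      tAB := k.tAB
      tAC := aux A hA
      tBC := aux B hB }

end MP3M

open MP3M in
theorem specMP3 (hNC2 : SpecNC2.{u}) (hMP2 : SpecMP2.{u}) : SpecMP3.{u} := by
  intro V G hN P Q A B C hM
  have k := hM.k
  by_cases hnt : C.Nontrivial
  swap
  · left
    obtain ⟨c, hc⟩ := k.cC.1
    refine ⟨c, ?_⟩
    exact (Set.not_nontrivial_iff.mp hnt).eq_singleton_of_mem hc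
  right
  obtain ⟨v, hv, w, hw, hvw, cv, cw⟩ := hNC2 V G C k.cC hM.fC hnt
  obtain ⟨-, pv, pX⟩ := hMP2 V G hN P Q A B C hM v (C \ {v}) (insert_diff hv)
    (fun h => h.2 rfl) cv (exists_adj k.cC hv hw hvw)
  obtain ⟨-, pw, pY⟩ := hMP2 V G hN P Q A B C hM w (C \ {w}) (insert_diff hw)
    (fun h => h.2 rfl) cw (exists_adj k.cC hw hv hvw.symm)
  have wX : ∀ S : Set V, Tch G {w} S → Tch G (C \ {v}) S := fun S h =>
    h.mono (Set.singleton_subset_iff.mpr ⟨hw, fun h2 => hvw (Set.mem_singleton_iff.mp h2).symm⟩)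
      (Set.Subset.refl _)
  have vY : ∀ S : Set V, Tch G {v} S → Tch G (C \ {w}) S := fun S h =>
    h.mono (Set.singleton_subset_iff.mpr ⟨hv, fun h2 => hvw (Set.mem_singleton_iff.mp h2)⟩)
      (Set.Subset.refl _)
  have sv : ∀ S : Set V, Tch G C S → Tch G {v} S ∨ Tch G (C \ {v}) S := fun S h => by
    rw [insert_diff hv] at h
    exact tch_insert h
  have sw : ∀ S : Set V, Tch G C S → Tch G {w} S ∨ Tch G (C \ {w}) S := fun S h => by
    rw [insert_diff hw] at h
    exact tch_insert h
  -- the four bags are touched, and the patterns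
  have key : (Tch G {v} P ∨ Tch G {w} P) ∧ (Tch G {v} Q ∨ Tch G {w} Q) ∧
      (Tch G {v} A ∨ Tch G {w} A) ∧ (Tch G {v} B ∨ Tch G {w} B) := by
    rcases pv with ⟨vP, vQ, vAB⟩ | ⟨vA, vB, vP, vQ⟩
    · refine ⟨Or.inl vP, Or.inl vQ, ?_⟩
      have hY : ¬ (Tch G (C \ {w}) A ∧ Tch G (C \ {w}) B) := by
        rcases pY with h | h
        · exact h.2.2
        · exact absurd (vY P vP) h.2.2.1
      by_cases vA : Tch G {v} A
      · refine ⟨Or.inl vA, ?_⟩
        rcases sw B k.tBC.symm with h | h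
        · exact Or.inr h
        · exact absurd ⟨vY A vA, h⟩ hY
      · by_cases vB : Tch G {v} B
        · refine ⟨?_, Or.inl vB⟩
          rcases sw A k.tAC.symm with h | h
          · exact Or.inr h
          · exact absurd ⟨h, vY B vB⟩ hY
        · have XA : Tch G (C \ {v}) A := (sv A k.tAC.symm).resolve_left vA
          have XB : Tch G (C \ {v}) B := (sv B k.tBC.symm).resolve_left vB
          have XP : ¬ Tch G (C \ {v}) P := by
            rcases pX with h | h
            · exact absurd ⟨XA, XB⟩ h.2.2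
            · exact h.2.2.1
          rcases pw with h | h
          · exact absurd (wX P h.1) XP
          · exact ⟨Or.inr h.1, Or.inr h.2.1⟩
    · have hY : ¬ Tch G (C \ {w}) P ∧ ¬ Tch G (C \ {w}) Q := by
        rcases pY with h | h
        · exact absurd ⟨vY A vA, vY B vB⟩ h.2.2
        · exact h.2.2
      exact ⟨Or.inr ((sw P k.tPC.symm).resolve_right hY.1),
        Or.inr ((sw Q k.tQC.symm).resolve_right hY.2), Or.inl vA, Or.inl vB⟩
  obtain ⟨hP, hQ, hA, hB⟩ := key
  have hadj : G.Adj v w := by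
    by_contra hn
    have hn' : ¬ G.Adj w v := fun h => hn h.symm
    rcases pv with ⟨vP, vQ, vAB⟩ | ⟨vA, vB, vP, vQ⟩
    · rcases pw with ⟨wP, wQ, wAB⟩ | ⟨wA, wB, wP, wQ⟩
      · by_cases vB : Tch G {v} B
        · have vA : ¬ Tch G {v} A := fun h => vAB ⟨h, vB⟩
          have wA : Tch G {w} A := hA.resolve_left vA
          have wB : ¬ Tch G {w} B := fun h => wAB ⟨wA, h⟩
          exact case2 hN k hw hv hvw.symm hn' wP wQ wB vP vQ vB
        · exact case2 hN k hv hw hvw hn vP vQ vB wP wQ (hB.resolve_left vB)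
      · exact case1 hN k hv hw hvw hn vP vQ wA wB wP wQ
    · exact case1 hN k hw hv hvw.symm hn' (hP.resolve_left vP) (hQ.resolve_left vQ) vA vB vP vQ
  have hm := hM.mn P Q A B {v, w} (model k hv hw hadj hP hQ hA hB) hM.fP hM.fQ hM.fA hM.fB
    (Set.toFinite _)
  have sub : ({v, w} : Set V) ⊆ C := by
    rintro x (hx | hx)
    · rw [hx]; exact hv
    · rw [Set.mem_singleton_iff.mp hx]; exact hw
  have hC : ({v, w} : Set V) = C := Set.eq_of_subset_of_ncard_le sub (by omega) hM.fC
  exact ⟨v, w, hvw, hC.symm, hadj, pv, pw⟩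

end Pool.Agent.Lib.MPbafc89.KP
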