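import Pool.Agent.Lib.MP_bafc89_co.KP.Spec

/-!
# MP_bafc89_co, module MPC: the union of the bags of a small model is 3-connected (helper89)
-/

set_option autoImplicit false

namespace Pool.Agent.Lib.MPbafc89.KP

open SimpleGraph
open Pool.Agent.Lib.MPbafc89.BQ (Jn Cn)
open Pool.Agent.Lib.MPbafc89.KE (Tch qg IsMinor IsInducedMinor)

universe u v

namespace MPCM

variable {V : Type u} {G : SimpleGraph V}

/-- a bag: one vertex, or two vertices which touch both `p` and `q`, or `C` -/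
def Two (G : SimpleGraph V) (p q : V) (C X : Set V) : Prop :=
  (∃ a, X = {a}) ∨ ∃ v w, v ≠ w ∧ X = {v, w} ∧
    ((Tch G {v} {p} ∧ Tch G {v} {q}) ∨ Tch G {v} C) ∧ ((Tch G {w} {p} ∧ Tch G {w} {q}) ∨ Tch G {w} C)

theorem two_of_sm {p q : V} {A B C : Set V} (h : Sm G {p} {q} A B C) : Two G p q A C ∧ Two G p q B C := by
  rcases h with ⟨c, hc⟩ | ⟨v, w, hvw, hC, -, h1, h2⟩
  · exact ⟨Or.inl ⟨c, hc⟩, Or.inl ⟨c, hc⟩⟩
  · refine ⟨Or.inr ⟨v, w, hvw, hC, ?_, ?_⟩, Or.inr ⟨v, w, hvw, hC, ?_, ?_⟩⟩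
    · rcases h1 with h | h
      · exact Or.inl ⟨h.1, h.2.1⟩
      · exact Or.inr h.1
    · rcases h2 with h | h
      · exact Or.inl ⟨h.1, h.2.1⟩
      · exact Or.inr h.1
    · rcases h1 with h | h
      · exact Or.inl ⟨h.1, h.2.1⟩
      · exact Or.inr h.2.1
    · rcases h2 with h | h
      · exact Or.inl ⟨h.1, h.2.1⟩
      · exact Or.inr h.2.1

/-- one remaining vertex of a bag with two vertices -/
theorem one {S C X : Set V} {p q c s t y z : V} (hC : Cn G C) (hc : c ∈ C) (hCS : C ⊆ S)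
    (hyS : y ∈ S) (hzX : z ∈ X) (hpX : p ∉ X) (hqX : q ∉ X) (hpq : p ≠ q)
    (hp : p ≠ s → p ≠ t → Jn G S c p) (hq : q ≠ s → q ≠ t → Jn G S c q) (hz : z = s ∨ z = t)
    (h : (Tch G {y} {p} ∧ Tch G {y} {q}) ∨ Tch G {y} C) : Jn G S c y := by
  have hzp : z ≠ p := fun h => hpX (h ▸ hzX)
  have hzq : z ≠ q := fun h => hqX (h ▸ hzX)
  rcases h with ⟨⟨y1, hy1, p1, hp1, h1⟩, ⟨y2, hy2, q1, hq1, h2⟩⟩ | ⟨y1, hy1, c', hc', h1⟩
  · rw [Set.mem_singleton_iff] at hy1 hy2 hp1 hq1
    subst hy1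
    subst hy2
    subst hp1
    subst hq1
    by_cases hps : p1 ≠ s ∧ p1 ≠ t
    · have h3 := hp hps.1 hps.2
      exact h3.trans (Jn.adj h3.right hyS h1.symm)
    · by_cases hqs : q1 ≠ s ∧ q1 ≠ t
      · have h3 := hq hqs.1 hqs.2
        exact h3.trans (Jn.adj h3.right hyS h2.symm)
      · exfalso
        have e1 : p1 = s ∨ p1 = t := by tauto
        have e2 : q1 = s ∨ q1 = t := by tauto
        rcases e1 with e1 | e1 <;> rcases e2 with e2 | e2 <;> rcases hz with e3 | e3
        · exact hpq (e1.trans e2.symm)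
        · exact hpq (e1.trans e2.symm)
        · exact hzp (e3.trans e1.symm)
        · exact hzq (e3.trans e2.symm)
        · exact hzq (e3.trans e2.symm)
        · exact hzp (e3.trans e1.symm)
        · exact hpq (e1.trans e2.symm)
        · exact hpq (e1.trans e2.symm)
  · rw [Set.mem_singleton_iff] at hy1
    subst hy1
    exact ((hC.2 c hc c' hc').mono hCS).trans (Jn.adj (hCS hc') hyS h1.symm)

/-- the remaining vertices of a bag are joined to the bag `C` -/
theorem bag {S C X : Set V} {p q c s t : V} (hC : Cn G C) (hc : c ∈ C) (hCS : C ⊆ S)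
    (hX : Cn G X) (hXS : ∀ x ∈ X, x ≠ s → x ≠ t → x ∈ S) (hXC : Tch G X C) (hpX : p ∉ X)
    (hqX : q ∉ X) (hpq : p ≠ q) (hp : p ≠ s → p ≠ t → Jn G S c p)
    (hq : q ≠ s → q ≠ t → Jn G S c q) (h2 : Two G p q C X) :
    ∀ y ∈ X, y ≠ s → y ≠ t → Jn G S c y := by
  intro y hy hys hyt
  have hyS := hXS y hy hys hyt
  by_cases hint : s ∉ X ∧ t ∉ X
  · have hsub : X ⊆ S := fun x hx => hXS x hx (fun h => hint.1 (h ▸ hx)) (fun h => hint.2 (h ▸ hx))
    obtain ⟨x, hx, c', hc', h1⟩ := hXC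
    exact (((hC.2 c hc c' hc').mono hCS).trans (Jn.adj (hCS hc') (hsub hx) h1.symm)).trans
      ((hX.2 x hx y hy).mono hsub)
  · have hst : s ∈ X ∨ t ∈ X := by tauto
    rcases h2 with ⟨a, ha⟩ | ⟨v, w, hvw, hXe, hv, hw⟩
    · exfalso
      rw [ha, Set.mem_singleton_iff] at hy
      rcases hst with h | h
      · rw [ha, Set.mem_singleton_iff] at h
        exact hys (hy.trans h.symm)
      · rw [ha, Set.mem_singleton_iff] at h
        exact hyt (hy.trans h.symm)
    · have hvX : v ∈ X := by rw [hXe]; exact Or.inl rfl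
      have hwX : w ∈ X := by rw [hXe]; exact Or.inr rfl
      have hst' : (s = v ∨ s = w) ∨ (t = v ∨ t = w) := by
        rcases hst with h | h
        · rw [hXe] at h
          exact Or.inl h
        · rw [hXe] at h
          exact Or.inr h
      have hy' : y = v ∨ y = w := by
        rw [hXe] at hy
        exact hy
      rcases hy' with e | e
      · subst e
        have hz : w = s ∨ w = t := by
          rcases hst' with (h | h) | (h | h)
          · exact absurd h.symm hys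
          · exact Or.inl h.symm
          · exact absurd h.symm hyt
          · exact Or.inr h.symm
        exact one hC hc hCS hyS hwX hpX hqX hpq hp hq hz hv
      · subst e
        have hz : v = s ∨ v = t := by
          rcases hst' with (h | h) | (h | h)
          · exact Or.inl h.symm
          · exact absurd h.symm hys
          · exact Or.inr h.symm
          · exact absurd h.symm hyt
        exact one hC hc hCS hyS hvX hpX hqX hpq hp hq hz hw

/-- the case that `C` is intact -/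
theorem core {p q : V} {A B C : Set V} (K : K5m G {p} {q} A B C) (hA : Two G p q C A)
    (hB : Two G p q C B) {s t : V} (hs : s ∉ C) (ht : t ∉ C) (S : Set V)
    (hS : ∀ x, x ∈ S ↔ (x = p ∨ x = q ∨ x ∈ A ∨ x ∈ B ∨ x ∈ C) ∧ x ≠ s ∧ x ≠ t) : Cn G S := by
  have hCS : C ⊆ S := fun x hx => (hS x).mpr ⟨Or.inr (Or.inr (Or.inr (Or.inr hx))),
    fun h => hs (h ▸ hx), fun h => ht (h ▸ hx)⟩
  obtain ⟨c, hc⟩ := K.cC.1
  have hpq : p ≠ q := fun h => Set.disjoint_left.mp K.dPQ rfl (Set.mem_singleton_iff.mpr h)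
  have hpA : p ∉ A := fun h => Set.disjoint_left.mp K.dPA rfl h
  have hpB : p ∉ B := fun h => Set.disjoint_left.mp K.dPB rfl h
  have hqA : q ∉ A := fun h => Set.disjoint_left.mp K.dQA rfl h
  have hqB : q ∉ B := fun h => Set.disjoint_left.mp K.dQB rfl h
  have hp : p ≠ s → p ≠ t → Jn G S c p := by
    intro h1 h2
    obtain ⟨x, hx, c', hc', h3⟩ := K.tPC
    rw [Set.mem_singleton_iff] at hx
    subst hx
    exact ((K.cC.2 c hc c' hc').mono hCS).trans
      (Jn.adj (hCS hc') ((hS x).mpr ⟨Or.inl rfl, h1, h2⟩) h3.symm)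
  have hq : q ≠ s → q ≠ t → Jn G S c q := by
    intro h1 h2
    obtain ⟨x, hx, c', hc', h3⟩ := K.tQC
    rw [Set.mem_singleton_iff] at hx
    subst hx
    exact ((K.cC.2 c hc c' hc').mono hCS).trans
      (Jn.adj (hCS hc') ((hS x).mpr ⟨Or.inr (Or.inl rfl), h1, h2⟩) h3.symm)
  refine Cn.of_center (hCS hc) fun y hy => ?_
  obtain ⟨hy1, hys, hyt⟩ := (hS y).mp hy
  rcases hy1 with h | h | h | h | h
  · subst h; exact hp hys hyt
  · subst h; exact hq hys hyt
  · exact bag K.cC hc hCS K.cA (fun x hx h1 h2 => (hS x).mpr ⟨Or.inr (Or.inr (Or.inl hx)), h1, h2⟩)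
      K.tAC hpA hqA hpq hp hq hA y h hys hyt
  · exact bag K.cC hc hCS K.cB
      (fun x hx h1 h2 => (hS x).mpr ⟨Or.inr (Or.inr (Or.inr (Or.inl hx))), h1, h2⟩)
      K.tBC hpB hqB hpq hp hq hB y h hys hyt
  · exact (K.cC.2 c hc y h).mono hCS

end MPCM

open MPCM in
theorem specMPC : SpecMPC.{u} := by
  intro V G p q A B C K hC hB hA s t
  -- one of `A`, `B`, `C` is intact
  have h3 : (s ∉ C ∧ t ∉ C) ∨ (s ∉ B ∧ t ∉ B) ∨ (s ∉ A ∧ t ∉ A) := by
    by_contra hn
    have hAB : ∀ x, x ∈ A → x ∉ B := fun x hx => Set.disjoint_left.mp K.dAB hx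
    have hAC : ∀ x, x ∈ A → x ∉ C := fun x hx => Set.disjoint_left.mp K.dAC hx
    have hBC : ∀ x, x ∈ B → x ∉ C := fun x hx => Set.disjoint_left.mp K.dBC hx
    have := hAB s
    have := hAB t
    have := hAC s
    have := hAC t
    have := hBC s
    have := hBC t
    tauto
  rcases h3 with h | h | h
  · refine core K (two_of_sm hA).2 (two_of_sm hB).2 h.1 h.2 _ fun x => ?_
    simp only [Set.mem_sdiff, Set.mem_union, Set.mem_singleton_iff, Set.mem_insert_iff]
    tauto
  · refine core K.swapBC (two_of_sm hA).1 (two_of_sm hC).2 h.1 h.2 _ fun x => ?_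
    simp only [Set.mem_sdiff, Set.mem_union, Set.mem_singleton_iff, Set.mem_insert_iff]
    tauto
  · refine core K.swapAB.swapBC (two_of_sm hB).1 (two_of_sm hC).1 h.1 h.2 _ fun x => ?_
    simp only [Set.mem_sdiff, Set.mem_union, Set.mem_singleton_iff, Set.mem_insert_iff]
    tauto

end Pool.Agent.Lib.MPbafc89.KP
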