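import Pool.Agent.Lib.MP_bafc89_co.KP.Spec

/-!
# MP_bafc89_co, module MPD: size and diameter of the union of a small model
-/

set_option autoImplicit false

namespace Pool.Agent.Lib.MPbafc89.KP

open SimpleGraph
open Pool.Agent.Lib.MPbafc89.BQ (Jn Cn)
open Pool.Agent.Lib.MPbafc89.KE (Tch qg IsMinor IsInducedMinor)

universe u v

namespace MPDM

variable {V : Type u} {G : SimpleGraph V}

theorem near {P Q A B C : Set V} (h : Sm G P Q A B C) : ∀ x ∈ C, ∀ y ∈ C, x = y ∨ G.Adj x y := by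
  rcases h with ⟨c, rfl⟩ | ⟨v, w, -, rfl, hvw, -, -⟩
  · intro x hx y hy
    rw [Set.mem_singleton_iff] at hx hy
    exact Or.inl (hx.trans hy.symm)
  · intro x hx y hy
    rw [Set.mem_insert_iff, Set.mem_singleton_iff] at hx hy
    rcases hx with rfl | rfl <;> rcases hy with rfl | rfl
    · exact Or.inl rfl
    · exact Or.inr hvw
    · exact Or.inr hvw.symm
    · exact Or.inl rfl

/-- the relation of the diameter statement -/
def R (G : SimpleGraph V) (D : Set V) (x y : V) : Prop :=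
  ∃ a ∈ D, ∃ b ∈ D, (x = a ∨ G.Adj x a) ∧ (a = b ∨ G.Adj a b) ∧ (b = y ∨ G.Adj b y)

theorem R.symm {D : Set V} {x y : V} (h : R G D x y) : R G D y x := by
  obtain ⟨a, ha, b, hb, h1, h2, h3⟩ := h
  exact ⟨b, hb, a, ha, h3.imp Eq.symm SimpleGraph.Adj.symm, h2.imp Eq.symm SimpleGraph.Adj.symm,
    h1.imp Eq.symm SimpleGraph.Adj.symm⟩

theorem same {D X : Set V} (hX : X ⊆ D) (hn : ∀ x ∈ X, ∀ y ∈ X, x = y ∨ G.Adj x y) {x y : V}
    (hx : x ∈ X) (hy : y ∈ X) : R G D x y :=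
  ⟨x, hX hx, y, hX hy, Or.inl rfl, hn x hx y hy, Or.inl rfl⟩

theorem two {D X Y : Set V} (hX : X ⊆ D) (hY : Y ⊆ D)
    (hnX : ∀ x ∈ X, ∀ y ∈ X, x = y ∨ G.Adj x y) (hnY : ∀ x ∈ Y, ∀ y ∈ Y, x = y ∨ G.Adj x y)
    (ht : Tch G X Y) {x y : V} (hx : x ∈ X) (hy : y ∈ Y) : R G D x y := by
  obtain ⟨a, ha, b, hb, hab⟩ := ht
  exact ⟨a, hX ha, b, hY hb, hnX x hx a ha, Or.inr hab, hnY b hb y hy⟩

theorem single (p : V) : ∀ x ∈ ({p} : Set V), ∀ y ∈ ({p} : Set V), x = y ∨ G.Adj x y := by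
  intro x hx y hy
  rw [Set.mem_singleton_iff] at hx hy
  exact Or.inl (hx.trans hy.symm)

end MPDM

open MPDM in
theorem specMPD : SpecMPD.{u} := by
  intro V G p q A B C h hC hB hA
  have nA := near hA
  have nB := near hB
  have nC := near hC
  have np : ∀ x ∈ ({p} : Set V), ∀ y ∈ ({p} : Set V), x = y ∨ G.Adj x y := single p
  have nq : ∀ x ∈ ({q} : Set V), ∀ y ∈ ({q} : Set V), x = y ∨ G.Adj x y := single q
  have sp : ({p} : Set V) ⊆ {p} ∪ {q} ∪ A ∪ B ∪ C := fun x hx =>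
    Or.inl (Or.inl (Or.inl (Or.inl hx)))
  have sq : ({q} : Set V) ⊆ {p} ∪ {q} ∪ A ∪ B ∪ C := fun x hx =>
    Or.inl (Or.inl (Or.inl (Or.inr hx)))
  have sA : A ⊆ {p} ∪ {q} ∪ A ∪ B ∪ C := fun x hx => Or.inl (Or.inl (Or.inr hx))
  have sB : B ⊆ {p} ∪ {q} ∪ A ∪ B ∪ C := fun x hx => Or.inl (Or.inr hx)
  have sC : C ⊆ {p} ∪ {q} ∪ A ∪ B ∪ C := fun x hx => Or.inr hx
  constructor
  · obtain ⟨a, ha⟩ := h.cA.1
    obtain ⟨b, hb⟩ := h.cB.1
    obtain ⟨c, hc⟩ := h.cC.1
    have hp : p ∈ ({p} : Set V) := rfl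
    have hq : q ∈ ({q} : Set V) := rfl
    have hpq : p ≠ q := h.dPQ.ne_of_mem hp hq
    have hpa : p ≠ a := h.dPA.ne_of_mem hp ha
    have hpb : p ≠ b := h.dPB.ne_of_mem hp hb
    have hpc : p ≠ c := h.dPC.ne_of_mem hp hc
    have hqa : q ≠ a := h.dQA.ne_of_mem hq ha
    have hqb : q ≠ b := h.dQB.ne_of_mem hq hb
    have hqc : q ≠ c := h.dQC.ne_of_mem hq hc
    have hab : a ≠ b := h.dAB.ne_of_mem ha hb
    have hac : a ≠ c := h.dAC.ne_of_mem ha hc
    have hbc : b ≠ c := h.dBC.ne_of_mem hb hc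
    have hsub : ({p, q, a, b, c} : Set V) ⊆ {p} ∪ {q} ∪ A ∪ B ∪ C := by
      intro x hx
      simp only [Set.mem_insert_iff, Set.mem_singleton_iff] at hx
      rcases hx with rfl | rfl | rfl | rfl | rfl
      · exact sp rfl
      · exact sq rfl
      · exact sA ha
      · exact sB hb
      · exact sC hc
    have hcard : ({p, q, a, b, c} : Set V).encard = 5 := by
      rw [Set.encard_insert_of_notMem (by simp [hpq, hpa, hpb, hpc]),
        Set.encard_insert_of_notMem (by simp [hqa, hqb, hqc]),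
        Set.encard_insert_of_notMem (by simp [hab, hac]),
        Set.encard_insert_of_notMem (by simp [hbc]), Set.encard_singleton]
      norm_num
    rw [← hcard]
    exact Set.encard_le_encard hsub
  · have hpq : R G ({p} ∪ {q} ∪ A ∪ B ∪ C) p q := by
      obtain ⟨x, hx, a, ha, hxa⟩ := h.tPA
      obtain ⟨y, hy, b, hb, hyb⟩ := h.tQA
      rw [Set.mem_singleton_iff] at hx hy
      subst hx hy
      exact ⟨a, sA ha, b, sA hb, Or.inr hxa, nA a ha b hb, Or.inr hyb.symm⟩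
    intro x hx y hy
    change R G ({p} ∪ {q} ∪ A ∪ B ∪ C) x y
    rcases hx with (((hx | hx) | hx) | hx) | hx <;> rcases hy with (((hy | hy) | hy) | hy) | hy
    · exact same sp np hx hy
    · rw [Set.mem_singleton_iff] at hx hy
      subst hx hy
      exact hpq
    · exact two sp sA np nA h.tPA hx hy
    · exact two sp sB np nB h.tPB hx hy
    · exact two sp sC np nC h.tPC hx hy
    · rw [Set.mem_singleton_iff] at hx hy
      subst hx hy
      exact hpq.symm
    · exact same sq nq hx hy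
    · exact two sq sA nq nA h.tQA hx hy
    · exact two sq sB nq nB h.tQB hx hy
    · exact two sq sC nq nC h.tQC hx hy
    · exact (two sp sA np nA h.tPA hy hx).symm
    · exact (two sq sA nq nA h.tQA hy hx).symm
    · exact same sA nA hx hy
    · exact two sA sB nA nB h.tAB hx hy
    · exact two sA sC nA nC h.tAC hx hy
    · exact (two sp sB np nB h.tPB hy hx).symm
    · exact (two sq sB nq nB h.tQB hy hx).symm
    · exact (two sA sB nA nB h.tAB hy hx).symm
    · exact same sB nB hx hy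
    · exact two sB sC nB nC h.tBC hx hy
    · exact (two sp sC np nC h.tPC hy hx).symm
    · exact (two sq sC nq nC h.tQC hy hx).symm
    · exact (two sA sC nA nC h.tAC hy hx).symm
    · exact (two sB sC nB nC h.tBC hy hx).symm
    · exact same sC nC hx hy

end Pool.Agent.Lib.MPbafc89.KP
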