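import Pool.Agent.Lib.MP_bafc89_co.KP.Spec

/-!
# MPR: the union of the bags of a smallest model is rooted
-/

set_option autoImplicit false

namespace Pool.Agent.Lib.MPbafc89.KP

open SimpleGraph
open Pool.Agent.Lib.MPbafc89.BQ (Jn Cn)
open Pool.Agent.Lib.MPbafc89.KE (Tch qg IsMinor IsInducedMinor)

universe u v

namespace MPRM

variable {V : Type u} {G : SimpleGraph V}

/-- `a` and `b` are in different bags of a `K_4` model inside `D` -/
def Gd (G : SimpleGraph V) (D : Set V) (a b : V) : Prop :=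
  ∃ A B C E : Set V, K4 G A B C E ∧ A ⊆ D ∧ B ⊆ D ∧ C ⊆ D ∧ E ⊆ D ∧ a ∈ A ∧ b ∈ B

theorem K4.sw {A B C D : Set V} (h : K4 G A B C D) : K4 G B A C D :=
  ⟨h.cB, h.cA, h.cC, h.cD, h.dAB.symm, h.dBC, h.dBD, h.dAC, h.dAD, h.dCD, h.tAB.symm, h.tBC, h.tBD,
    h.tAC, h.tAD, h.tCD⟩

theorem Gd.symm {D : Set V} {a b : V} (h : Gd G D a b) : Gd G D b a := by
  obtain ⟨A, B, C, E, hK, hA, hB, hC, hE, ha, hb⟩ := h
  exact ⟨B, A, C, E, K4.sw hK, hB, hA, hC, hE, hb, ha⟩

theorem tch_sub {x : V} {S T : Set V} (hx : x ∈ S) (h : Tch G {x} T) : Tch G S T :=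
  h.mono (Set.singleton_subset_iff.2 hx) (Set.Subset.refl _)

theorem dis1 {x : V} {S T : Set V} (hx : x ∈ S) (h : Disjoint S T) : Disjoint {x} T :=
  h.mono_left (Set.singleton_subset_iff.2 hx)

theorem dis2 {x y : V} {T : Set V} (h1 : Disjoint {x} T) (h2 : Disjoint {y} T) :
    Disjoint ({x, y} : Set V) T := by
  rw [Set.insert_eq, Set.disjoint_union_left]
  exact ⟨h1, h2⟩

theorem tch_split {x y : V} {T : Set V} (h : Tch G {x, y} T) : Tch G {x} T ∨ Tch G {y} T := by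
  obtain ⟨a, ha, b, hb, hab⟩ := h
  rcases ha with rfl | ha
  · exact Or.inl ⟨a, rfl, b, hb, hab⟩
  · exact Or.inr ⟨a, ha, b, hb, hab⟩

theorem cn_pair {x y : V} (h : G.Adj x y) : Cn G ({x, y} : Set V) := by
  refine Pool.Agent.Lib.MPbafc89.KE.cn_of_clique ⟨x, Or.inl rfl⟩ ?_
  rintro a (rfl | ha) b (rfl | hb) hab
  · exact absurd rfl hab
  · rw [Set.mem_singleton_iff] at hb
    subst hb
    exact h
  · rw [Set.mem_singleton_iff] at ha
    subst ha
    exact h.symm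
  · rw [Set.mem_singleton_iff] at ha hb
    rw [ha, hb] at hab
    exact absurd rfl hab

theorem adj_of_tch {x y : V} (h : Tch G {x} {y}) : G.Adj x y := by
  obtain ⟨a, ha, b, hb, hab⟩ := h
  rw [Set.mem_singleton_iff] at ha hb
  subst ha
  subst hb
  exact hab

theorem cn_insert {x : V} {S : Set V} (hS : Cn G S) (h : Tch G {x} S) : Cn G ({x} ∪ S) := by
  obtain ⟨a, ha, b, hb, hab⟩ := h
  exact Cn.union_adj (Cn.singleton x) hS ha hb hab

section
variable {p q : V} {A B C D : Set V}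

/-- `p` and an element of `A` -/
theorem l1 (h : K5m G {p} {q} A B C) (hp : p ∈ D) (hA : A ⊆ D) (hB : B ⊆ D) (hC : C ⊆ D) {b : V}
    (hb : b ∈ A) : Gd G D p b :=
  ⟨{p}, A, B, C, ⟨h.cP, h.cA, h.cB, h.cC, h.dPA, h.dPB, h.dPC, h.dAB, h.dAC, h.dBC, h.tPA, h.tPB,
    h.tPC, h.tAB, h.tAC, h.tBC⟩, Set.singleton_subset_iff.2 hp, hA, hB, hC, rfl, hb⟩

/-- elements of `A` and `B` -/
theorem l2 (h : K5m G {p} {q} A B C) (hp : p ∈ D) (hA : A ⊆ D) (hB : B ⊆ D) (hC : C ⊆ D) {a b : V}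
    (ha : a ∈ A) (hb : b ∈ B) : Gd G D a b :=
  ⟨A, B, {p}, C, ⟨h.cA, h.cB, h.cP, h.cC, h.dAB, h.dPA.symm, h.dAC, h.dPB.symm, h.dBC, h.dPC,
    h.tAB, h.tPA.symm, h.tAC, h.tPB.symm, h.tBC, h.tPC⟩, hA, hB, Set.singleton_subset_iff.2 hp, hC,
    ha, hb⟩

/-- `p` and `q` -/
theorem l3 (h : K5m G {p} {q} A B C) (hp : p ∈ D) (hq : q ∈ D) (hA : A ⊆ D) (hB : B ⊆ D)
    (hC : C ⊆ D) : Gd G D p q := by
  refine ⟨{p} ∪ A, {q}, B, C, ⟨cn_insert h.cA h.tPA, h.cQ, h.cB, h.cC, ?_, ?_, ?_, h.dQB, h.dQC,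
    h.dBC, ?_, ?_, ?_, h.tQB, h.tQC, h.tBC⟩, ?_, Set.singleton_subset_iff.2 hq, hB, hC,
    Or.inl rfl, rfl⟩
  · rw [Set.disjoint_union_left]
    exact ⟨h.dPQ, h.dQA.symm⟩
  · rw [Set.disjoint_union_left]
    exact ⟨h.dPB, h.dAB⟩
  · rw [Set.disjoint_union_left]
    exact ⟨h.dPC, h.dAC⟩
  · exact h.tQA.symm.mono Set.subset_union_right (Set.Subset.refl _)
  · exact h.tPB.mono Set.subset_union_left (Set.Subset.refl _)
  · exact h.tPC.mono Set.subset_union_left (Set.Subset.refl _)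
  · exact Set.union_subset (Set.singleton_subset_iff.2 hp) hA

/-- second alternative for `y` -/
theorem l4a {x y : V} (h : K5m G {p} {q} A B C) (hp : p ∈ D) (hA : A ⊆ D) (hB : B ⊆ D)
    (hC : C ⊆ D) (hC' : C = {x, y}) (hxy : x ≠ y) (hadj : G.Adj x y) (yA : Tch G {y} A)
    (yB : Tch G {y} B) (yp : ¬ Tch G {y} {p}) : Gd G D x y := by
  have hx : x ∈ C := by rw [hC']; exact Or.inl rfl
  have hy : y ∈ C := by rw [hC']; exact Or.inr rfl
  have xp : Tch G {x} {p} := by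
    have h1 : Tch G C {p} := h.tPC.symm
    rw [hC'] at h1
    rcases tch_split h1 with h2 | h2
    · exact h2
    · exact absurd h2 yp
  have hxA : Disjoint {x} A := dis1 hx h.dAC.symm
  have hyA : Disjoint {y} A := dis1 hy h.dAC.symm
  have hxB : Disjoint {x} B := dis1 hx h.dBC.symm
  have hyB : Disjoint {y} B := dis1 hy h.dBC.symm
  have hpy : Disjoint ({p} : Set V) {y} := (dis1 hy h.dPC.symm).symm
  refine ⟨{x, p}, {y}, A, B, ⟨cn_pair (adj_of_tch xp), Cn.singleton y, h.cA, h.cB, ?_, ?_, ?_,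
    hyA, hyB, h.dAB, ?_, ?_, ?_, yA, yB, h.tAB⟩, ?_, Set.singleton_subset_iff.2 (hC hy), hA, hB,
    Or.inl rfl, rfl⟩
  · exact dis2 (Set.disjoint_singleton.2 hxy) hpy
  · exact dis2 hxA h.dPA
  · exact dis2 hxB h.dPB
  · exact ⟨x, Or.inl rfl, y, rfl, hadj⟩
  · exact tch_sub (Or.inr rfl) h.tPA
  · exact tch_sub (Or.inr rfl) h.tPB
  · rintro z (rfl | hz)
    · exact hC hx
    · rw [Set.mem_singleton_iff] at hz
      rw [hz]
      exact hp

/-- both first alternative, `x` touches `A`, `y` touches `B` -/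
theorem l5 {x y : V} (h : K5m G {p} {q} A B C) (hp : p ∈ D) (hA : A ⊆ D) (hB : B ⊆ D)
    (hC : C ⊆ D) (hx : x ∈ C) (hy : y ∈ C) (hxy : x ≠ y) (hadj : G.Adj x y) (xA : Tch G {x} A)
    (yB : Tch G {y} B) (xp : Tch G {x} {p}) (yp : Tch G {y} {p}) : Gd G D x y := by
  refine ⟨{x} ∪ A, {y}, {p}, B, ⟨cn_insert h.cA xA, Cn.singleton y, h.cP, h.cB, ?_, ?_, ?_,
    dis1 hy h.dPC.symm, dis1 hy h.dBC.symm, h.dPB, ?_, ?_, ?_, yp, yB, h.tPB⟩, ?_,
    Set.singleton_subset_iff.2 (hC hy), Set.singleton_subset_iff.2 hp, hB, Or.inl rfl, rfl⟩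
  · rw [Set.disjoint_union_left]
    exact ⟨Set.disjoint_singleton.2 hxy, (dis1 hy h.dAC.symm).symm⟩
  · rw [Set.disjoint_union_left]
    exact ⟨dis1 hx h.dPC.symm, h.dPA.symm⟩
  · rw [Set.disjoint_union_left]
    exact ⟨dis1 hx h.dBC.symm, h.dAB⟩
  · exact ⟨x, Or.inl rfl, y, rfl, hadj⟩
  · exact tch_sub (Or.inl rfl) xp
  · exact h.tAB.mono Set.subset_union_right (Set.Subset.refl _)
  · exact Set.union_subset (Set.singleton_subset_iff.2 (hC hx)) hA

theorem l4b {x y : V} (h : K5m G {p} {q} A B C) (hp : p ∈ D) (hA : A ⊆ D) (hB : B ⊆ D)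
    (hC : C ⊆ D) (hC' : C = {x, y}) (hxy : x ≠ y) (hadj : G.Adj x y)
    (hPx : Pat G {p} {q} A B {x}) (hPy : Pat G {p} {q} A B {y}) : Gd G D x y := by
  have hx : x ∈ C := by rw [hC']; exact Or.inl rfl
  have hy : y ∈ C := by rw [hC']; exact Or.inr rfl
  rcases hPy with ⟨yp, yq, yn⟩ | ⟨yA, yB, yp, yq⟩
  · rcases hPx with ⟨xp, xq, xn⟩ | ⟨xA, xB, xp, xq⟩
    · have hCA : Tch G {x} A ∨ Tch G {y} A := by
        apply tch_split
        rw [← hC']
        exact h.tAC.symm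
      have hCB : Tch G {x} B ∨ Tch G {y} B := by
        apply tch_split
        rw [← hC']
        exact h.tBC.symm
      by_cases xA : Tch G {x} A
      · have yB : Tch G {y} B := hCB.resolve_left fun hh => xn ⟨xA, hh⟩
        exact l5 h hp hA hB hC hx hy hxy hadj xA yB xp yp
      · have yA : Tch G {y} A := hCA.resolve_left xA
        have xB : Tch G {x} B := hCB.resolve_right fun hh => yn ⟨yA, hh⟩
        exact l5 h.swapAB hp hB hA hC hx hy hxy hadj xB yA xp yp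
    · exact (l4a h hp hA hB hC (by rw [hC', Set.pair_comm]) hxy.symm hadj.symm xA xB xp).symm
  · exact l4a h hp hA hB hC hC' hxy hadj yA yB yp

/-- two elements of `C` -/
theorem l4 {a b : V} (h : K5m G {p} {q} A B C) (hS : Sm G {p} {q} A B C) (hp : p ∈ D) (hA : A ⊆ D)
    (hB : B ⊆ D) (hC : C ⊆ D) (ha : a ∈ C) (hb : b ∈ C) (hab : a ≠ b) : Gd G D a b := by
  rcases hS with ⟨c, hc⟩ | ⟨v, w, hvw, hC', hadj, hPv, hPw⟩
  · rw [hc, Set.mem_singleton_iff] at ha hb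
    rw [ha, hb] at hab
    exact absurd rfl hab
  · have hg := l4b h hp hA hB hC hC' hvw hadj hPv hPw
    rw [hC'] at ha hb
    rcases ha with rfl | ha
    · rcases hb with rfl | hb
      · exact absurd rfl hab
      · rw [Set.mem_singleton_iff] at hb
        rw [hb]
        exact hg
    · rw [Set.mem_singleton_iff] at ha
      subst ha
      rcases hb with rfl | hb
      · exact hg.symm
      · rw [Set.mem_singleton_iff] at hb
        rw [hb] at hab
        exact absurd rfl hab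

end

end MPRM

open MPRM

theorem specMPR : SpecMPR.{u} := by
  intro V G p q A B C h hC hB hA
  set D : Set V := {p} ∪ {q} ∪ A ∪ B ∪ C with hD
  have hpD : p ∈ D := Or.inl (Or.inl (Or.inl (Or.inl rfl)))
  have hqD : q ∈ D := Or.inl (Or.inl (Or.inl (Or.inr rfl)))
  have hAD : A ⊆ D := fun z hz => Or.inl (Or.inl (Or.inr hz))
  have hBD : B ⊆ D := fun z hz => Or.inl (Or.inr hz)
  have hCD : C ⊆ D := fun z hz => Or.inr hz
  have hACB := h.swapBC
  have hBAC := h.swapAB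
  have hBCA := hBAC.swapBC
  have hCAB := hACB.swapAB
  have pA : ∀ z ∈ A, Gd G D p z := fun z hz => l1 h hpD hAD hBD hCD hz
  have pB : ∀ z ∈ B, Gd G D p z := fun z hz => l1 hBAC hpD hBD hAD hCD hz
  have pC : ∀ z ∈ C, Gd G D p z := fun z hz => l1 hCAB hpD hCD hAD hBD hz
  have qA : ∀ z ∈ A, Gd G D q z := fun z hz => l1 h.swapPQ hqD hAD hBD hCD hz
  have qB : ∀ z ∈ B, Gd G D q z := fun z hz => l1 hBAC.swapPQ hqD hBD hAD hCD hz
  have qC : ∀ z ∈ C, Gd G D q z := fun z hz => l1 hCAB.swapPQ hqD hCD hAD hBD hz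
  have AB : ∀ y ∈ A, ∀ z ∈ B, Gd G D y z := fun y hy z hz => l2 h hpD hAD hBD hCD hy hz
  have AC : ∀ y ∈ A, ∀ z ∈ C, Gd G D y z := fun y hy z hz => l2 hACB hpD hAD hCD hBD hy hz
  have BC : ∀ y ∈ B, ∀ z ∈ C, Gd G D y z := fun y hy z hz => l2 hBCA hpD hBD hCD hAD hy hz
  have pq : Gd G D p q := l3 h hpD hqD hAD hBD hCD
  have AA : ∀ y ∈ A, ∀ z ∈ A, y ≠ z → Gd G D y z := fun y hy z hz hyz =>
    l4 hBCA hA hpD hBD hCD hAD hy hz hyz
  have BB : ∀ y ∈ B, ∀ z ∈ B, y ≠ z → Gd G D y z := fun y hy z hz hyz =>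
    l4 hACB hB hpD hAD hCD hBD hy hz hyz
  have CC : ∀ y ∈ C, ∀ z ∈ C, y ≠ z → Gd G D y z := fun y hy z hz hyz =>
    l4 h hC hpD hAD hBD hCD hy hz hyz
  intro a ha b hb hab
  show Gd G D a b
  rcases ha with (((ha | ha) | ha) | ha) | ha
  · rw [Set.mem_singleton_iff] at ha
    subst ha
    rcases hb with (((hb | hb) | hb) | hb) | hb
    · exact absurd (Set.mem_singleton_iff.1 hb).symm hab
    · rw [Set.mem_singleton_iff] at hb
      rw [hb]
      exact pq
    · exact pA b hb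
    · exact pB b hb
    · exact pC b hb
  · rw [Set.mem_singleton_iff] at ha
    subst ha
    rcases hb with (((hb | hb) | hb) | hb) | hb
    · rw [Set.mem_singleton_iff] at hb
      rw [hb]
      exact pq.symm
    · exact absurd (Set.mem_singleton_iff.1 hb).symm hab
    · exact qA b hb
    · exact qB b hb
    · exact qC b hb
  · rcases hb with (((hb | hb) | hb) | hb) | hb
    · rw [Set.mem_singleton_iff] at hb
      rw [hb]
      exact (pA a ha).symm
    · rw [Set.mem_singleton_iff] at hb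
      rw [hb]
      exact (qA a ha).symm
    · exact AA a ha b hb hab
    · exact AB a ha b hb
    · exact AC a ha b hb
  · rcases hb with (((hb | hb) | hb) | hb) | hb
    · rw [Set.mem_singleton_iff] at hb
      rw [hb]
      exact (pB a ha).symm
    · rw [Set.mem_singleton_iff] at hb
      rw [hb]
      exact (qB a ha).symm
    · exact (AB b hb a ha).symm
    · exact BB a ha b hb hab
    · exact BC a ha b hb
  · rcases hb with (((hb | hb) | hb) | hb) | hb
    · rw [Set.mem_singleton_iff] at hb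
      rw [hb]
      exact (pC a ha).symm
    · rw [Set.mem_singleton_iff] at hb
      rw [hb]
      exact (qC a ha).symm
    · exact (AC b hb a ha).symm
    · exact (BC b hb a ha).symm
    · exact CC a ha b hb hab

end Pool.Agent.Lib.MPbafc89.KP
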