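import Pool.Agent.Lib.MP_bafc89_co.KP.Spec

/-!
# Module NC2: two vertices whose removal leaves a connected set
-/

set_option autoImplicit false

namespace Pool.Agent.Lib.MPbafc89.KP

open SimpleGraph
open Pool.Agent.Lib.MPbafc89.BQ (Jn Cn)
open Pool.Agent.Lib.MPbafc89.KE (Tch qg IsMinor IsInducedMinor)

universe u v

namespace NC2M

/-- Induction towards all vertices but the farthest one. -/
theorem far {W : Type u} (H : SimpleGraph W) (hH : H.Connected) (c x : W)
    (hx : ∀ y, H.dist y c ≤ H.dist x c) (hcx : c ≠ x) (P : W → Prop) (hP : P c)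
    (hs : ∀ a b, a ≠ x → b ≠ x → H.Adj a b → P a → P b) : ∀ y, y ≠ x → P y := by
  have key : ∀ n y, H.dist y c ≤ n → y ≠ x → P y := by
    intro n
    induction n with
    | zero =>
      intro y hy _
      have h0 : H.dist y c = 0 := Nat.le_zero.1 hy
      have : y = c := (hH.dist_eq_zero_iff).1 h0
      rw [this]; exact hP
    | succ n ih =>
      intro y hy hyx
      obtain ⟨w, hw⟩ := hH.exists_walk_length_eq_dist y c
      cases w with
      | nil => exact hP
      | @cons _ y' _ h p =>
        rw [Walk.length_cons] at hw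
        have hd : H.dist y' c ≤ p.length := dist_le p
        have hyx' := hx y
        have hne : y' ≠ x := by
          rintro rfl
          omega
        exact hs y' y hne hyx h.symm (ih y' (by omega) hne)
  intro y hy
  exact key _ y le_rfl hy

theorem rem {V : Type u} {G : SimpleGraph V} {S : Set V} (hS : (G.induce S).Connected) (c x : S)
    (hx : ∀ y, (G.induce S).dist y c ≤ (G.induce S).dist x c) (hcx : c ≠ x) :
    Cn G (S \ {(x : V)}) := by
  have hmem : ∀ y : S, y ≠ x → (y : V) ∈ S \ {(x : V)} := fun y hy =>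
    ⟨y.2, fun h => hy (Subtype.ext h)⟩
  have h := far (G.induce S) hS c x hx hcx (fun y => Jn G (S \ {(x : V)}) (c : V) (y : V))
    (Jn.refl (hmem c hcx)) (by
      intro a b ha hb hab hPa
      exact hPa.trans (Jn.adj (hmem a ha) (hmem b hb) (by simpa using hab)))
  refine Cn.of_center (hmem c hcx) ?_
  rintro y ⟨hyS, hyx⟩
  exact h ⟨y, hyS⟩ (fun h => hyx (congrArg Subtype.val h))

theorem exists_far {W : Type u} [Finite W] [Nontrivial W] (H : SimpleGraph W) (hH : H.Connected)
    (c : W) : ∃ x, c ≠ x ∧ ∀ y, H.dist y c ≤ H.dist x c := by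
  obtain ⟨x, hx⟩ := Finite.exists_max (fun y => H.dist y c)
  refine ⟨x, ?_, hx⟩
  rintro rfl
  obtain ⟨y, hy⟩ := exists_ne c
  have h1 := hx y
  rw [H.dist_self] at h1
  have h0 : H.dist y c = 0 := Nat.le_zero.1 h1
  exact hy ((hH.dist_eq_zero_iff).1 h0)

end NC2M

open NC2M in
theorem specNC2 : SpecNC2.{u} := by
  intro V G S hS hfin hnt
  have hconn := Pool.Agent.Lib.MPbafc89.BQ.cn_iff.1 hS
  have : Finite S := hfin
  have : Nontrivial S := hnt.coe_sort
  obtain ⟨c, hc⟩ := hS.1
  obtain ⟨v, hcv, hv⟩ := exists_far (G.induce S) hconn ⟨c, hc⟩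
  obtain ⟨w, hvw, hw⟩ := exists_far (G.induce S) hconn v
  exact ⟨v, v.2, w, w.2, fun h => hvw (Subtype.ext h), rem hconn _ v hv hcv,
    rem hconn v w hw hvw⟩

end Pool.Agent.Lib.MPbafc89.KP
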