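import Pool.Agent.Lib.MP_bafc89_co.KP.Spec

/-!
# NM5: the quotient has no model of `K_5` minus an edge
-/

set_option autoImplicit false

namespace Pool.Agent.Lib.MPbafc89.KP

open SimpleGraph
open Pool.Agent.Lib.MPbafc89.BQ (Jn Cn)
open Pool.Agent.Lib.MPbafc89.KE (Tch qg IsMinor IsInducedMinor)

universe u v

namespace NM5M

/-- a set with at least five elements minus a set with at most one element has two elements -/
theorem two_left {V : Type u} {D S : Set V} (hD : (5 : ℕ∞) ≤ D.encard) (hS : S.Subsingleton) :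
    ∃ x ∈ D \ S, ∃ y ∈ D \ S, x ≠ y := by
  by_contra hcon
  push Not at hcon
  have h1 : (D \ S).encard ≤ 1 := by
    rw [Set.encard_le_one_iff]
    exact fun a b ha hb => hcon a ha b hb
  have h2 : S.encard ≤ 1 := by
    rw [Set.encard_le_one_iff]
    exact fun a b ha hb => hS ha hb
  have h3 : D.encard ≤ (D \ S).encard + S.encard := by
    refine (Set.encard_le_encard ?_).trans (Set.encard_union_le (D \ S) S)
    intro z hz
    by_cases hzS : z ∈ S
    · exact Or.inr hzS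
    · exact Or.inl ⟨hz, hzS⟩
  have h4 : (5 : ℕ∞) ≤ 1 + 1 := hD.trans (h3.trans (add_le_add h1 h2))
  have h5 : ((5 : ℕ) : ℕ∞) ≤ ((2 : ℕ) : ℕ∞) := by
    refine le_trans h4 ?_
    norm_num
  have h6 : (5 : ℕ) ≤ 2 := by exact_mod_cast h5
  omega

end NM5M

open NM5M

theorem specNM5 (hALF : SpecALF.{u}) (hQNT : SpecQNT.{u}) (hSNG : SpecSNG.{u}) (hTRF : SpecTRF.{u})
    (hBLK : SpecBLK.{u}) (hCNB : SpecCNB.{u}) : SpecNM5.{u} := by
  intro V G hN s T hcn hs hov hsub hint P Q A B C hK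
  have hNQ : NoT (qg G s) := hQNT V G s hcn hN
  obtain ⟨D', hD'⟩ := hALF (Quotient s) (qg G s) hNQ P Q A B C hK
  have hBl : ∀ U, (∃ D, Core G D ∧ U = Uc G D) → Bl G U := by
    rintro U ⟨D, hD, rfl⟩
    exact hBLK V G hN D hD
  have hnb : ∀ U, (∃ D, Core G D ∧ U = Uc G D) → ∀ x ∈ U, ∃ y ∈ U, G.Adj x y := by
    rintro U ⟨D, hD, rfl⟩ x hx
    exact hCNB V G D hD x hx
  have hS := hSNG V G s (fun U => ∃ D, Core G D ∧ U = Uc G D) T hcn hs hov hBl hsub hnb hint D' hD'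
  have hex : ∀ W : Quotient s, ∃ x : V, W ∈ D' → Quotient.mk s x = W ∧
      ∀ g h : V, Quotient.mk s g = W → Quotient.mk s h ∈ D' → Quotient.mk s h ≠ W → G.Adj g h →
        g = x := by
    intro W
    by_cases hW : W ∈ D'
    · obtain ⟨x, hx⟩ := hS W hW
      exact ⟨x, fun _ => hx⟩
    · exact ⟨W.out, fun h => absurd h hW⟩
  choose f hf using hex
  have hinj : Set.InjOn f D' := by
    intro a ha b hb hab
    rw [← (hf a ha).1, ← (hf b hb).1, hab]
  have hadj : ∀ a ∈ D', ∀ b ∈ D', ((qg G s).Adj a b ↔ G.Adj (f a) (f b)) := by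
    intro a ha b hb
    constructor
    · rintro ⟨hab, g, h, hg, hh, hgh⟩
      have e1 : g = f a := (hf a ha).2 g h hg (by rw [hh]; exact hb)
        (by rw [hh]; exact hab.symm) hgh
      have e2 : h = f b := (hf b hb).2 h g hh (by rw [hg]; exact ha)
        (by rw [hg]; exact hab) hgh.symm
      rw [← e1, ← e2]
      exact hgh
    · intro h
      refine ⟨?_, f a, f b, (hf a ha).1, (hf b hb).1, h⟩
      intro hab
      rw [hab] at h
      exact G.loopless.irrefl _ h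
  have hcore : Core G (f '' D') := hTRF V (Quotient s) G (qg G s) D' f hD' hinj hadj
  have hFU : ∃ D, Core G D ∧ Uc G (f '' D') = Uc G D := ⟨f '' D', hcore, rfl⟩
  have hDU : f '' D' ⊆ Uc G (f '' D') := by
    intro z hz
    exact Set.mem_iUnion.2 ⟨0, hz⟩
  obtain ⟨x, ⟨hx, hxT⟩, y, ⟨hy, hyT⟩, hxy⟩ := two_left hcore.big (hsub _ hFU)
  have hsxy : s x y := (hs x y).2 (Or.inr ⟨Uc G (f '' D'), hFU, ⟨hDU hx, hxT⟩, ⟨hDU hy, hyT⟩⟩)
  obtain ⟨a, ha, rfl⟩ := hx
  obtain ⟨b, hb, rfl⟩ := hy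
  apply hxy
  have e : Quotient.mk s (f a) = Quotient.mk s (f b) := Quotient.sound hsxy
  rw [(hf a ha).1, (hf b hb).1] at e
  rw [e]

end Pool.Agent.Lib.MPbafc89.KP
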