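import Pool.Agent.Lib.MP_bafc89_co.KP.Spec

/-! ONE: a connected set disjoint from a rooted set `D` which touches two elements of `D` contains
a vertex with two neighbours in `D`. -/

set_option autoImplicit false

namespace Pool.Agent.Lib.MPbafc89.KP

open SimpleGraph
open Pool.Agent.Lib.MPbafc89.BQ (Jn Cn)

universe u

namespace ONEM

/-- a finite connected subset touching the same two elements -/
theorem shrink {V : Type u} {G : SimpleGraph V} {C : Set V} (hC : Cn G C) {a b : V}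
    (ha : ∃ c ∈ C, G.Adj c a) (hb : ∃ c ∈ C, G.Adj c b) :
    ∃ C' : Set V, C' ⊆ C ∧ C'.Finite ∧ Cn G C' ∧ (∃ c ∈ C', G.Adj c a) ∧
      ∃ c ∈ C', G.Adj c b := by
  obtain ⟨p, hp, hpa⟩ := ha
  obtain ⟨q, hq, hqb⟩ := hb
  obtain ⟨w, hw⟩ := hC.2 p hp q hq
  refine ⟨{z | z ∈ w.support}, hw, ?_, ?_, ⟨p, w.start_mem_support, hpa⟩,
    ⟨q, w.end_mem_support, hqb⟩⟩
  · exact List.finite_toSet w.support
  · rw [Pool.Agent.Lib.MPbafc89.BQ.cn_iff]
    exact w.connected_induce_support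

theorem main {V : Type u} {G : SimpleGraph V} (hNC : SpecNC2.{u}) (hEX : SpecEX2.{u})
    (hG : NoT G) {D C : Set V} (hD : RK G D) (hdis : Disjoint C D) :
    ∀ n : ℕ, ∀ C' : Set V, C'.ncard = n → C' ⊆ C → C'.Finite → Cn G C' →
      (∃ x ∈ D, ∃ y ∈ D, x ≠ y ∧ (∃ c ∈ C', G.Adj c x) ∧ ∃ c ∈ C', G.Adj c y) →
      ∃ c ∈ C, ∃ x ∈ D, ∃ y ∈ D, x ≠ y ∧ G.Adj c x ∧ G.Adj c y := by
  intro n
  induction n using Nat.strong_induction_on with
  | _ n ih =>
    intro C' hn hsub hfin hcon hT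
    obtain ⟨x, hx, y, hy, hxy, hcx, hcy⟩ := hT
    by_cases hnt : C'.Nontrivial
    · obtain ⟨v, hv, _, _, _, hCv, _⟩ := hNC V G C' hcon hfin hnt
      have hlt : (C' \ {v}).ncard < n := by
        rw [← hn]
        exact Set.ncard_diff_singleton_lt_of_mem hv hfin
      have key : ∀ t, (∃ c ∈ C', G.Adj c t) → G.Adj v t ∨ ∃ c ∈ C' \ {v}, G.Adj c t := by
        rintro t ⟨c, hc, hct⟩
        by_cases hcv : c = v
        · left
          rw [← hcv]
          exact hct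
        · exact Or.inr ⟨c, ⟨hc, hcv⟩, hct⟩
      have h1 : ∀ s ∈ D, ∀ t ∈ D, s ≠ t → G.Adj v s → G.Adj v t →
          ∃ c ∈ C, ∃ x ∈ D, ∃ y ∈ D, x ≠ y ∧ G.Adj c x ∧ G.Adj c y :=
        fun s hs t ht hst hvs hvt => ⟨v, hsub hv, s, hs, t, ht, hst, hvs, hvt⟩
      have h2 : ∀ s ∈ D, ∀ t ∈ D, s ≠ t → (∃ c ∈ C' \ {v}, G.Adj c s) →
          (∃ c ∈ C' \ {v}, G.Adj c t) →
          ∃ c ∈ C, ∃ x ∈ D, ∃ y ∈ D, x ≠ y ∧ G.Adj c x ∧ G.Adj c y :=
        fun s hs t ht hst hvs hvt => ih _ hlt (C' \ {v}) rfl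
          (Set.diff_subset.trans hsub) (hfin.subset Set.diff_subset) hCv
          ⟨s, hs, t, ht, hst, hvs, hvt⟩
      obtain ⟨z, hz, hzx, hzy, hcz⟩ := hEX V G hG D C' hD hcon (hdis.mono_left hsub) x hx y hy hxy
        hcx hcy
      rcases key x hcx with kx | kx
      · rcases key y hcy with ky | ky
        · exact h1 x hx y hy hxy kx ky
        · rcases key z hcz with kz | kz
          · exact h1 x hx z hz hzx.symm kx kz
          · exact h2 y hy z hz hzy.symm ky kz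
      · rcases key y hcy with ky | ky
        · rcases key z hcz with kz | kz
          · exact h1 y hy z hz hzy.symm ky kz
          · exact h2 x hx z hz hzx.symm kx kz
        · exact h2 x hx y hy hxy kx ky
    · rw [Set.not_nontrivial_iff] at hnt
      obtain ⟨c, hc, hcx'⟩ := hcx
      obtain ⟨c', hc', hcy'⟩ := hcy
      have : c' = c := hnt hc' hc
      rw [this] at hcy'
      exact ⟨c, hsub hc, x, hx, y, hy, hxy, hcx', hcy'⟩

end ONEM

/-- A connected set which touches two elements of `D` contains a vertex with two neighbours. -/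
theorem specONE (hNC : SpecNC2.{u}) (hEX : SpecEX2.{u}) : SpecONE.{u} := by
  intro V G hG D C hD hC hdis a ha b hb hab hca hcb
  obtain ⟨C', hsub, hfin, hcon, h1, h2⟩ := ONEM.shrink hC hca hcb
  exact ONEM.main hNC hEX hG hD hdis _ C' rfl hsub hfin hcon ⟨a, ha, b, hb, hab, h1, h2⟩

end Pool.Agent.Lib.MPbafc89.KP
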