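import Pool.Agent.Lib.MP_bafc89_co.KP.Spec

/-!
# Module QI7: distances in the quotient, classes of diameter at most 7
-/

set_option autoImplicit false

namespace Pool.Agent.Lib.MPbafc89.KP

open SimpleGraph
open Pool.Agent.Lib.MPbafc89.KE (qg)

universe u

namespace QI7M

variable {V : Type u} {G : SimpleGraph V} {s : Setoid V}

theorem down {x y : V} (w : G.Walk x y) :
    (qg G s).edist (Quotient.mk s x) (Quotient.mk s y) ≤ w.length := by
  induction w with
  | nil =>
    rw [SimpleGraph.edist_self]
    exact bot_le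
  | @cons a b c hab p ih =>
    have h1 : (qg G s).edist (Quotient.mk s a) (Quotient.mk s b) ≤ 1 := by
      by_cases he : Quotient.mk s a = Quotient.mk s b
      · rw [he, SimpleGraph.edist_self]
        exact zero_le_one
      · apply le_of_eq
        rw [SimpleGraph.edist_eq_one_iff_adj]
        exact ⟨he, a, b, rfl, rfl, hab⟩
    rw [Walk.length_cons, Nat.cast_add, Nat.cast_one, add_comm]
    exact SimpleGraph.edist_triangle.trans (add_le_add h1 ih)

theorem up (hs : ∀ x y, s x y → G.edist x y ≤ 7) {a b : Quotient s} (w : (qg G s).Walk a b) :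
    ∀ x y : V, Quotient.mk s x = a → Quotient.mk s y = b →
      G.edist x y ≤ 8 * (w.length : ℕ∞) + 7 := by
  induction w with
  | nil =>
    intro x y hx hy
    have h1 : s x y := Quotient.exact (hx.trans hy.symm)
    refine (hs x y h1).trans ?_
    simp
  | @cons a c b hac p ih =>
    intro x y hx hy
    obtain ⟨-, x', c', hx', hc', hadj⟩ := id hac
    have h1 : G.edist x x' ≤ 7 := hs x x' (Quotient.exact (hx.trans hx'.symm))
    have h2 : G.edist x' c' ≤ 1 := le_of_eq (SimpleGraph.edist_eq_one_iff_adj.mpr hadj)
    have h3 := ih c' y hc' hy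
    calc G.edist x y ≤ G.edist x x' + G.edist x' y := SimpleGraph.edist_triangle
      _ ≤ G.edist x x' + (G.edist x' c' + G.edist c' y) :=
          add_le_add le_rfl SimpleGraph.edist_triangle
      _ ≤ 7 + (1 + (8 * (p.length : ℕ∞) + 7)) := add_le_add h1 (add_le_add h2 h3)
      _ = 8 * ((Walk.cons hac p).length : ℕ∞) + 7 := by
          rw [Walk.length_cons, Nat.cast_add, Nat.cast_one]
          ring

end QI7M

theorem specQI7 : SpecQI7.{u} := by
  intro V G s hs x y
  constructor
  · by_cases h : (qg G s).edist (Quotient.mk s x) (Quotient.mk s y) = ⊤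
    · rw [h]
      have h8 : (8 : ℕ∞) * ⊤ + 7 = ⊤ := by
        rw [ENat.mul_top (by norm_num)]
        rfl
      rw [h8]
      exact le_top
    · obtain ⟨w, hw⟩ := SimpleGraph.exists_walk_of_edist_ne_top h
      rw [← hw]
      exact QI7M.up hs w x y rfl rfl
  · by_cases h : G.edist x y = ⊤
    · rw [h]
      exact le_top
    · obtain ⟨w, hw⟩ := SimpleGraph.exists_walk_of_edist_ne_top h
      rw [← hw]
      exact QI7M.down w

end Pool.Agent.Lib.MPbafc89.KP
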