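import Pool.Agent.Lib.MP_bafc89_co.KP.Spec

/-!
# MP_bafc89_co, KP: module QNT

The quotient by an equivalence relation with connected classes satisfies `NoT`.
-/

set_option autoImplicit false

namespace Pool.Agent.Lib.MPbafc89.KP

open SimpleGraph
open Pool.Agent.Lib.MPbafc89.BQ (Jn Cn)
open Pool.Agent.Lib.MPbafc89.KE (Tch qg IsMinor IsInducedMinor)

universe u

theorem specQNT (hLF2 : SpecLF2.{u}) : SpecQNT.{u} := by
  intro V G s hs hN A B C D E hK hE hEA hEB hEC hED tA tB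
  obtain ⟨h1, h2, h3⟩ := hLF2 V G s hs
  have hd : ∀ P Q : Set (Quotient s), Disjoint P Q →
      Disjoint (Quotient.mk s ⁻¹' P) (Quotient.mk s ⁻¹' Q) := by
    intro P Q h
    exact h.preimage _
  have hK' : K4 G (Quotient.mk s ⁻¹' A) (Quotient.mk s ⁻¹' B) (Quotient.mk s ⁻¹' C)
      (Quotient.mk s ⁻¹' D) :=
    ⟨h1 A hK.cA, h1 B hK.cB, h1 C hK.cC, h1 D hK.cD, hd _ _ hK.dAB, hd _ _ hK.dAC, hd _ _ hK.dAD,
      hd _ _ hK.dBC, hd _ _ hK.dBD, hd _ _ hK.dCD, h2 _ _ hK.tAB, h2 _ _ hK.tAC, h2 _ _ hK.tAD,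
      h2 _ _ hK.tBC, h2 _ _ hK.tBD, h2 _ _ hK.tCD⟩
  rcases hN _ _ _ _ _ hK' (h1 E hE) (hd _ _ hEA) (hd _ _ hEB) (hd _ _ hEC) (hd _ _ hED)
    (h2 _ _ tA) (h2 _ _ tB) with h | h
  · exact Or.inl (h3 _ _ hEC h)
  · exact Or.inr (h3 _ _ hED h)

end Pool.Agent.Lib.MPbafc89.KP
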