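import Pool.Agent.Lib.MP_bafc89_co.KP.Spec

/-!
# MP_bafc89_co, KP, module SH5: the bags of a model of `K_5` minus an edge can be made finite
-/

set_option autoImplicit false

namespace Pool.Agent.Lib.MPbafc89.KP

open SimpleGraph
open Pool.Agent.Lib.MPbafc89.BQ (Jn Cn)
open Pool.Agent.Lib.MPbafc89.KE (Tch qg IsMinor IsInducedMinor)

universe u v

namespace SH5M

variable {V : Type u} {G : SimpleGraph V}

open Classical in
theorem cn_support {x y : V} (w : G.Walk x y) : Cn G {z | z ∈ w.support} := by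
  refine Cn.of_center (c := x) w.start_mem_support ?_
  intro z hz
  exact ⟨w.takeUntil z hz, fun t ht => w.support_takeUntil_subset_support hz ht⟩

theorem finite_sub {S : Set V} (hS : Cn G S) (T : Set V) (hT : T.Finite) (hTS : T ⊆ S) :
    ∃ S' : Set V, Cn G S' ∧ S'.Finite ∧ T ⊆ S' ∧ S' ⊆ S := by
  obtain ⟨c, hc⟩ := hS.1
  have key : ∃ S' : Set V, c ∈ S' ∧ Cn G S' ∧ S'.Finite ∧ T ⊆ S' ∧ S' ⊆ S := by
    revert hTS
    refine Set.Finite.induction_on (motive := fun T _ => T ⊆ S →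
      ∃ S' : Set V, c ∈ S' ∧ Cn G S' ∧ S'.Finite ∧ T ⊆ S' ∧ S' ⊆ S) T hT ?_ ?_
    · intro _
      exact ⟨{c}, rfl, Cn.singleton c, Set.finite_singleton c, Set.empty_subset _,
        Set.singleton_subset_iff.mpr hc⟩
    · intro a T ha hT ih hTS
      obtain ⟨S', hcS, hcn, hfin, hsub, hle⟩ := ih fun x hx => hTS (Set.mem_insert_of_mem a hx)
      obtain ⟨w, hw⟩ := hS.2 c hc a (hTS (Set.mem_insert a T))
      refine ⟨S' ∪ {z | z ∈ w.support}, Or.inl hcS,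
        Cn.union hcn (cn_support w) hcS w.start_mem_support,
        hfin.union w.support.finite_toSet, ?_, Set.union_subset hle fun z hz => hw z hz⟩
      rintro x (rfl | hx)
      · exact Or.inr w.end_mem_support
      · exact Or.inl (hsub hx)
  obtain ⟨S', _, h⟩ := key
  exact ⟨S', h⟩

/-- a finite connected subset containing four given points -/
theorem four {S : Set V} (hS : Cn G S) {a b c d : V} (ha : a ∈ S) (hb : b ∈ S) (hc : c ∈ S)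
    (hd : d ∈ S) : ∃ S' : Set V, Cn G S' ∧ S'.Finite ∧ S' ⊆ S ∧ a ∈ S' ∧ b ∈ S' ∧ c ∈ S' ∧
      d ∈ S' := by
  obtain ⟨S', h1, h2, h3, h4⟩ := finite_sub hS {a, b, c, d} (Set.toFinite _) (by
    rintro x (rfl | rfl | rfl | rfl)
    · exact ha
    · exact hb
    · exact hc
    · exact hd)
  exact ⟨S', h1, h2, h4, h3 (by simp), h3 (by simp), h3 (by simp), h3 (by simp)⟩

end SH5M

open SH5M in
theorem specSH5 : SpecSH5.{u} := by
  intro V G P Q A B C h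
  obtain ⟨p1, hp1, a1, ha1, e1⟩ := h.tPA
  obtain ⟨p2, hp2, b1, hb1, e2⟩ := h.tPB
  obtain ⟨p3, hp3, c1, hc1, e3⟩ := h.tPC
  obtain ⟨q1, hq1, a2, ha2, e4⟩ := h.tQA
  obtain ⟨q2, hq2, b2, hb2, e5⟩ := h.tQB
  obtain ⟨q3, hq3, c2, hc2, e6⟩ := h.tQC
  obtain ⟨a3, ha3, b3, hb3, e7⟩ := h.tAB
  obtain ⟨a4, ha4, c3, hc3, e8⟩ := h.tAC
  obtain ⟨b4, hb4, c4, hc4, e9⟩ := h.tBC
  obtain ⟨P', nP, fP, sP, mp1, mp2, mp3, -⟩ := four h.cP hp1 hp2 hp3 hp3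
  obtain ⟨Q', nQ, fQ, sQ, mq1, mq2, mq3, -⟩ := four h.cQ hq1 hq2 hq3 hq3
  obtain ⟨A', nA, fA, sA, ma1, ma2, ma3, ma4⟩ := four h.cA ha1 ha2 ha3 ha4
  obtain ⟨B', nB, fB, sB, mb1, mb2, mb3, mb4⟩ := four h.cB hb1 hb2 hb3 hb4
  obtain ⟨C', nC, fC, sC, mc1, mc2, mc3, mc4⟩ := four h.cC hc1 hc2 hc3 hc4
  exact ⟨P', Q', A', B', C',
    ⟨nP, nQ, nA, nB, nC, h.dPQ.mono sP sQ, h.dPA.mono sP sA, h.dPB.mono sP sB, h.dPC.mono sP sC,
      h.dQA.mono sQ sA, h.dQB.mono sQ sB, h.dQC.mono sQ sC, h.dAB.mono sA sB, h.dAC.mono sA sC,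
      h.dBC.mono sB sC, ⟨p1, mp1, a1, ma1, e1⟩, ⟨p2, mp2, b1, mb1, e2⟩, ⟨p3, mp3, c1, mc1, e3⟩,
      ⟨q1, mq1, a2, ma2, e4⟩, ⟨q2, mq2, b2, mb2, e5⟩, ⟨q3, mq3, c2, mc2, e6⟩,
      ⟨a3, ma3, b3, mb3, e7⟩, ⟨a4, ma4, c3, mc3, e8⟩, ⟨b4, mb4, c4, mc4, e9⟩⟩,
    fP, fQ, fA, fB, fC⟩

end Pool.Agent.Lib.MPbafc89.KP
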