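import Pool.Agent.Lib.MP_bafc89_co.KP.Spec

/-!
# SNG: a class of a core of the quotient touches the other classes in one of its vertices only
-/

set_option autoImplicit false

namespace Pool.Agent.Lib.MPbafc89.KP

open SimpleGraph
open Pool.Agent.Lib.MPbafc89.BQ (Jn Cn)
open Pool.Agent.Lib.MPbafc89.KE (Tch qg IsMinor IsInducedMinor)

universe u v

namespace SNGM

variable {V : Type u} {G : SimpleGraph V}

/-- a set with at least five elements has an element different from three given ones -/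
theorem exists_ne3 {D : Set V} (h : (5 : ℕ∞) ≤ D.encard) (a b c : V) :
    ∃ x ∈ D, x ≠ a ∧ x ≠ b ∧ x ≠ c := by
  by_contra hcon
  have hsub : D ⊆ {a, b, c} := by
    intro x hx
    by_contra hx'
    simp only [Set.mem_insert_iff, Set.mem_singleton_iff, not_or] at hx'
    exact hcon ⟨x, hx, hx'⟩
  have h1 : D.encard ≤ ({a, b, c} : Set V).encard := Set.encard_le_encard hsub
  have h2 : ({a, b, c} : Set V).encard ≤ ({b, c} : Set V).encard + 1 := Set.encard_insert_le _ _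
  have h3 : ({b, c} : Set V).encard ≤ ({c} : Set V).encard + 1 := Set.encard_insert_le _ _
  rw [Set.encard_singleton] at h3
  have h4 : ({a, b, c} : Set V).encard ≤ 1 + 1 + 1 := h2.trans (add_le_add_left h3 1)
  have h5 : (5 : ℕ∞) ≤ 1 + 1 + 1 := h.trans (h1.trans h4)
  revert h5
  decide

/-- the first step of a walk inside `S` -/
theorem exists_adj {S : Set V} {x y : V} (h : Jn G S x y) (hxy : x ≠ y) :
    ∃ z ∈ S, G.Adj x z := by
  have key := h.induct (P := fun b => b = x ∨ ∃ z ∈ S, G.Adj x z) (Or.inl rfl) (by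
    intro a b ha hb hab hP
    rcases hP with rfl | hP
    · exact Or.inr ⟨b, hb, hab⟩
    · exact Or.inr hP)
  rcases key with h1 | h1
  · exact absurd h1.symm hxy
  · exact h1

/-- an element of a core has a neighbour in the core different from a given one -/
theorem nbr {D : Set V} (h : Core G D) {a b : V} (ha : a ∈ D) (hab : a ≠ b) :
    ∃ z ∈ D, z ≠ a ∧ z ≠ b ∧ G.Adj a z := by
  obtain ⟨e, he, hea, heb, -⟩ := exists_ne3 h.big a b b
  obtain ⟨x, hx, hxa, hxb, hxe⟩ := exists_ne3 h.big a b e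
  have hc := h.con b e
  have h1 : a ∈ D \ {b, e} := ⟨ha, by
    simp only [Set.mem_insert_iff, Set.mem_singleton_iff, not_or]
    exact ⟨hab, fun h => hea h.symm⟩⟩
  have h2 : x ∈ D \ {b, e} := ⟨hx, by
    simp only [Set.mem_insert_iff, Set.mem_singleton_iff, not_or]
    exact ⟨hxb, hxe⟩⟩
  obtain ⟨z, hz, haz⟩ := exists_adj (hc.2 a h1 x h2) hxa.symm
  have hz2 := hz.2
  simp only [Set.mem_insert_iff, Set.mem_singleton_iff, not_or] at hz2
  exact ⟨z, hz.1, haz.ne', hz2.1, haz⟩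

end SNGM

open SNGM in
/-- **SNG** -/
theorem specSNG (hLF2 : SpecLF2.{u}) : SpecSNG.{u} := by
  intro V G s F T hcls hs hdj hBl hT hnb hint D' hD' W hW
  obtain ⟨hlift, -, -⟩ := hLF2 V G s hcls
  obtain ⟨w, hw⟩ := Quotient.exists_rep W
  have hmk : ∀ a b : V, Quotient.mk s a = Quotient.mk s b ↔ s a b := fun a b =>
    ⟨fun h => Quotient.exact h, fun h => Quotient.sound h⟩
  by_cases hone : ∀ g, Quotient.mk s g = W → g = w
  · exact ⟨w, hw, fun g h hg _ _ _ => hone g hg⟩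
  push Not at hone
  obtain ⟨g0, hg0, hg0w⟩ := hone
  have h1 : s g0 w := (hmk _ _).1 (hg0.trans hw.symm)
  rcases (hs _ _).1 h1 with h1 | ⟨U, hFU, hgU, hwU⟩
  · exact absurd h1 hg0w
  have hWU : ∀ g, Quotient.mk s g = W ↔ g ∈ U ∧ g ∉ T U := by
    intro g
    rw [← hw, hmk, hs]
    constructor
    · rintro (h2 | ⟨U', hFU', hgU', hwU'⟩)
      · rw [h2]; exact hwU
      · by_cases hUU : U = U'
        · rw [hUU]; exact hgU'
        · rcases hdj U U' w hFU hFU' hUU hwU.1 hwU'.1 with h2 | h2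
          · exact absurd h2 hwU.2
          · exact absurd h2 hwU'.2
    · intro h2
      exact Or.inr ⟨U, hFU, h2, hwU⟩
  have hB := hBl U hFU
  -- it is enough to show that there is at most one vertex
  suffices hclaim : ∀ g g' h h' : V, Quotient.mk s g = W → Quotient.mk s g' = W →
      Quotient.mk s h ∈ D' → Quotient.mk s h' ∈ D' → Quotient.mk s h ≠ W →
      Quotient.mk s h' ≠ W → G.Adj g h → G.Adj g' h' → g = g' by
    by_cases hex : ∃ g h : V, Quotient.mk s g = W ∧ Quotient.mk s h ∈ D' ∧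
        Quotient.mk s h ≠ W ∧ G.Adj g h
    · obtain ⟨x, y, hx, hy, hyW, hxy⟩ := hex
      exact ⟨x, hx, fun g h hg hh hhW hgh => hclaim g x h y hg hx hh hy hhW hyW hgh hxy⟩
    · exact ⟨w, hw, fun g h hg hh hhW hgh => absurd ⟨g, h, hg, hh, hhW, hgh⟩ hex⟩
  by_cases hmeet : ∃ t ∈ U, Quotient.mk s t ∈ D' ∧ Quotient.mk s t ≠ W
  · exfalso
    obtain ⟨t, htU, htD, htW⟩ := hmeet
    set E : Quotient s := Quotient.mk s t with hE
    have hUT : ∀ z ∈ U, Quotient.mk s z ≠ W → z ∈ T U := by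
      intro z hz hzW
      by_contra hzT
      exact hzW ((hWU z).2 ⟨hz, hzT⟩)
    have htT : t ∈ T U := hUT t htU htW
    have hWE : W ≠ E := fun h => htW h.symm
    set R : Set V := Quotient.mk s ⁻¹' (D' \ {W, E}) with hR
    have hRc : Cn G R := hlift _ (hD'.con W E)
    have hmemR : ∀ z, z ∈ R ↔ Quotient.mk s z ∈ D' ∧ Quotient.mk s z ≠ W ∧
        Quotient.mk s z ≠ E := by
      intro z
      rw [hR, Set.mem_preimage, Set.mem_sdiff, Set.mem_insert_iff, Set.mem_singleton_iff, not_or]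
    have hRU : Disjoint R U := by
      rw [Set.disjoint_left]
      intro z hz hzU
      obtain ⟨-, hz2, hz3⟩ := (hmemR z).1 hz
      have hzt : z = t := hT U hFU (hUT z hzU hz2) htT
      exact hz3 (by rw [hzt])
    -- `W` touches `R`
    obtain ⟨Z, hZD, hZW, hZE, -, w0, r0, hw0, hr0, hwr0⟩ := nbr hD' hW hWE
    have hr0R : r0 ∈ R := (hmemR r0).2 ⟨hr0 ▸ hZD, hr0 ▸ hZW, hr0 ▸ hZE⟩
    have hw0U : w0 ∈ U := ((hWU w0).1 hw0).1
    have hw0t : w0 ≠ t := fun h => hWE (by rw [← hw0, h])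
    -- `E` touches `R`
    obtain ⟨Y, hYD, hYE, hYW, -, f, r1, hf, hr1, hfr1⟩ := nbr hD' htD (fun h => hWE h.symm)
    have hr1R : r1 ∈ R := (hmemR r1).2 ⟨hr1 ▸ hYD, hr1 ▸ hYW, hr1 ▸ hYE⟩
    have hft : f ≠ t := by
      intro h
      refine hw0t (hB.clo R hRc hRU w0 hw0U t htU ⟨r0, hr0R, hwr0.symm⟩ ⟨r1, hr1R, ?_⟩)
      rw [← h]
      exact hfr1.symm
    have h2 : s f t := (hmk _ _).1 hf
    rcases (hs _ _).1 h2 with h2 | ⟨U2, hFU2, hfU2, htU2⟩
    · exact hft h2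
    have hUU2 : U ≠ U2 := fun h => htU2.2 (h ▸ htT)
    have hB2 := hBl U2 hFU2
    have hc2 : Cn G (R ∪ (U2 \ {t})) :=
      hRc.union_adj (hB2.two t) hr1R (d := f) ⟨hfU2.1, hft⟩ hfr1.symm
    have hd2 : Disjoint (R ∪ (U2 \ {t})) U := by
      rw [Set.disjoint_left]
      rintro z (hz | hz) hzU
      · exact Set.disjoint_left.1 hRU hz hzU
      · exact hz.2 (hint U U2 hFU hFU2 hUU2 z t hzU hz.1 htU htU2.1)
    obtain ⟨y, hy, hty⟩ := hnb U2 hFU2 t htU2.1
    exact hw0t (hB.clo _ hc2 hd2 w0 hw0U t htU ⟨r0, Or.inl hr0R, hwr0.symm⟩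
      ⟨y, Or.inr ⟨hy, fun h => hty.ne (Set.mem_singleton_iff.1 h).symm⟩, hty.symm⟩)
  · have hno : ∀ z ∈ U, Quotient.mk s z ∈ D' → Quotient.mk s z = W := by
      intro z hz hzD
      by_contra hzW
      exact hmeet ⟨z, hz, hzD, hzW⟩
    have hRc : Cn G (Quotient.mk s ⁻¹' (D' \ {W, W})) := hlift _ (hD'.con W W)
    have hmemR : ∀ z, z ∈ Quotient.mk s ⁻¹' (D' \ {W, W}) ↔ Quotient.mk s z ∈ D' ∧
        Quotient.mk s z ≠ W := by
      intro z
      rw [Set.mem_preimage, Set.mem_sdiff, Set.mem_insert_iff, Set.mem_singleton_iff, or_self]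
    have hRU : Disjoint (Quotient.mk s ⁻¹' (D' \ {W, W})) U := by
      rw [Set.disjoint_left]
      intro z hz hzU
      obtain ⟨hz1, hz2⟩ := (hmemR z).1 hz
      exact hz2 (hno z hzU hz1)
    intro g g' h h' hg hg' hh hh' hhW hhW' hgh hgh'
    exact hB.clo _ hRc hRU g ((hWU g).1 hg).1 g' ((hWU g').1 hg').1
      ⟨h, (hmemR h).2 ⟨hh, hhW⟩, hgh.symm⟩ ⟨h', (hmemR h').2 ⟨hh', hhW'⟩, hgh'.symm⟩

end Pool.Agent.Lib.MPbafc89.KP
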