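import Pool.Agent.Lib.MP_bafc89_co.KP.Spec

/-!
# MP_bafc89_co, module STD: the equivalence relation of a family of sets minus their gates
-/

set_option autoImplicit false

namespace Pool.Agent.Lib.MPbafc89.KP

open SimpleGraph
open Pool.Agent.Lib.MPbafc89.BQ (Jn Cn)
open Pool.Agent.Lib.MPbafc89.KE (Tch qg IsMinor IsInducedMinor)

universe u v

theorem specSTD : SpecSTD.{u} := by
  intro V F T hF
  refine ⟨⟨fun x y => x = y ∨ ∃ U, F U ∧ x ∈ U \ T U ∧ y ∈ U \ T U, ?_, ?_, ?_⟩, fun x y => Iff.rfl⟩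
  · intro x
    exact Or.inl rfl
  · rintro x y (h | ⟨U, hU, hx, hy⟩)
    · exact Or.inl h.symm
    · exact Or.inr ⟨U, hU, hy, hx⟩
  · rintro x y z (h | ⟨U, hU, hx, hy⟩) (h' | ⟨U', hU', hy', hz⟩)
    · exact Or.inl (h.trans h')
    · rw [h]
      exact Or.inr ⟨U', hU', hy', hz⟩
    · rw [← h']
      exact Or.inr ⟨U, hU, hx, hy⟩
    · by_cases hUU : U = U'
      · subst hUU
        exact Or.inr ⟨U, hU, hx, hz⟩
      · exfalso
        rcases hF U U' y hU hU' hUU hy.1 hy'.1 with h | h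
        · exact hy.2 h
        · exact hy'.2 h

end Pool.Agent.Lib.MPbafc89.KP
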