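import Pool.Agent.Lib.MP_bafc89_co.KE.Spec

/-!
# MP_bafc89_co: `K_5` minus two adjacent edges.  Specification (captain: helper73)

THEOREM (hand-in `FiveMinusPath`).  Let `H` be the complete graph on five vertices minus two
adjacent edges (that is `K_4` plus a vertex adjacent to exactly two of its vertices).  Every graph
`G` (finite or infinite) without an induced minor `H` has a quotient `G'` by an equivalence relation
with connected classes of diameter at most 7 (`d_G ≤ 8 d_G' + 7`, `d_G' ≤ d_G`) of which `H` is not a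
minor: the statement of Q1 holds for `H`.

IDEA.  `NoT G`: a connected set disjoint from a `K_4` model never touches exactly two of its
bags.  `RK G D`: any two elements of `D` are in different bags of a `K_4` model inside `D`.  This is
kept if vertices with at least two neighbours are added (`GRW`), and by `NoT` a connected set disjoint
from `D` does not touch exactly two elements of `D`; so a connected set which touches two elements of
`D` contains a vertex with two neighbours in `D` (`ONE`).  The closure `Uc G D` of `D` is therefore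
attached to the rest of `G` at single vertices (`CLO`), and a short argument with the levels shows
that it is within distance 2 of `D` (`DIS`).  A smallest model of `K_5` minus an edge in `G` has at
most eight vertices, and its vertex set is a `Core`: rooted, 3-connected and of diameter `≤ 3`
(`MP1`, `MP2`, `MP3`, `MPC`, `MPR`, `MPD`, together `ALF`).  The closures of the cores (`Bl`) have
pairwise at most one common vertex (`INT`); contract each of them, minus its gate towards a root of
the component of `G`, to one point.  A core of the quotient would lift to a core of `G` (`SNG`,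
`TRF`) with five vertices in different classes, a contradiction, so the quotient has no model of
`K_5` minus an edge (`NM5`), and then no `H` minor, as it still satisfies `NoT`.

All modules are independent: file `KP/XXX.lean`, `import Pool.Agent.Lib.MP_bafc89_co.KP.Spec`,
namespace `Pool.Agent.Lib.MPbafc89.KP`, `theorem specXXX (hYYY : SpecYYY) ... : SpecXXX` (deps in the
order of USES), own lemmas in a namespace `XXXM`.  Toolkit: `BQ/Base.lean` (`Jn G S x y`: a walk from
`x` to `y` inside `S`; `Cn G S`: `S` nonempty and connected; `Jn.refl`, `.symm`, `.trans`, `.mono`,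
`.adj`, `.left`, `.right`, `.induct`, `Cn.of_center`, `Cn.singleton`, `cn_iff`, `Cn.union`,
`Cn.union_adj`, `Cn.union_iUnion`, `Cn.map`), `KE/Spec.lean` (`Tch`, `Tch.symm`, `Tch.mono`,
`cn_of_clique`, `qg`, `IsMinor`, `IsInducedMinor`).
-/

set_option autoImplicit false

namespace Pool.Agent.Lib.MPbafc89.KP

open SimpleGraph
open Pool.Agent.Lib.MPbafc89.BQ (Jn Cn)
open Pool.Agent.Lib.MPbafc89.KE (Tch qg IsMinor IsInducedMinor)

universe u v

/-! ### Models -/

/-- four pairwise disjoint, pairwise touching connected sets -/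
structure K4 {V : Type u} (G : SimpleGraph V) (A B C D : Set V) : Prop where
  cA : Cn G A
  cB : Cn G B
  cC : Cn G C
  cD : Cn G D
  dAB : Disjoint A B
  dAC : Disjoint A C
  dAD : Disjoint A D
  dBC : Disjoint B C
  dBD : Disjoint B D
  dCD : Disjoint C D
  tAB : Tch G A B
  tAC : Tch G A C
  tAD : Tch G A D
  tBC : Tch G B C
  tBD : Tch G B D
  tCD : Tch G C D

/-- a model of `K_5` minus an edge: five pairwise disjoint connected sets, all pairs except possibly
`P`, `Q` touch -/
structure K5m {V : Type u} (G : SimpleGraph V) (P Q A B C : Set V) : Prop where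
  cP : Cn G P
  cQ : Cn G Q
  cA : Cn G A
  cB : Cn G B
  cC : Cn G C
  dPQ : Disjoint P Q
  dPA : Disjoint P A
  dPB : Disjoint P B
  dPC : Disjoint P C
  dQA : Disjoint Q A
  dQB : Disjoint Q B
  dQC : Disjoint Q C
  dAB : Disjoint A B
  dAC : Disjoint A C
  dBC : Disjoint B C
  tPA : Tch G P A
  tPB : Tch G P B
  tPC : Tch G P C
  tQA : Tch G Q A
  tQB : Tch G Q B
  tQC : Tch G Q C
  tAB : Tch G A B
  tAC : Tch G A C
  tBC : Tch G B C

/-- no induced minor `K_4` plus a vertex of degree two: a connected set `E` disjoint from a `K_4`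
model which touches two of its bags touches a third one -/
def NoT {V : Type u} (G : SimpleGraph V) : Prop :=
  ∀ A B C D E : Set V, K4 G A B C D → Cn G E → Disjoint E A → Disjoint E B → Disjoint E C →
    Disjoint E D → Tch G E A → Tch G E B → Tch G E C ∨ Tch G E D

theorem K5m.swapPQ {V : Type u} {G : SimpleGraph V} {P Q A B C : Set V} (h : K5m G P Q A B C) :
    K5m G Q P A B C :=
  ⟨h.cQ, h.cP, h.cA, h.cB, h.cC, h.dPQ.symm, h.dQA, h.dQB, h.dQC, h.dPA, h.dPB, h.dPC, h.dAB, h.dAC,
    h.dBC, h.tQA, h.tQB, h.tQC, h.tPA, h.tPB, h.tPC, h.tAB, h.tAC, h.tBC⟩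

theorem K5m.swapAB {V : Type u} {G : SimpleGraph V} {P Q A B C : Set V} (h : K5m G P Q A B C) :
    K5m G P Q B A C :=
  ⟨h.cP, h.cQ, h.cB, h.cA, h.cC, h.dPQ, h.dPB, h.dPA, h.dPC, h.dQB, h.dQA, h.dQC, h.dAB.symm, h.dBC,
    h.dAC, h.tPB, h.tPA, h.tPC, h.tQB, h.tQA, h.tQC, h.tAB.symm, h.tBC, h.tAC⟩

theorem K5m.swapBC {V : Type u} {G : SimpleGraph V} {P Q A B C : Set V} (h : K5m G P Q A B C) :
    K5m G P Q A C B :=
  ⟨h.cP, h.cQ, h.cA, h.cC, h.cB, h.dPQ, h.dPA, h.dPC, h.dPB, h.dQA, h.dQC, h.dQB, h.dAC, h.dAB,
    h.dBC.symm, h.tPA, h.tPC, h.tPB, h.tQA, h.tQC, h.tQB, h.tAC, h.tAB, h.tBC.symm⟩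

/-- a smallest model of `K_5` minus an edge with finite bags -/
structure Mn5 {V : Type u} (G : SimpleGraph V) (P Q A B C : Set V) : Prop where
  k : K5m G P Q A B C
  fP : P.Finite
  fQ : Q.Finite
  fA : A.Finite
  fB : B.Finite
  fC : C.Finite
  mn : ∀ P' Q' A' B' C' : Set V, K5m G P' Q' A' B' C' → P'.Finite → Q'.Finite → A'.Finite →
    B'.Finite → C'.Finite → P.ncard + Q.ncard + A.ncard + B.ncard + C.ncard ≤
      P'.ncard + Q'.ncard + A'.ncard + B'.ncard + C'.ncard

theorem Mn5.swapPQ {V : Type u} {G : SimpleGraph V} {P Q A B C : Set V} (h : Mn5 G P Q A B C) :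
    Mn5 G Q P A B C :=
  ⟨h.k.swapPQ, h.fQ, h.fP, h.fA, h.fB, h.fC, fun P' Q' A' B' C' k p q a b c => by
    have := h.mn P' Q' A' B' C' k p q a b c
    omega⟩

theorem Mn5.swapAB {V : Type u} {G : SimpleGraph V} {P Q A B C : Set V} (h : Mn5 G P Q A B C) :
    Mn5 G P Q B A C :=
  ⟨h.k.swapAB, h.fP, h.fQ, h.fB, h.fA, h.fC, fun P' Q' A' B' C' k p q a b c => by
    have := h.mn P' Q' A' B' C' k p q a b c
    omega⟩

theorem Mn5.swapBC {V : Type u} {G : SimpleGraph V} {P Q A B C : Set V} (h : Mn5 G P Q A B C) :
    Mn5 G P Q A C B :=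
  ⟨h.k.swapBC, h.fP, h.fQ, h.fA, h.fC, h.fB, fun P' Q' A' B' C' k p q a b c => by
    have := h.mn P' Q' A' B' C' k p q a b c
    omega⟩

/-- the pattern of the bags touched by `Y`: `P`, `Q` and not both of `A`, `B`; or `A`, `B` and none
of `P`, `Q` -/
def Pat {V : Type u} (G : SimpleGraph V) (P Q A B Y : Set V) : Prop :=
  (Tch G Y P ∧ Tch G Y Q ∧ ¬ (Tch G Y A ∧ Tch G Y B)) ∨
    (Tch G Y A ∧ Tch G Y B ∧ ¬ Tch G Y P ∧ ¬ Tch G Y Q)

/-- the third bag `C` of a smallest model: one vertex, or two adjacent vertices with the patterns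
`Pat` -/
def Sm {V : Type u} (G : SimpleGraph V) (P Q A B C : Set V) : Prop :=
  (∃ c, C = {c}) ∨ ∃ v w, v ≠ w ∧ C = {v, w} ∧ G.Adj v w ∧ Pat G P Q A B {v} ∧ Pat G P Q A B {w}

/-! ### Rooted sets, closure, cores, blocks -/

/-- any two elements of `D` are in different bags of a `K_4` model inside `D` -/
def RK {V : Type u} (G : SimpleGraph V) (D : Set V) : Prop :=
  ∀ a ∈ D, ∀ b ∈ D, a ≠ b → ∃ A B C E : Set V, K4 G A B C E ∧ A ⊆ D ∧ B ⊆ D ∧ C ⊆ D ∧ E ⊆ D ∧
    a ∈ A ∧ b ∈ B

/-- `D` and all vertices with at least two neighbours in `D` -/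
def cl {V : Type u} (G : SimpleGraph V) (D : Set V) : Set V :=
  D ∪ {c | ∃ a ∈ D, ∃ b ∈ D, a ≠ b ∧ G.Adj c a ∧ G.Adj c b}

/-- the levels of the closure -/
def lev {V : Type u} (G : SimpleGraph V) (D : Set V) : ℕ → Set V
  | 0 => D
  | n + 1 => cl G (lev G D n)

/-- the closure -/
def Uc {V : Type u} (G : SimpleGraph V) (D : Set V) : Set V := ⋃ n, lev G D n

/-- rooted, 3-connected, at least five elements, diameter at most three -/
structure Core {V : Type u} (G : SimpleGraph V) (D : Set V) : Prop where
  rk : RK G D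
  con : ∀ s t, Cn G (D \ {s, t})
  big : (5 : ℕ∞) ≤ D.encard
  dia : ∀ x ∈ D, ∀ y ∈ D, ∃ a ∈ D, ∃ b ∈ D, (x = a ∨ G.Adj x a) ∧ (a = b ∨ G.Adj a b) ∧
    (b = y ∨ G.Adj b y)

/-- 2-connected, attached to the rest of the graph at single vertices, diameter at most seven -/
structure Bl {V : Type u} (G : SimpleGraph V) (U : Set V) : Prop where
  two : ∀ s, Cn G (U \ {s})
  clo : ∀ C : Set V, Cn G C → Disjoint C U → ∀ a ∈ U, ∀ b ∈ U, (∃ c ∈ C, G.Adj c a) →
    (∃ c ∈ C, G.Adj c b) → a = b
  dia : ∀ x ∈ U, ∀ y ∈ U, G.edist x y ≤ 7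

/-- a root of the component of `z` -/
noncomputable def rt {V : Type u} (G : SimpleGraph V) (z : V) : V :=
  (G.connectedComponentMk z).out

/-- the gate of `U` towards the root -/
def gate {V : Type u} (G : SimpleGraph V) (U : Set V) : Set V :=
  {z | z ∈ U ∧ (z = rt G z ∨ ∃ y, Jn G Uᶜ (rt G z) y ∧ G.Adj y z)}

/-! ### The modules: smallest models -/

/-- MODULE NC2 (110 lines).  A finite connected set with at least two elements has two different
elements `v`, `w` such that removing one of them leaves a connected set.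
PROOF.  Let `H = G.induce S`, a finite connected graph.  Take any `c ∈ S`, let `v` be an element of
`S` at the largest `H`-distance from `c`, then let `w` be at the largest `H`-distance from `v`;
`v ≠ c`, `w ≠ v` as `S` has two elements.  Removing an element `x` at largest distance from `c`
leaves a connected set: every other `y` has a shortest walk to `c` and `x` is not on it (the
elements of a shortest walk from `c` to `y` other than `y` have smaller distance than `y`).  (Or use
`SimpleGraph.Connected.exists_connected_induce_compl_singleton_of_finite_nontrivial` for `w`, in a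
form with a prescribed element which is kept.) -/
def SpecNC2 : Prop :=
  ∀ (V : Type u) (G : SimpleGraph V) (S : Set V), Cn G S → S.Finite → S.Nontrivial →
    ∃ v ∈ S, ∃ w ∈ S, v ≠ w ∧ Cn G (S \ {v}) ∧ Cn G (S \ {w})

/-- MODULE SH5 (110 lines).  The bags of a model of `K_5` minus an edge can be made finite.
PROOF.  For each of the nine touching pairs choose an edge between the two bags.  In every bag
choose a point and walks inside the bag from this point to the ends in this bag of the chosen edges;
the vertices of these walks form a finite connected subset of the bag (`Cn.of_center`, or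
`Cn.union_iUnion`).  General lemma: if `S` is connected and `F ⊆ S` is finite then there is a finite
connected `S'` with `F ⊆ S' ⊆ S`. -/
def SpecSH5 : Prop :=
  ∀ (V : Type u) (G : SimpleGraph V) (P Q A B C : Set V), K5m G P Q A B C →
    ∃ P' Q' A' B' C' : Set V, K5m G P' Q' A' B' C' ∧ P'.Finite ∧ Q'.Finite ∧ A'.Finite ∧
      B'.Finite ∧ C'.Finite

/-- MODULE MIN (40 lines).  USES `SpecSH5`.  If there is a model there is a smallest one (the
smallest value of the sum of the five `ncard`, `Nat.find` or `WellFounded.min`). -/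
def SpecMIN : Prop :=
  ∀ (V : Type u) (G : SimpleGraph V) (P Q A B C : Set V), K5m G P Q A B C →
    ∃ P' Q' A' B' C' : Set V, Mn5 G P' Q' A' B' C'

/-- MODULE MP1 (170 lines).  USES `SpecNC2`.  In a smallest model `P` has one element.
PROOF.  Otherwise let `v ∈ P` with `X = P \ {v}` connected (`SpecNC2`), `v` has a neighbour in `X`
(`P` is connected).  Write `v ~ S` for `Tch G {v} S`.  Let `I`, `J` be the sets of the bags among
`A, B, C` touched by `v`, `X`; as `P = {v} ∪ X` touches all three, `I ∪ J = {A, B, C}`.  `I` is not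
everything: else `{v}, Q, A, B, C` is a smaller model; `J` is not everything: else `X, Q, A, B, C` is.
By `NoT` for the `K_4` model `Q, A, B, C`: `v` touches exactly two of `Q, A, B, C` is impossible, the
same for `X`.  So `|I| = 2` implies `v ~ Q`, `|I| = 1` implies `v ≁ Q`; the same for `X`, `J`.
One of `I`, `J` has size 2; call this set `Y` (`{v}` or `X`), the other one `Z`, and let (by symmetry,
`swapAB`, `swapBC`) `Y ~ A, B`, `Y ≁ C`, `Y ~ Q`.  Then `Z ~ C`.
Case `Z ≁ A, B`: `Z ≁ Q`.  The `K_4` model `Q ∪ Y, A, B, C` and `Z`: `Z` touches `Q ∪ Y` (as `Z ~ Y`)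
and `C` and neither `A` nor `B`: contradiction to `NoT`.
Case `Z ~ A` (so `|J| = 2`, `Z ≁ B`, `Z ~ Q`; `Z ~ B` is the same with `A`, `B` exchanged): `Z, B` and
the three bags `Y, Q, A` form a model of `K_5` minus an edge (`Z ~ Y, Q, A`; `B ~ Y, Q, A`;
`Y ~ Q, A`; `Q ~ A`) with smaller sum (`C` is not used, `|Y| + |Z| = |P|`): contradiction. -/
def SpecMP1 : Prop :=
  ∀ (V : Type u) (G : SimpleGraph V), NoT G → ∀ P Q A B C : Set V, Mn5 G P Q A B C →
    ∃ p, P = {p}

/-- MODULE MP2 (220 lines).  In a smallest model, if `C = {v} ∪ X` with connected `X`, `v ∉ X`, `v`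
adjacent to an element of `X`, then `P`, `Q` do not touch and both `{v}` and `X` have the pattern
`Pat`.
PROOF.  Let `(Y, Z)` be `({v}, X)` or `(X, {v})`; they touch each other.  Every bag of `P, Q, A, B` is
touched by `Y` or `Z` (as `C` touches it).
(R0) `Y` does not touch all four: else `P, Q, A, B, Y` is a smaller model.
(R1) Suppose `P ~ Q`.  Then `P, Q, A, B` is a `K_4` model, so `Y` does not touch exactly two of the
bags (`NoT`); if it touches exactly three, these three with `Y` and the fourth bag form a smaller model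
(the three are pairwise touching, `Y` and the fourth bag touch all three): so `Y` touches at most one
of the four; the same for `Z`, but together they touch all four, a contradiction.  So `P ≁ Q`.
(R2) `Y ~ P, A, B` and `Y ≁ Q` is impossible: `K_4` model `Y, P, A, B`, and `Q` touches `A`, `B` but
neither `P` nor `Y`.  In the same way `Y ~ Q, A, B`, `Y ≁ P` is impossible.
(R3) `Y ~ A`, `Z ~ Q`, `Z ~ B`, `Z ≁ P` is impossible: `K_4` model `A ∪ Y, B, Q, Z` (`A ∪ Y` is
connected and touches `Z`), and `P` touches `A ∪ Y` and `B` but neither `Q` nor `Z`.  The same with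
`A`, `B` exchanged, with `P`, `Q` exchanged, and with both exchanged.
(R4) If `Z ~ P`, `Z ~ Q` then `Y` does not touch exactly one of `Q, A, B`: `K_4` model
`P ∪ Z, Q, A, B`, and `Y` touches `P ∪ Z`.  The same with `P`, `Q` exchanged (`Q ∪ Z, P, A, B`).
These rules, for `(Y, Z)` in both orders, imply the claim by a finite case distinction: if `Y` does
not have the pattern then the set of bags touched by `Y` is one of: all (R0); `PAB`, `QAB` (R2);
nothing, `P`, `Q` (then `Z` touches all or is in case R2); `A` (then `Z` touches all or exactly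
`P, Q, B`, and R4 applies: `Y` touches exactly one of `Q, A, B`); `B` (same); `PA` (then `Z` touches
`Q, B` and not both of `P`, `A`; if `Z ≁ P` then R3; if `Z ~ P`, `Z ≁ A` then R4: `Y` touches exactly
one, `A`, of `Q, A, B`); `PB`, `QA`, `QB` (same by symmetry). -/
def SpecMP2 : Prop :=
  ∀ (V : Type u) (G : SimpleGraph V), NoT G → ∀ P Q A B C : Set V, Mn5 G P Q A B C →
    ∀ (v : V) (X : Set V), C = insert v X → v ∉ X → Cn G X → (∃ x ∈ X, G.Adj v x) →
      ¬ Tch G P Q ∧ Pat G P Q A B {v} ∧ Pat G P Q A B X

/-- MODULE MP3 (170 lines).  USES `SpecNC2`, `SpecMP2`.  The third bag of a smallest model.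
PROOF.  If `C` is not a singleton take `v ≠ w` in `C` from `SpecNC2`.  By `SpecMP2` for `v`,
`X = C \ {v}`: `P ≁ Q`, `Pat {v}`, `Pat X`, and the same for `w`, `Y = C \ {w}`.  As `w ∈ X`, `{w}` touches
only bags touched by `X`; as `v ∈ Y`, `{v}` touches only bags touched by `Y`.
Claim: every bag of `P, Q, A, B` is touched by `{v}` or `{w}`, and one of them touches `P` and `Q`.  If
`{v}` touches `A`, `B` (second alternative of `Pat {v}`) then `X` touches `P`, `Q` (as `C` does), so
`Y`.. touches `A`, `B` through `v`, hence `Y` has the second alternative of `Pat Y` and `{w}`, which must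
touch `P` and `Q` (as `C = Y ∪ {w}` does), works.  If `{v}` has the first alternative then `Y ~ P, Q`, so
`Pat Y` is the first alternative, `Y` misses one of `A`, `B`, say `B`, so `{w} ~ B`, `{v} ≁ B`; if
`{v} ~ A` all is touched; if `{v} ≁ A` then `X ~ A, B` (as `C` does), so `Pat X` is the second
alternative, `X ≁ P, Q`, so `{w} ≁ P, Q`, and `Pat {w}` gives `{w} ~ A, B`.
If `v`, `w` are adjacent then `P, Q, A, B, {v, w}` is a model, so by minimality `|C| ≤ 2` and
`C = {v, w}`: done.  If `v`, `w` are not adjacent: (i) one of them, say `w`, has the second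
alternative (touches exactly `A, B`), the other `v ~ P, Q`: `K_4` model `P ∪ {v}, Q, A, B`; `{w}`
touches `A`, `B` and neither `Q` nor `P ∪ {v}`: contradiction to `NoT`.  (ii) both have the first
alternative: `v ~ P, Q` and `w ~ P, Q`, one misses `B` and then the other misses `A`, say
`v ~ A`, `v ≁ B`, `w ~ B`, `w ≁ A`: `K_4` model `P ∪ A, Q, B, {w}`; `{v}` touches `P ∪ A` and `Q` and
neither `B` nor `{w}`: contradiction. -/
def SpecMP3 : Prop :=
  ∀ (V : Type u) (G : SimpleGraph V), NoT G → ∀ P Q A B C : Set V, Mn5 G P Q A B C →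
    Sm G P Q A B C

/-- MODULE MPC (200 lines).  A model of `K_5` minus an edge with singletons `P`, `Q` and the
property `Sm` of the three other bags has a 3-connected union `D`.
PROOF.  Let `s`, `t` be removed; `D \ {s, t}`.  Call a bag intact if it contains neither `s` nor `t`.
At least three bags are intact, and any three bags (more generally the intact ones) have a connected
union: the only pair that might not touch is `P, Q`, and both touch every other bag.  A remaining
element `x` of a bag which is not intact: the bag is `{v, w} = {x, s}` (or `{x, t}`), one of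
`A, B, C`, say `C` (the others by `swapAB`, `swapBC`), and by `Pat` `x` touches both `P` and `Q`, or
both `A` and `B`.  At most one bag other than this one is not intact (the one containing `t`; if
`t` is in no bag, all others are intact), so one of `P`, `Q` (of `A`, `B`) is intact and `x` is
adjacent to an element of an intact bag.  So `D \ {s, t}` is connected. -/
def SpecMPC : Prop :=
  ∀ (V : Type u) (G : SimpleGraph V) (p q : V) (A B C : Set V), K5m G {p} {q} A B C →
    Sm G {p} {q} A B C → Sm G {p} {q} A C B → Sm G {p} {q} B C A →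
    ∀ s t, Cn G (({p} ∪ {q} ∪ A ∪ B ∪ C : Set V) \ {s, t})

/-- MODULE MPR (170 lines).  The same union is rooted.
PROOF.  Let `a ≠ b` be in `D = {p} ∪ {q} ∪ A ∪ B ∪ C`.
Different bags, not `{p}`, `{q}`: one of the two `K_4` models `{p}, A, B, C` and `{q}, A, B, C`
contains both bags, in a suitable order.  `a = p`, `b = q`: the `K_4` model `{p} ∪ A, {q}, B, C`
(`{p} ∪ A` touches `{q}` as `A` does); `a = q`, `b = p`: exchange.
The same bag, say `C` (the others by symmetry): `C = {v, w}`, `a`, `b` are `v`, `w` in some order,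
adjacent.  Let `x`, `y` be `a`, `b`.
If `y` touches `A` and `B`, and not `{p}`, `{q}` (second alternative of `Pat`): then `x` touches
`{p}` and `{q}` (as `C` does); `K_4` model `{x, p}, {y}, A, B` (`x` adjacent to `p`; `{x, p}` touches
`{y}` through `x`, and `A`, `B` through `p`).  If `x` has the second alternative: `{x}, {y, p}, A, B`.
If both have the first alternative: `x`, `y` touch `{p}`, `{q}`; `y` misses one of `A`, `B`, then `x`
touches this one and misses the other one, which is touched by `y`.  Say `x ~ A`, `y ~ B` (else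
exchange `A`, `B`): `K_4` model `{x} ∪ A, {y}, {p}, B` (`{x} ∪ A` is connected, touches `{y}` through
`x`, `{p}` through `x`, `B` through `A`; `y ~ p`, `y ~ B`, `p ~ B`). -/
def SpecMPR : Prop :=
  ∀ (V : Type u) (G : SimpleGraph V) (p q : V) (A B C : Set V), K5m G {p} {q} A B C →
    Sm G {p} {q} A B C → Sm G {p} {q} A C B → Sm G {p} {q} B C A →
    RK G ({p} ∪ {q} ∪ A ∪ B ∪ C)

/-- MODULE MPD (120 lines).  The same union has at least five elements and diameter at most 3.
PROOF.  Five pairwise disjoint nonempty sets have a union with at least five elements.  Any two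
elements of one bag are equal or adjacent (`Sm`; the singletons).  Elements `x`, `y` of two touching
bags: `x` is equal or adjacent to `a`, `a` adjacent to `b`, `b` equal or adjacent to `y`, where `a`,
`b` are adjacent elements of the two bags.  `x = p`, `y = q` (or exchanged): `p` adjacent to `a ∈ A`,
`q` adjacent to `b ∈ A`, and `a`, `b` are equal or adjacent. -/
def SpecMPD : Prop :=
  ∀ (V : Type u) (G : SimpleGraph V) (p q : V) (A B C : Set V), K5m G {p} {q} A B C →
    Sm G {p} {q} A B C → Sm G {p} {q} A C B → Sm G {p} {q} B C A →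
    (5 : ℕ∞) ≤ ({p} ∪ {q} ∪ A ∪ B ∪ C : Set V).encard ∧
    ∀ x ∈ ({p} ∪ {q} ∪ A ∪ B ∪ C : Set V), ∀ y ∈ ({p} ∪ {q} ∪ A ∪ B ∪ C : Set V),
      ∃ a ∈ ({p} ∪ {q} ∪ A ∪ B ∪ C : Set V), ∃ b ∈ ({p} ∪ {q} ∪ A ∪ B ∪ C : Set V),
        (x = a ∨ G.Adj x a) ∧ (a = b ∨ G.Adj a b) ∧ (b = y ∨ G.Adj b y)

/-- MODULE ALF (50 lines).  USES `SpecMIN`, `SpecMP1`, `SpecMP3`, `SpecMPC`, `SpecMPR`, `SpecMPD`.
A graph with `NoT` and a model of `K_5` minus an edge has a core.
PROOF.  Take a smallest model; `P`, `Q` are singletons (`SpecMP1`, `Mn5.swapPQ`); `SpecMP3` for the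
model and its images under `swapBC`, and `swapAB` followed by `swapBC`, gives the three `Sm`. -/
def SpecALF : Prop :=
  ∀ (V : Type u) (G : SimpleGraph V), NoT G → ∀ P Q A B C : Set V, K5m G P Q A B C →
    ∃ D, Core G D

/-! ### The modules: closure -/

/-- MODULE GRW (110 lines).  Adding vertices with at least two neighbours keeps `RK`.
PROOF.  Every `x ∈ S` is in `D` or has two different neighbours in `D`.  Let `a ≠ b` in `S`.  Choose
`a'`, `b'` in `D`, `a' ≠ b'`, with `a' = a` or `a' ` a neighbour of `a` (`a ∉ D`), and the same for `b`: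
possible since an element outside `D` has two neighbours to choose from.  Take the `K_4` model in
`D` with `a' ∈ A`, `b' ∈ B` and add `a` to `A`, `b` to `B` (if they are not in `D`): the sets stay
connected, disjoint (`a ≠ b` are outside `D` when added) and touching. -/
def SpecGRW : Prop :=
  ∀ (V : Type u) (G : SimpleGraph V) (D S : Set V), RK G D → D ⊆ S → S ⊆ cl G D → RK G S

/-- MODULE EX2 (40 lines).  A connected set disjoint from a rooted set `D` does not touch exactly
two elements of `D`.
PROOF.  `NoT` for the `K_4` model with `a ∈ A`, `b ∈ B` inside `D`: `C` touches `A` and `B`, so it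
touches an element of the third or fourth bag. -/
def SpecEX2 : Prop :=
  ∀ (V : Type u) (G : SimpleGraph V), NoT G → ∀ D C : Set V, RK G D → Cn G C → Disjoint C D →
    ∀ a ∈ D, ∀ b ∈ D, a ≠ b → (∃ c ∈ C, G.Adj c a) → (∃ c ∈ C, G.Adj c b) →
      ∃ z ∈ D, z ≠ a ∧ z ≠ b ∧ ∃ c ∈ C, G.Adj c z

/-- MODULE ONE (120 lines).  USES `SpecNC2`, `SpecEX2`.  A connected set disjoint from a rooted set
`D` which touches two elements of `D` contains a vertex with two neighbours in `D`.
PROOF.  `C` contains a finite connected subset which touches two elements of `D` (the vertices of a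
walk inside `C` between the two vertices of `C` adjacent to `a`, `b`).  Take a finite connected
`C' ⊆ C` touching two elements of `D` with the smallest number of elements.  If `C' = {c}`: `c` has
two neighbours in `D`.  Otherwise let `v ∈ C'` with `C' \ {v}` connected (`SpecNC2`).  By minimality
`{v}` and `C' \ {v}` touch at most one element of `D` each, so `C'` touches at most two, hence exactly
two: contradiction to `SpecEX2`. -/
def SpecONE : Prop :=
  ∀ (V : Type u) (G : SimpleGraph V), NoT G → ∀ D C : Set V, RK G D → Cn G C → Disjoint C D →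
    ∀ a ∈ D, ∀ b ∈ D, a ≠ b → (∃ c ∈ C, G.Adj c a) → (∃ c ∈ C, G.Adj c b) →
      ∃ c ∈ C, ∃ x ∈ D, ∃ y ∈ D, x ≠ y ∧ G.Adj c x ∧ G.Adj c y

/-- MODULE CLO (60 lines).  USES `SpecGRW`, `SpecONE`.  The closure is attached at single vertices.
PROOF.  All levels are rooted (`SpecGRW`, induction) and increase.  Let `C` be connected, disjoint
from `Uc G D`, touching `a ≠ b` in `Uc G D`: both are in one level `lev G D n`; `SpecONE` gives
`c ∈ C` with two neighbours in this level, so `c ∈ lev G D (n + 1)`, a contradiction. -/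
def SpecCLO : Prop :=
  ∀ (V : Type u) (G : SimpleGraph V), NoT G → ∀ D : Set V, RK G D →
    ∀ C : Set V, Cn G C → Disjoint C (Uc G D) → ∀ a ∈ Uc G D, ∀ b ∈ Uc G D,
      (∃ c ∈ C, G.Adj c a) → (∃ c ∈ C, G.Adj c b) → a = b

/-- MODULE DIS (200 lines).  USES `SpecGRW`, `SpecEX2`.  Every element of the closure is within
distance 2 of `D`.
PROOF.  Write `L_n = lev G D n`.  `x ∈ L_1`: clear.  `x ∈ L_2 \ L_1`: `x` has a neighbour in `L_1`.
Let `x ∈ L_k \ L_(k-1)`, `k ≥ 3`; we show that `x` has a neighbour in `L_0 = D`.  `x` has two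
different neighbours in `L_(k-1)`, and by `SpecEX2` (`C = {x}`, rooted set `L_(k-1)`) three
different ones; as `x ∉ L_(k-1)`, at most one neighbour `z` of `x` is in `L_(k-2)`.  So there are two
different neighbours `e1`, `e2` of `x` in `L_(k-1) \ L_(k-2)`.
If `x` has no neighbour in `L_(k-2)`: `L_(k-2) ∪ {e1, e2}` is rooted (`SpecGRW`) and `x` has exactly the
two neighbours `e1`, `e2` in it: contradiction to `SpecEX2`.
Let `z` be the neighbour of `x` in `L_(k-2)`, and suppose `z ∉ L_0`, so `z ∈ L_j \ L_(j-1)`,
`1 ≤ j ≤ k - 2`.  For `i` from `j` to `k - 2` the set `L_i \ {z}` is rooted: `L_j \ {z}` lies between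
`L_(j-1)` and `cl L_(j-1)`; and `L_(i+1) \ {z}` lies between `L_i \ {z}` and `cl (L_i \ {z})`: an element
`c ≠ z` of `L_(i+1) \ L_i` has at least three neighbours in `L_i` (two by definition, three by
`SpecEX2`), so two in `L_i \ {z}`.  In the same way `e1`, `e2` have two neighbours in
`L_(k-2) \ {z}`, so `(L_(k-2) \ {z}) ∪ {e1, e2}` is rooted, and `x` has exactly the two neighbours
`e1`, `e2` in it: contradiction to `SpecEX2`.  So `z ∈ L_0`. -/
def SpecDIS : Prop :=
  ∀ (V : Type u) (G : SimpleGraph V), NoT G → ∀ D : Set V, RK G D → ∀ x ∈ Uc G D,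
    ∃ d ∈ D, ∃ y : V, (x = y ∨ G.Adj x y) ∧ (y = d ∨ G.Adj y d)

/-- MODULE TWO (90 lines).  The closure of a 3-connected (2-connected is enough) set is 2-connected.
PROOF.  By induction on `n`, `lev G D n \ {s}` is connected: for `n = 0` it is `D \ {s, s}`.  An element
`c ≠ s` of `lev (n + 1)` outside `lev n` has two neighbours in `lev n`, so one in `lev n \ {s}`.  The
union of the increasing sequence of connected sets `lev G D n \ {s}` is connected. -/
def SpecTWO : Prop :=
  ∀ (V : Type u) (G : SimpleGraph V) (D : Set V), (∀ s t, Cn G (D \ {s, t})) →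
    ∀ s, Cn G (Uc G D \ {s})

/-- MODULE BLK (60 lines).  USES `SpecCLO`, `SpecDIS`, `SpecTWO`.  The closure of a core is a `Bl`.
PROOF.  Distances: `2 + 3 + 2 = 7` (`SimpleGraph.edist_triangle`, adjacent vertices have
distance `≤ 1`). -/
def SpecBLK : Prop :=
  ∀ (V : Type u) (G : SimpleGraph V), NoT G → ∀ D : Set V, Core G D → Bl G (Uc G D)

/-! ### The modules: blocks and gates -/

/-- MODULE INT (110 lines).  Two different `Bl` have at most one common vertex.
PROOF.  Let `x ≠ y` in `U ∩ U'`; we show `U' ⊆ U` (and by symmetry `U ⊆ U'`).  Let `z ∈ U' \ U` and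
`C = {c | Jn G (U' \ U) z c}`, connected and disjoint from `U`.  `z` and `y` are in the connected set
`U' \ {x}`; along a walk in it from `z` to `y` (`Jn.induct` with the property `b ∈ C ∨` conclusion) one
finds `c ∈ C` adjacent to some `a ∈ U`, `a ≠ x`.  Then along a walk from `z` to `x` in `U' \ {a}` one
finds `c' ∈ C` adjacent to some `b ∈ U`, `b ≠ a`.  `Bl.clo` for `U` gives `a = b`, a contradiction. -/
def SpecINT : Prop :=
  ∀ (V : Type u) (G : SimpleGraph V) (U U' : Set V), Bl G U → Bl G U' → U ≠ U' →
    ∀ x y, x ∈ U → x ∈ U' → y ∈ U → y ∈ U' → x = y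

/-- MODULE GAT (90 lines).  The gate has at most one element.
PROOF.  Let `z`, `z'` be in `gate G U`; they are in the same component (`Bl.dia`: finite distance
implies reachable), so `rt G z = rt G z' = r`.  If `r ∈ U` then `Jn G Uᶜ r y` is impossible
(`Jn.left`), so `z = r = z'`.  If `r ∉ U` then `z ≠ r ≠ z'`, and `C = {y | Jn G Uᶜ r y}` is connected,
disjoint from `U` and touches `z` and `z'`: `Bl.clo`. -/
def SpecGAT : Prop :=
  ∀ (V : Type u) (G : SimpleGraph V) (U : Set V), Bl G U → (gate G U).Subsingleton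

/-- MODULE UNI (150 lines).  USES `SpecINT`.  The sets `U \ gate G U` are pairwise disjoint.
PROOF.  Let `v ∈ U ∩ U'`, `U ≠ U'`, `r = rt G v`, and suppose that `v` is in none of the two gates; so
`v ≠ r`, and no `y` adjacent to `v` satisfies `Jn G Uᶜ r y` or `Jn G U'ᶜ r y`.  By `SpecINT`
`U ∩ U' = {v}`.
(1) `v` has a neighbour `y` in `U` (hypothesis).  If `b ∈ U`, `b ≠ v` then `b` and `y` are in
`U \ {v}`, so `Jn G (U \ {v}) b y` (`Bl.two v`), and `U \ {v} ⊆ U'ᶜ`: so `Jn G U'ᶜ b y`, with `y`
adjacent to `v`.  The same with `U`, `U'` exchanged.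
(2) `r ∉ U`: otherwise, as `r ≠ v`, by (1) with `b = r` `Jn G U'ᶜ r y` with `y` adjacent to `v`, a
contradiction.  In the same way `r ∉ U'`.
(3) `r` and `v` are in one component; along a walk from `r` to `v` (`Jn G Set.univ r v`, `Jn.induct`)
with the property `Jn G (Uᶜ ∩ U'ᶜ) r b`: the first element `b` of the walk in `U ∪ U'`,
say `b ∈ U`, is adjacent to some `a` with `Jn G (Uᶜ ∩ U'ᶜ) r a`.  If `b = v` this contradicts the
assumption (`y = a`).  If `b ≠ v`, `b ∉ U'` and by (1) `Jn G U'ᶜ r y` with `y` adjacent to `v`: a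
contradiction.  The same if `b ∈ U'`.  So the walk never enters `U ∪ U'`, but `v ∈ U`. -/
def SpecUNI : Prop :=
  ∀ (V : Type u) (G : SimpleGraph V) (U U' : Set V), Bl G U → Bl G U' → U ≠ U' →
    (∀ x ∈ U, ∃ y ∈ U, G.Adj x y) → (∀ x ∈ U', ∃ y ∈ U', G.Adj x y) →
    ∀ v, v ∈ U → v ∈ U' → v ∈ gate G U ∨ v ∈ gate G U'

/-- MODULE STD (70 lines).  The equivalence relation of a family of sets `F U` minus their gates
`T U`.
PROOF.  `s x y` if `x = y` or there is `U` with `F U` and `x`, `y` in `U \ T U`.  Transitive by the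
disjointness hypothesis. -/
def SpecSTD : Prop :=
  ∀ (V : Type u) (F : Set V → Prop) (T : Set V → Set V),
    (∀ U U' v, F U → F U' → U ≠ U' → v ∈ U → v ∈ U' → v ∈ T U ∨ v ∈ T U') →
    ∃ s : Setoid V, ∀ x y, s x y ↔ x = y ∨ ∃ U, F U ∧ x ∈ U \ T U ∧ y ∈ U \ T U

/-! ### The modules: the quotient -/

/-- MODULE QI7 (110 lines).  Distances in the quotient by an equivalence relation whose classes have
diameter at most 7 (compare `KE/QIL.lean`).
PROOF.  As in `KE.SpecQIL`: along a walk of length `l` of the quotient from the class of `x` to the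
class of `y`: `G.edist x y ≤ 8 l + 7`. -/
def SpecQI7 : Prop :=
  ∀ (V : Type u) (G : SimpleGraph V) (s : Setoid V), (∀ x y, s x y → G.edist x y ≤ 7) →
    ∀ x y : V, G.edist x y ≤ 8 * (qg G s).edist (Quotient.mk s x) (Quotient.mk s y) + 7 ∧
      (qg G s).edist (Quotient.mk s x) (Quotient.mk s y) ≤ G.edist x y

/-- MODULE LF2 (90 lines).  Connected sets of the quotient lift if the classes are connected
(compare `KE/LFT.lean`). -/
def SpecLF2 : Prop :=
  ∀ (V : Type u) (G : SimpleGraph V) (s : Setoid V), (∀ x, Cn G {y | s x y}) →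
    (∀ D : Set (Quotient s), Cn (qg G s) D → Cn G (Quotient.mk s ⁻¹' D)) ∧
    (∀ P Q : Set (Quotient s), Tch (qg G s) P Q →
      Tch G (Quotient.mk s ⁻¹' P) (Quotient.mk s ⁻¹' Q)) ∧
    (∀ P Q : Set (Quotient s), Disjoint P Q →
      Tch G (Quotient.mk s ⁻¹' P) (Quotient.mk s ⁻¹' Q) → Tch (qg G s) P Q)

/-- MODULE QNT (50 lines).  USES `SpecLF2`.  The quotient satisfies `NoT` (apply `NoT G` to the
preimages). -/
def SpecQNT : Prop :=
  ∀ (V : Type u) (G : SimpleGraph V) (s : Setoid V), (∀ x, Cn G {y | s x y}) → NoT G →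
    NoT (qg G s)

/-- MODULE SNG (230 lines).  USES `SpecLF2`.  Every class `W` of a core `D'` of the quotient touches
the other classes of `D'` in one of its vertices only.
HYPOTHESES: the classes are singletons or `U \ T U` with `F U`; `F U` implies `Bl G U`, `T U` has at
most one element, different members of the family have at most one common vertex.
PROOF.  If the class is `{x}` there is nothing to prove.  Otherwise it contains `x ≠ y` in some
`U \ T U`, `F U`, and it is equal to `U \ T U` (by the disjointness hypothesis no other member of the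
family contains an element of `U \ T U` outside its `T`).  So let `W = U \ T U` as a subset of `V`; for a set `S'` of classes write `S` for its union
(preimage).  Suppose first that no class of `D' \ {W}` meets `U`: the union `R` of these classes is
connected (`Core.con W W` and `SpecLF2`) and disjoint from `U`, so it touches at most one vertex of `U`
(`Bl.clo`): the claim.
Now let some class `E ∈ D' \ {W}` meet `U`, in a vertex `t`; `t ∉ U \ T U`, so `t ∈ T U`, and `t` is the
only vertex of `U` outside `W`.  Let `R'` be the union of the classes of `D' \ {W, E}`: connected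
(`Core.con W E`, `SpecLF2`) and disjoint from `U` (`U ⊆ W ∪ {t} ⊆ W ∪ E`).  `W` touches `R'`: otherwise
`W` has in `D'` at most the neighbour `E`, and `D' \ {E, E'}`, `E' ∈ D' \ {W, E}`, would be connected,
contain `W` and a further element (`D'` has at least 5 elements), but `W` would have no neighbour in
it.  So `R'` touches a vertex `w0 ∈ W ⊆ U`, and by `Bl.clo` no other vertex of `U`; in particular not
`t`.  In the same way `E` touches `R'` (a vertex `f ∈ E` is adjacent to a vertex of `R'`), so
`f ≠ t`, and `E` is not a singleton: `E = U2 \ T U2` with `F U2`, `t, f ∈ U2`, and `U2 ≠ U` (`f ∉ U`, as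
`U ⊆ W ∪ {t}`), so `U ∩ U2 = {t}`.  The set `R'' = R' ∪ (U2 \ {t})` is connected (`Bl.two t` for `U2`,
`f ∈ U2 \ {t}` is adjacent to `R'`), disjoint from `U`, touches `w0` and touches `t` (`t` has a
neighbour in `U2` by `nb`): contradiction to `Bl.clo`, `w0 ≠ t`. -/
def SpecSNG : Prop :=
  ∀ (V : Type u) (G : SimpleGraph V) (s : Setoid V) (F : Set V → Prop) (T : Set V → Set V),
    (∀ x, Cn G {y | s x y}) →
    (∀ x y, s x y ↔ x = y ∨ ∃ U, F U ∧ x ∈ U \ T U ∧ y ∈ U \ T U) →
    (∀ U U' v, F U → F U' → U ≠ U' → v ∈ U → v ∈ U' → v ∈ T U ∨ v ∈ T U') →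
    (∀ U, F U → Bl G U) → (∀ U, F U → (T U).Subsingleton) →
    (∀ U, F U → ∀ x ∈ U, ∃ y ∈ U, G.Adj x y) →
    (∀ U U', F U → F U' → U ≠ U' → ∀ x y, x ∈ U → x ∈ U' → y ∈ U → y ∈ U' → x = y) →
    ∀ D' : Set (Quotient s), Core (qg G s) D' → ∀ W ∈ D', ∃ x : V, Quotient.mk s x = W ∧
      ∀ g h : V, Quotient.mk s g = W → Quotient.mk s h ∈ D' → Quotient.mk s h ≠ W → G.Adj g h →
        g = x

/-- MODULE TRF (120 lines).  A core is transported by an isomorphism of induced subgraphs.
PROOF.  If `S ⊆ D'` is connected then so is `f '' S` (map the walks, `Jn.induct`); disjointness by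
injectivity; `D \ {s, t}` for `D = f '' D'`: if `s = f s'`, `t = f t'` with `s', t' ∈ D'` it is
`f '' (D' \ {s', t'})`, if `s ∉ D` replace `s` by `t`, if both are not in `D` use that
`D' \ {a, a}` for two different `a` have a common element and cover `D'` (`D'` has five elements), or
`Cn.union`. -/
def SpecTRF : Prop :=
  ∀ (V W : Type u) (G : SimpleGraph V) (G' : SimpleGraph W) (D' : Set W) (f : W → V),
    Core G' D' → Set.InjOn f D' → (∀ a ∈ D', ∀ b ∈ D', (G'.Adj a b ↔ G.Adj (f a) (f b))) →
    Core G (f '' D')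

/-- MODULE CNB (50 lines).  Every element of the closure of a core has a neighbour in the closure.
PROOF.  For `x` in a level `n + 1` outside level `n`: clear.  For `x ∈ D`: `D \ {s, s}`, `s ∈ D`
different from `x`, is connected, contains `x` and another element (`D` has five elements), so `x`
has a neighbour in it (`Jn.induct`). -/
def SpecCNB : Prop :=
  ∀ (V : Type u) (G : SimpleGraph V) (D : Set V), Core G D → ∀ x ∈ Uc G D, ∃ y ∈ Uc G D,
    G.Adj x y

/-- MODULE NM5 (150 lines).  USES `SpecALF`, `SpecQNT`, `SpecSNG`, `SpecTRF`, `SpecBLK`, `SpecCNB`.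
With `F U` = (`U` is the closure of a core) the quotient has no model of `K_5` minus an edge.
PROOF.  Otherwise, by `SpecQNT` and `SpecALF`, `qg G s` has a core `D'`.  For `W ∈ D'` let `f W` be the
vertex `x` of `SpecSNG` (choose it).  `f` is injective on `D'` (the class of `f W` is `W`), and for
`a ≠ b` in `D'`: if `a`, `b` are adjacent in `qg G s` there are adjacent `g`, `h` with classes `a`, `b`,
and `g = f a`, `h = f b`; if `f a`, `f b` are adjacent then so are their classes.  So `D = f '' D'` is a
core of `G` (`SpecTRF`), and `U = Uc G D` satisfies `F U`.  `D ⊆ U`, and `T U` has at most one element,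
so (`D` has at least five elements) there are two different `x, y ∈ D \ T U`; they are equivalent,
against `f a ≠ f b` having different classes `a ≠ b`. -/
def SpecNM5 : Prop :=
  ∀ (V : Type u) (G : SimpleGraph V), NoT G → ∀ (s : Setoid V) (T : Set V → Set V),
    (∀ x, Cn G {y | s x y}) →
    (∀ x y, s x y ↔ x = y ∨ ∃ U, (∃ D, Core G D ∧ U = Uc G D) ∧ x ∈ U \ T U ∧ y ∈ U \ T U) →
    (∀ U U' v, (∃ D, Core G D ∧ U = Uc G D) → (∃ D, Core G D ∧ U' = Uc G D) → U ≠ U' → v ∈ U →
      v ∈ U' → v ∈ T U ∨ v ∈ T U') →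
    (∀ U, (∃ D, Core G D ∧ U = Uc G D) → (T U).Subsingleton) →
    (∀ U U', (∃ D, Core G D ∧ U = Uc G D) → (∃ D, Core G D ∧ U' = Uc G D) → U ≠ U' →
      ∀ x y, x ∈ U → x ∈ U' → y ∈ U → y ∈ U' → x = y) →
    ∀ P Q A B C : Set (Quotient s), ¬ K5m (qg G s) P Q A B C

/-- MODULE MAJ (120 lines).  USES `SpecBLK`, `SpecCNB`, `SpecINT`, `SpecGAT`, `SpecUNI`, `SpecSTD`,
`SpecQI7`, `SpecQNT`, `SpecNM5`.  The main theorem in the language of this file.
PROOF.  `F U` = closure of a core, `T = gate G`, `s` from `SpecSTD`.  The classes are connected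
(`{x}`, or `U \ T U`: `T U` has at most one element, `Bl.two`; if `T U` is empty, `U` is connected as
`U = (U \ {a}) ∪ (U \ {b})` for `a ≠ b` with a common element) and have diameter at most 7
(`Bl.dia`). -/
def SpecMAJ : Prop :=
  ∀ (V : Type u) (G : SimpleGraph V), NoT G →
    ∃ (W : Type u) (G' : SimpleGraph W) (f : V → W), Function.Surjective f ∧
      (∀ x y : V, G.edist x y ≤ 8 * G'.edist (f x) (f y) + 7) ∧
      (∀ x y : V, G'.edist (f x) (f y) ≤ G.edist x y) ∧
      NoT G' ∧ ∀ P Q A B C : Set W, ¬ K5m G' P Q A B C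

/-! ### The minors of the final statement -/

/-- `H` is the complete graph on five vertices minus the two edges `ab`, `ac` -/
def IsFiveMinusPath {α : Type u} (H : SimpleGraph α) : Prop :=
  Finite α ∧ Nat.card α = 5 ∧ ∃ a b c : α, a ≠ b ∧ a ≠ c ∧ b ≠ c ∧
    ∀ x y, H.Adj x y ↔ x ≠ y ∧ ¬ (x = a ∧ y = b) ∧ ¬ (x = b ∧ y = a) ∧ ¬ (x = a ∧ y = c) ∧
      ¬ (x = c ∧ y = a)

/-- MODULE MNT (140 lines).  `NoT G` is the exclusion of the induced minor `H`.
PROOF.  `α = {a, b, c, d, e}` (five different elements: from `Nat.card α = 5`).  The correspondence of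
the branch sets: `E` for `a` (adjacent exactly to `d`, `e`), `A`, `B` for `d`, `e`, `C`, `D` for `b`, `c`
(`cn_iff`).  If `NoT` fails then `E` touches neither `C` nor `D` and this is an induced minor model.
Conversely an induced minor model contradicts `NoT`. -/
def SpecMNT : Prop :=
  ∀ (V : Type u) (G : SimpleGraph V) (α : Type v) (H : SimpleGraph α),
    IsFiveMinusPath H → (NoT G ↔ ¬ IsInducedMinor H G)

/-- MODULE MMT (110 lines).  With `NoT G` a minor model of `H` gives a model of `K_5` minus an edge.
PROOF.  Branch sets `E` for `a`, `A`, `B`, `C`, `D` for `d`, `e`, `b`, `c`: `K4 G A B C D`, `E` touches `A`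
and `B`, so by `NoT` it touches `C` or `D`.  If `E ~ C`: `K5m G E D A B C`; if `E ~ D`:
`K5m G E C A B D`. -/
def SpecMMT : Prop :=
  ∀ (V : Type u) (G : SimpleGraph V) (α : Type v) (H : SimpleGraph α),
    IsFiveMinusPath H → NoT G → IsMinor H G → ∃ P Q A B C : Set V, K5m G P Q A B C

end Pool.Agent.Lib.MPbafc89.KP
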