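import Pool.Agent.Lib.MP_bafc89_co.KP.Spec

/-!
# MP_bafc89_co, module TRF: a core is transported by an isomorphism of induced subgraphs
-/

set_option autoImplicit false

namespace Pool.Agent.Lib.MPbafc89.KP

open SimpleGraph
open Pool.Agent.Lib.MPbafc89.BQ (Jn Cn)
open Pool.Agent.Lib.MPbafc89.KE (Tch qg IsMinor IsInducedMinor)

universe u

namespace TRFM

variable {V W : Type u} {G : SimpleGraph V} {G' : SimpleGraph W} {D' : Set W} {f : W → V}

theorem img_cn (ha : ∀ a ∈ D', ∀ b ∈ D', (G'.Adj a b ↔ G.Adj (f a) (f b))) {S : Set W}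
    (hS : S ⊆ D') (hc : Cn G' S) : Cn G (f '' S) := by
  obtain ⟨⟨c, hc0⟩, h⟩ := hc
  refine Cn.of_center (c := f c) ⟨c, hc0, rfl⟩ ?_
  rintro _ ⟨x, hx, rfl⟩
  refine (h c hc0 x hx).induct (P := fun y => Jn G (f '' S) (f c) (f y)) ?_ ?_
  · exact Jn.refl ⟨c, hc0, rfl⟩
  · intro a b haS hbS hab hP
    exact hP.trans (Jn.adj ⟨a, haS, rfl⟩ ⟨b, hbS, rfl⟩ ((ha a (hS haS) b (hS hbS)).mp hab))

theorem img_dis (hf : Set.InjOn f D') {A B : Set W} (hA : A ⊆ D') (hB : B ⊆ D')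
    (h : Disjoint A B) : Disjoint (f '' A) (f '' B) := by
  rw [Set.disjoint_left]
  rintro _ ⟨x, hx, rfl⟩ ⟨y, hy, hxy⟩
  have : y = x := hf (hB hy) (hA hx) hxy
  subst this
  exact Set.disjoint_left.mp h hx hy

theorem img_tch (ha : ∀ a ∈ D', ∀ b ∈ D', (G'.Adj a b ↔ G.Adj (f a) (f b))) {A B : Set W}
    (hA : A ⊆ D') (hB : B ⊆ D') (h : Tch G' A B) : Tch G (f '' A) (f '' B) := by
  obtain ⟨x, hx, y, hy, hxy⟩ := h
  exact ⟨f x, ⟨x, hx, rfl⟩, f y, ⟨y, hy, rfl⟩, (ha x (hA hx) y (hB hy)).mp hxy⟩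

theorem three {D : Set W} (h : (5 : ℕ∞) ≤ D.encard) :
    ∃ a ∈ D, ∃ b ∈ D, ∃ c ∈ D, a ≠ b ∧ a ≠ c ∧ b ≠ c := by
  have h3 : (3 : ℕ∞) ≤ D.encard := le_trans (by norm_num) h
  obtain ⟨t, htD, ht⟩ := Set.exists_subset_encard_eq h3
  obtain ⟨x, y, z, hxy, hxz, hyz, rfl⟩ := Set.encard_eq_three.mp ht
  exact ⟨x, htD (by simp), y, htD (by simp), z, htD (by simp), hxy, hxz, hyz⟩

theorem core_cn (h : Core G' D') : Cn G' D' := by
  obtain ⟨a, ha, b, hb, c, hc, hab, hac, hbc⟩ := three h.big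
  have h1 := h.con a a
  have h2 := h.con b b
  have m1 : c ∈ D' \ {a, a} := ⟨hc, by
    rintro (h | h)
    · exact hac h.symm
    · exact hac (Set.mem_singleton_iff.mp h).symm⟩
  have m2 : c ∈ D' \ {b, b} := ⟨hc, by
    rintro (h | h)
    · exact hbc h.symm
    · exact hbc (Set.mem_singleton_iff.mp h).symm⟩
  have h3 := Cn.union h1 h2 m1 m2
  have e : D' \ {a, a} ∪ D' \ {b, b} = D' := by
    ext x
    constructor
    · rintro (hx | hx)
      · exact hx.1
      · exact hx.1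
    · intro hx
      by_cases hxa : x = a
      · right
        refine ⟨hx, ?_⟩
        rintro (h | h)
        · exact hab (hxa.symm.trans h)
        · exact hab (hxa.symm.trans (Set.mem_singleton_iff.mp h))
      · left
        refine ⟨hx, ?_⟩
        rintro (h | h)
        · exact hxa h
        · exact hxa (Set.mem_singleton_iff.mp h)
  rwa [e] at h3

theorem core_cn2 (h : Core G' D') (hf : Set.InjOn f D') (s t : V) :
    Cn G' {x | x ∈ D' ∧ f x ≠ s ∧ f x ≠ t} := by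
  by_cases hs : ∃ s' ∈ D', f s' = s
  · obtain ⟨s', hs', rfl⟩ := hs
    by_cases ht : ∃ t' ∈ D', f t' = t
    · obtain ⟨t', ht', rfl⟩ := ht
      have e : {x | x ∈ D' ∧ f x ≠ f s' ∧ f x ≠ f t'} = D' \ {s', t'} := by
        ext x
        constructor
        · rintro ⟨hx, h1, h2⟩
          refine ⟨hx, ?_⟩
          rintro (h | h)
          · exact h1 (by rw [h])
          · exact h2 (by rw [Set.mem_singleton_iff.mp h])
        · rintro ⟨hx, h1⟩
          exact ⟨hx, fun h => h1 (Or.inl (hf hx hs' h)), fun h => h1 (Or.inr (hf hx ht' h))⟩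
      rw [e]
      exact h.con s' t'
    · have e : {x | x ∈ D' ∧ f x ≠ f s' ∧ f x ≠ t} = D' \ {s', s'} := by
        ext x
        constructor
        · rintro ⟨hx, h1, h2⟩
          refine ⟨hx, ?_⟩
          rintro (h | h)
          · exact h1 (by rw [h])
          · exact h1 (by rw [Set.mem_singleton_iff.mp h])
        · rintro ⟨hx, h1⟩
          exact ⟨hx, fun h => h1 (Or.inl (hf hx hs' h)), fun h => ht ⟨x, hx, h⟩⟩
      rw [e]
      exact h.con s' s'
  · by_cases ht : ∃ t' ∈ D', f t' = t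
    · obtain ⟨t', ht', rfl⟩ := ht
      have e : {x | x ∈ D' ∧ f x ≠ s ∧ f x ≠ f t'} = D' \ {t', t'} := by
        ext x
        constructor
        · rintro ⟨hx, h1, h2⟩
          refine ⟨hx, ?_⟩
          rintro (h | h)
          · exact h2 (by rw [h])
          · exact h2 (by rw [Set.mem_singleton_iff.mp h])
        · rintro ⟨hx, h1⟩
          exact ⟨hx, fun h => hs ⟨x, hx, h⟩, fun h => h1 (Or.inl (hf hx ht' h))⟩
      rw [e]
      exact h.con t' t'
    · have e : {x | x ∈ D' ∧ f x ≠ s ∧ f x ≠ t} = D' := by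
        ext x
        constructor
        · exact fun hx => hx.1
        · exact fun hx => ⟨hx, fun h => hs ⟨x, hx, h⟩, fun h => ht ⟨x, hx, h⟩⟩
      rw [e]
      exact core_cn h

end TRFM

open TRFM in
theorem specTRF : SpecTRF.{u} := by
  intro V W G G' D' f hcore hf hadj
  refine ⟨?_, ?_, ?_, ?_⟩
  · rintro _ ⟨a, ha, rfl⟩ _ ⟨b, hb, rfl⟩ hab
    obtain ⟨A, B, C, E, hK, hA, hB, hC, hE, haA, hbB⟩ :=
      hcore.rk a ha b hb (fun h => hab (by rw [h]))
    refine ⟨f '' A, f '' B, f '' C, f '' E, ?_, Set.image_mono hA, Set.image_mono hB,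
      Set.image_mono hC, Set.image_mono hE, ⟨a, haA, rfl⟩, ⟨b, hbB, rfl⟩⟩
    exact ⟨img_cn hadj hA hK.cA, img_cn hadj hB hK.cB, img_cn hadj hC hK.cC, img_cn hadj hE hK.cD,
      img_dis hf hA hB hK.dAB, img_dis hf hA hC hK.dAC, img_dis hf hA hE hK.dAD,
      img_dis hf hB hC hK.dBC, img_dis hf hB hE hK.dBD, img_dis hf hC hE hK.dCD,
      img_tch hadj hA hB hK.tAB, img_tch hadj hA hC hK.tAC, img_tch hadj hA hE hK.tAD,
      img_tch hadj hB hC hK.tBC, img_tch hadj hB hE hK.tBD, img_tch hadj hC hE hK.tCD⟩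
  · intro s t
    have h1 := img_cn hadj (S := {x | x ∈ D' ∧ f x ≠ s ∧ f x ≠ t}) (fun x hx => hx.1)
      (core_cn2 hcore hf s t)
    have e : f '' {x | x ∈ D' ∧ f x ≠ s ∧ f x ≠ t} = f '' D' \ {s, t} := by
      ext y
      constructor
      · rintro ⟨x, ⟨hx, h2, h3⟩, rfl⟩
        refine ⟨⟨x, hx, rfl⟩, ?_⟩
        rintro (h | h)
        · exact h2 h
        · exact h3 h
      · rintro ⟨⟨x, hx, rfl⟩, h2⟩
        exact ⟨x, ⟨hx, fun h => h2 (Or.inl h), fun h => h2 (Or.inr h)⟩, rfl⟩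
    rwa [e] at h1
  · rw [hf.encard_image]
    exact hcore.big
  · rintro _ ⟨x, hx, rfl⟩ _ ⟨y, hy, rfl⟩
    obtain ⟨a, ha, b, hb, h1, h2, h3⟩ := hcore.dia x hx y hy
    refine ⟨f a, ⟨a, ha, rfl⟩, f b, ⟨b, hb, rfl⟩, ?_, ?_, ?_⟩
    · rcases h1 with rfl | h1
      · exact Or.inl rfl
      · exact Or.inr ((hadj x hx a ha).mp h1)
    · rcases h2 with rfl | h2
      · exact Or.inl rfl
      · exact Or.inr ((hadj a ha b hb).mp h2)
    · rcases h3 with rfl | h3
      · exact Or.inl rfl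
      · exact Or.inr ((hadj b hb y hy).mp h3)

end Pool.Agent.Lib.MPbafc89.KP
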