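import Pool.Agent.Lib.MP_bafc89_co.KP.Spec

/-!
# MP_bafc89_co, module TWO (helper87): the closure is 2-connected
-/

set_option autoImplicit false

namespace Pool.Agent.Lib.MPbafc89.KP

open SimpleGraph
open Pool.Agent.Lib.MPbafc89.BQ (Jn Cn)
open Pool.Agent.Lib.MPbafc89.KE (Tch qg IsMinor IsInducedMinor)

universe u

namespace TWOM

variable {V : Type u} {G : SimpleGraph V} {D : Set V}

lemma lev_le (n : ℕ) : lev G D n ⊆ lev G D (n + 1) := by
  intro x hx
  exact Or.inl hx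

lemma join (s c : V) (h0 : ∀ x ∈ D \ {s, s}, Jn G (D \ {s, s}) c x) :
    ∀ n : ℕ, ∀ x ∈ lev G D n \ {s}, Jn G (Uc G D \ {s}) c x := by
  intro n
  induction n with
  | zero =>
    intro x hx
    have h1 : x ∈ D \ {s, s} := ⟨hx.1, by
      rw [Set.pair_eq_singleton]
      exact hx.2⟩
    refine (h0 x h1).mono ?_
    intro y hy
    refine ⟨Set.mem_iUnion.2 ⟨0, hy.1⟩, ?_⟩
    have h2 := hy.2
    rw [Set.pair_eq_singleton] at h2
    exact h2
  | succ n ih =>
    intro x hx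
    rcases hx.1 with h1 | ⟨a, ha, b, hb, hab, hxa, hxb⟩
    · exact ih x ⟨h1, hx.2⟩
    · have hxU : x ∈ Uc G D \ {s} := ⟨Set.mem_iUnion.2 ⟨n + 1, hx.1⟩, hx.2⟩
      by_cases has : a = s
      · have hbs : b ≠ s := by
          intro h
          exact hab (has.trans h.symm)
        have h2 := ih b ⟨hb, hbs⟩
        exact h2.trans (Jn.adj h2.right hxU hxb.symm)
      · have h2 := ih a ⟨ha, has⟩
        exact h2.trans (Jn.adj h2.right hxU hxa.symm)

end TWOM

theorem specTWO : SpecTWO.{u} := by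
  intro V G D hD s
  obtain ⟨⟨c, hc⟩, h⟩ := hD s s
  have hj := TWOM.join s c (fun x hx => h c hc x hx)
  have hcs : c ∉ ({s} : Set V) := by
    have h2 := hc.2
    rw [Set.pair_eq_singleton] at h2
    exact h2
  refine Cn.of_center (c := c) ⟨Set.mem_iUnion.2 ⟨0, hc.1⟩, hcs⟩ ?_
  intro x hx
  obtain ⟨n, hn⟩ := Set.mem_iUnion.1 hx.1
  exact hj n x ⟨hn, hx.2⟩

end Pool.Agent.Lib.MPbafc89.KP
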