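import Pool.Agent.Lib.MP_bafc89_co.KP.Spec

/-!
Module UNI: the blocks minus their gates are pairwise disjoint.
-/

set_option autoImplicit false

namespace Pool.Agent.Lib.MPbafc89.KP

open SimpleGraph
open Pool.Agent.Lib.MPbafc89.BQ (Jn Cn)
open Pool.Agent.Lib.MPbafc89.KE (Tch qg IsMinor IsInducedMinor)

universe u

namespace UNIM

/-- step (1) -/
theorem step1 {V : Type u} {G : SimpleGraph V} {U U' : Set V} {v : V} (hU : Bl G U)
    (hnb : ∀ x ∈ U, ∃ y ∈ U, G.Adj x y) (hv : v ∈ U) (hone : ∀ x, x ∈ U → x ∈ U' → x = v)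
    {b : V} (hb : b ∈ U) (hbv : b ≠ v) : ∃ y, Jn G U'ᶜ b y ∧ G.Adj y v := by
  obtain ⟨y, hy, hvy⟩ := hnb v hv
  refine ⟨y, ?_, hvy.symm⟩
  have h := (hU.two v).2 b ⟨hb, hbv⟩ y ⟨hy, hvy.ne'⟩
  exact h.mono (fun x hx hx' => hx.2 (hone x hx.1 hx'))

/-- entering `U` is impossible -/
theorem enter {V : Type u} {G : SimpleGraph V} {U U' : Set V} {v r a b : V} (hU : Bl G U)
    (hnb : ∀ x ∈ U, ∃ y ∈ U, G.Adj x y) (hv : v ∈ U) (hone : ∀ x, x ∈ U → x ∈ U' → x = v)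
    (h1 : ¬ ∃ y, Jn G Uᶜ r y ∧ G.Adj y v) (h2 : ¬ ∃ y, Jn G U'ᶜ r y ∧ G.Adj y v)
    (ha1 : Jn G Uᶜ r a) (ha2 : Jn G U'ᶜ r a) (hab : G.Adj a b) : b ∉ U := by
  intro hb
  by_cases hbv : b = v
  · subst hbv
    exact h1 ⟨a, ha1, hab⟩
  · obtain ⟨y, hy1, hy2⟩ := step1 hU hnb hv hone hb hbv
    have hbU' : b ∈ U'ᶜ := fun h => hbv (hone b hb h)
    exact h2 ⟨y, (ha2.trans (Jn.adj ha2.right hbU' hab)).trans hy1, hy2⟩

end UNIM

theorem specUNI (hINT : SpecINT.{u}) : SpecUNI.{u} := by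
  intro V G U U' hU hU' hne hnb hnb' v hv hv'
  by_contra hcon
  push Not at hcon
  obtain ⟨hg, hg'⟩ := hcon
  have hone : ∀ x, x ∈ U → x ∈ U' → x = v := fun x hx hx' =>
    hINT V G U U' hU hU' hne x v hx hx' hv hv'
  have hone' : ∀ x, x ∈ U' → x ∈ U → x = v := fun x hx hx' => hone x hx' hx
  have hvr : v ≠ rt G v := fun h => hg ⟨hv, Or.inl h⟩
  have h1 : ¬ ∃ y, Jn G Uᶜ (rt G v) y ∧ G.Adj y v := fun h => hg ⟨hv, Or.inr h⟩
  have h2 : ¬ ∃ y, Jn G U'ᶜ (rt G v) y ∧ G.Adj y v := fun h => hg' ⟨hv', Or.inr h⟩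
  have hrU : rt G v ∉ U := fun h => h2 (UNIM.step1 hU hnb hv hone h hvr.symm)
  have hrU' : rt G v ∉ U' := fun h => h1 (UNIM.step1 hU' hnb' hv' hone' h hvr.symm)
  have hreach : G.Reachable (rt G v) v := by
    have h : G.connectedComponentMk (rt G v) = G.connectedComponentMk v := Quot.out_eq _
    exact ConnectedComponent.exact h
  obtain ⟨w⟩ := hreach
  have hJ : Jn G Set.univ (rt G v) v := ⟨w, fun z _ => Set.mem_univ z⟩
  have hfin := hJ.induct (P := fun b => Jn G Uᶜ (rt G v) b ∧ Jn G U'ᶜ (rt G v) b)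
    ⟨Jn.refl hrU, Jn.refl hrU'⟩ (by
      rintro a b - - hab ⟨ha1, ha2⟩
      have hb1 : b ∉ U := UNIM.enter hU hnb hv hone h1 h2 ha1 ha2 hab
      have hb2 : b ∉ U' := UNIM.enter hU' hnb' hv' hone' h2 h1 ha2 ha1 hab
      exact ⟨ha1.trans (Jn.adj ha1.right hb1 hab), ha2.trans (Jn.adj ha2.right hb2 hab)⟩)
  exact hfin.1.right hv

end Pool.Agent.Lib.MPbafc89.KP
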